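import Pool.Agent.AAS.Defs

/-!
# Ranks of the rows of a system on a subspace
-/

set_option autoImplicit false

open NumberField Module Pool.Agent.SST Pool.Agent.RefW Polynomial

namespace Pool.Agent.AAS

section A1

variable {k : Type} [Field k] {m N : ℕ}

private lemma up_add (x y : Fin N → k) : up (x + y) = up x + up y := by
  ext j
  simp [up]

private lemma up_smul (c : k) (x : Fin N → k) :
    up (c • x) = algebraMap k (AlgebraicClosure k) c • up x := by
  ext j
  simp [up]

private lemma up_zero : up (0 : Fin N → k) = 0 := by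
  ext j
  simp [up]

theorem kap_zero (L : Matrix (Fin m) (Fin N) (AlgebraicClosure k))
    (U : Submodule k (Fin N → k)) : kap L U 0 = finrank k U := by
  have h1 : kerS L U 0 = Submodule.span (AlgebraicClosure k) (up '' (U : Set (Fin N → k))) := by
    ext z
    constructor
    · exact fun h => h.1
    · exact fun h => ⟨h, fun i hi => absurd hi (Nat.not_lt_zero _)⟩
  have hli : LinearIndependent k fun i => ((Module.finBasis k U i : U) : Fin N → k) :=
    (Module.finBasis k U).linearIndependent.map' U.subtype U.ker_subtype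
  have hli' : LinearIndependent (AlgebraicClosure k)
      fun i => up ((Module.finBasis k U i : U) : Fin N → k) :=
    (linearIndependent_algebraMap_comp_iff (S := AlgebraicClosure k)).2 hli
  have h2 : Submodule.span (AlgebraicClosure k) (up '' (U : Set (Fin N → k))) =
      Submodule.span (AlgebraicClosure k)
        (Set.range fun i => up ((Module.finBasis k U i : U) : Fin N → k)) := by
    apply le_antisymm
    · rw [Submodule.span_le]
      rintro _ ⟨x, hx, rfl⟩
      have hx2 : (⟨x, hx⟩ : U) ∈ Submodule.span k (Set.range (Module.finBasis k U)) := by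
        rw [(Module.finBasis k U).span_eq]
        exact Submodule.mem_top
      have key : ∀ y : U, y ∈ Submodule.span k (Set.range (Module.finBasis k U)) →
          up (y : Fin N → k) ∈ Submodule.span (AlgebraicClosure k)
            (Set.range fun i => up ((Module.finBasis k U i : U) : Fin N → k)) := by
        intro y hy
        induction hy using Submodule.span_induction with
        | mem y hy =>
          obtain ⟨i, rfl⟩ := hy
          exact Submodule.subset_span ⟨i, rfl⟩
        | zero =>
          rw [Submodule.coe_zero, up_zero]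
          exact Submodule.zero_mem _
        | add y z _ _ ihy ihz =>
          rw [Submodule.coe_add, up_add]
          exact Submodule.add_mem _ ihy ihz
        | smul c y _ ih =>
          rw [Submodule.coe_smul, up_smul]
          exact Submodule.smul_mem _ _ ih
      exact key _ hx2
    · apply Submodule.span_mono
      rintro _ ⟨i, rfl⟩
      exact ⟨_, (Module.finBasis k U i : U).2, rfl⟩
  unfold kap
  rw [h1, h2, finrank_span_eq_card hli', Fintype.card_fin]

private lemma kerS_anti (L : Matrix (Fin m) (Fin N) (AlgebraicClosure k))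
    (U : Submodule k (Fin N → k)) {s t : ℕ} (h : s ≤ t) : kerS L U t ≤ kerS L U s :=
  fun _ hz => ⟨hz.1, fun i hi => hz.2 i (hi.trans_le h)⟩

theorem kap_anti (L : Matrix (Fin m) (Fin N) (AlgebraicClosure k))
    (U : Submodule k (Fin N → k)) : Antitone (kap L U) :=
  fun _ _ h => Submodule.finrank_mono (kerS_anti L U h)

theorem kap_succ (L : Matrix (Fin m) (Fin N) (AlgebraicClosure k))
    (U : Submodule k (Fin N → k)) (s : ℕ) : kap L U s ≤ kap L U (s + 1) + 1 := by
  by_cases hs : s < m
  · set f : kerS L U s →ₗ[AlgebraicClosure k] AlgebraicClosure k :=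
      (LinearMap.proj (⟨s, hs⟩ : Fin m)).comp (L.mulVecLin.comp (kerS L U s).subtype) with hf
    have h1 := LinearMap.finrank_range_add_finrank_ker f
    have h2 : finrank (AlgebraicClosure k) (LinearMap.range f) ≤ 1 := by
      have h := Submodule.finrank_le (LinearMap.range f)
      rwa [finrank_self] at h
    have h3 : (LinearMap.ker f).map (kerS L U s).subtype = kerS L U (s + 1) := by
      ext z
      rw [Submodule.mem_map]
      constructor
      · rintro ⟨y, hy, rfl⟩
        refine ⟨y.2.1, fun i hi => ?_⟩
        rcases Nat.lt_succ_iff_lt_or_eq.1 hi with h | h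
        · exact y.2.2 i h
        · have hi' : i = ⟨s, hs⟩ := Fin.ext h
          rw [hi']
          exact hy
      · intro hz
        exact ⟨⟨z, kerS_anti L U (Nat.le_succ s) hz⟩, hz.2 ⟨s, hs⟩ (Nat.lt_succ_self s), rfl⟩
    have h4 := Submodule.finrank_map_subtype_eq (kerS L U s) (LinearMap.ker f)
    rw [h3] at h4
    unfold kap
    omega
  · have h1 : kerS L U s ≤ kerS L U (s + 1) := fun _ hz =>
      ⟨hz.1, fun i _ => hz.2 i (lt_of_lt_of_le i.2 (not_lt.1 hs))⟩
    exact (Submodule.finrank_mono h1).trans (Nat.le_succ _)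

theorem kap_last (L : Matrix (Fin m) (Fin N) (AlgebraicClosure k))
    (hL : Function.Injective L.mulVec) (U : Submodule k (Fin N → k)) : kap L U m = 0 := by
  have h1 : kerS L U m = ⊥ := by
    rw [Submodule.eq_bot_iff]
    intro z hz
    apply hL
    rw [Matrix.mulVec_zero]
    funext i
    exact hz.2 i i.2
  unfold kap
  rw [h1, finrank_bot]

theorem kap_bot (L : Matrix (Fin m) (Fin N) (AlgebraicClosure k)) (s : ℕ) :
    kap L (⊥ : Submodule k (Fin N → k)) s = 0 := by
  have h1 := kap_anti L (⊥ : Submodule k (Fin N → k)) (Nat.zero_le s)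
  rw [kap_zero, finrank_bot] at h1
  exact Nat.le_zero.1 h1

theorem mu_bot [NumberField k] {r : ℕ} {p : Fin r → ℕ} [∀ t, Fact (p t).Prime]
    (L : PlK k p → Matrix (Fin m) (Fin N) (AlgebraicClosure k)) (c : PlK k p → Fin m → ℝ) :
    mu L c ⊥ = 0 := by
  unfold mu muL
  refine Finset.sum_eq_zero fun l _ => Finset.sum_eq_zero fun i _ => ?_
  rw [kap_bot, kap_bot]
  simp

theorem mu_finite [NumberField k] {r : ℕ} {p : Fin r → ℕ} [∀ t, Fact (p t).Prime]
    (L : PlK k p → Matrix (Fin m) (Fin N) (AlgebraicClosure k)) (c : PlK k p → Fin m → ℝ) :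
    (Set.range (mu L c)).Finite := by
  have hle : ∀ (M : Matrix (Fin m) (Fin N) (AlgebraicClosure k)) (U : Submodule k (Fin N → k))
      (s : ℕ), kap M U s < N + 1 := by
    intro M U s
    have h1 := Submodule.finrank_le (kerS M U s)
    rw [Module.finrank_fintype_fun_eq_card, Fintype.card_fin] at h1
    exact Nat.lt_succ_of_le h1
  set G : (PlK k p → Fin m → Fin (N + 1) × Fin (N + 1)) → ℝ := fun g =>
    ∑ l, ∑ i, c l i * ((((g l i).1 : ℕ) : ℝ) - (((g l i).2 : ℕ) : ℝ)) with hG
  refine Set.Finite.subset (Set.finite_range G) ?_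
  rintro _ ⟨U, rfl⟩
  exact ⟨fun l i => (⟨kap (L l) U i, hle _ _ _⟩, ⟨kap (L l) U (i + 1), hle _ _ _⟩), rfl⟩

end A1

end Pool.Agent.AAS
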