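import Mathlib

/-!
# Coordinates and values of linear forms

An injective matrix over a field has a left inverse, so that the coordinates of a vector are bounded
by the values of the forms.
-/

set_option autoImplicit false

namespace Pool.Agent.AAS

private theorem mulVec_le_aux {κ : Type} [Field κ] (V : AbsoluteValue κ ℝ) {m N : ℕ}
    (L : Matrix (Fin m) (Fin N) κ) :
    ∃ C : ℝ, 0 < C ∧ ∀ (z : Fin N → κ) (b : ℝ), 0 ≤ b → (∀ j, V (z j) ≤ b) →
      ∀ i, V (L.mulVec z i) ≤ C * b := by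
  have hpos : 0 ≤ ∑ i, ∑ j, V (L i j) :=
    Finset.sum_nonneg fun i _ => Finset.sum_nonneg fun j _ => V.nonneg _
  refine ⟨1 + ∑ i, ∑ j, V (L i j), by linarith, fun z b hb hz i => ?_⟩
  have h1 : V (L.mulVec z i) ≤ ∑ j, V (L i j * z j) := by
    have h : L.mulVec z i = ∑ j, L i j * z j := rfl
    rw [h]
    exact V.sum_le _ _
  have h2 : ∑ j, V (L i j * z j) ≤ (∑ j, V (L i j)) * b := by
    rw [Finset.sum_mul]
    refine Finset.sum_le_sum fun j _ => ?_
    rw [V.map_mul]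
    exact mul_le_mul_of_nonneg_left (hz j) (V.nonneg _)
  have h3 : ∑ j, V (L i j) ≤ ∑ i, ∑ j, V (L i j) :=
    Finset.single_le_sum (f := fun i => ∑ j, V (L i j))
      (fun i _ => Finset.sum_nonneg fun j _ => V.nonneg _) (Finset.mem_univ i)
  have h4 : (∑ j, V (L i j)) * b ≤ (1 + ∑ i, ∑ j, V (L i j)) * b :=
    mul_le_mul_of_nonneg_right (by linarith) hb
  exact h1.trans (h2.trans h4)

theorem coord_le {κ : Type} [Field κ] (V : AbsoluteValue κ ℝ) {m N : ℕ}
    (L : Matrix (Fin m) (Fin N) κ) (hL : Function.Injective L.mulVec) :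
    ∃ C : ℝ, 0 < C ∧ ∀ (z : Fin N → κ) (b : ℝ), 0 ≤ b → (∀ i, V (L.mulVec z i) ≤ b) →
      ∀ j, V (z j) ≤ C * b := by
  have hker : LinearMap.ker (Matrix.mulVecLin L) = ⊥ := LinearMap.ker_eq_bot.2 hL
  obtain ⟨g, hg⟩ := LinearMap.exists_leftInverse_of_injective _ hker
  obtain ⟨C, hC, h⟩ := mulVec_le_aux V (LinearMap.toMatrix' g)
  refine ⟨C, hC, fun z b hb hz j => ?_⟩
  have h1 : (LinearMap.toMatrix' g).mulVec (L.mulVec z) = z := by
    rw [LinearMap.toMatrix'_mulVec]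
    exact LinearMap.congr_fun hg z
  have h2 := h (L.mulVec z) b hb hz j
  rwa [h1] at h2

theorem mulVec_le {κ : Type} [Field κ] (V : AbsoluteValue κ ℝ) {m N : ℕ}
    (L : Matrix (Fin m) (Fin N) κ) :
    ∃ C : ℝ, 0 < C ∧ ∀ (z : Fin N → κ) (b : ℝ), 0 ≤ b → (∀ j, V (z j) ≤ b) →
      ∀ i, V (L.mulVec z i) ≤ C * b :=
  mulVec_le_aux V L

end Pool.Agent.AAS
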