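import Pool.Agent.AAS.Defs

/-!
# AAS: a square nonsingular subsystem of the rows whose sum of weights is `muL`

The rows `i` with `kap L ⊤ (i + 1) < kap L ⊤ i` are the rows which are not in the span of the earlier
rows.
-/

set_option autoImplicit false

open NumberField Module Pool.Agent.SST

namespace Pool.Agent.AAS

variable {k : Type} [Field k]

private theorem greedy_span_top (N : ℕ) :
    Submodule.span (AlgebraicClosure k) (up '' ((⊤ : Submodule k (Fin N → k)) : Set (Fin N → k))) =
      ⊤ := by
  classical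
  rw [eq_top_iff]
  intro z _
  have h1 : z = ∑ j, z j • (Pi.single j (1 : AlgebraicClosure k) : Fin N → AlgebraicClosure k) := by
    funext i
    rw [Finset.sum_apply, Finset.sum_eq_single i]
    · rw [Pi.smul_apply, Pi.single_eq_same, smul_eq_mul, mul_one]
    · intro j _ hj
      rw [Pi.smul_apply, Pi.single_eq_of_ne hj.symm, smul_zero]
    · intro h
      exact absurd (Finset.mem_univ i) h
  rw [h1]
  refine Submodule.sum_mem _ fun j _ => Submodule.smul_mem _ _ (Submodule.subset_span ?_)
  refine ⟨Pi.single j 1, trivial, ?_⟩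
  funext i
  unfold up
  by_cases h : i = j
  · rw [h, Pi.single_eq_same, Pi.single_eq_same, map_one]
  · rw [Pi.single_eq_of_ne h, Pi.single_eq_of_ne h, map_zero]

private theorem greedy_mem {m N : ℕ} (L : Matrix (Fin m) (Fin N) (AlgebraicClosure k)) (s : ℕ)
    (z : Fin N → AlgebraicClosure k) :
    z ∈ kerS L (⊤ : Submodule k (Fin N → k)) s ↔ ∀ i : Fin m, (i : ℕ) < s → L.mulVec z i = 0 := by
  constructor
  · intro h
    exact h.2
  · intro h
    refine ⟨?_, h⟩
    rw [greedy_span_top]
    trivial

private theorem greedy_le {m N : ℕ} (L : Matrix (Fin m) (Fin N) (AlgebraicClosure k)) (s : ℕ) :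
    kerS L (⊤ : Submodule k (Fin N → k)) (s + 1) ≤ kerS L ⊤ s := by
  intro z hz
  rw [greedy_mem] at hz ⊢
  exact fun i hi => hz i (by omega)

private theorem greedy_kap_le {m N : ℕ} (L : Matrix (Fin m) (Fin N) (AlgebraicClosure k)) (s : ℕ) :
    kap L (⊤ : Submodule k (Fin N → k)) (s + 1) ≤ kap L ⊤ s :=
  Submodule.finrank_mono (greedy_le L s)

private theorem greedy_kap_zero {m N : ℕ} (L : Matrix (Fin m) (Fin N) (AlgebraicClosure k)) :
    kap L (⊤ : Submodule k (Fin N → k)) 0 = N := by
  have h : kerS L (⊤ : Submodule k (Fin N → k)) 0 = ⊤ := by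
    rw [eq_top_iff]
    intro z _
    rw [greedy_mem]
    intro i hi
    omega
  rw [kap, h, finrank_top, finrank_fin_fun]

private theorem greedy_kap_top {m N : ℕ} (L : Matrix (Fin m) (Fin N) (AlgebraicClosure k))
    (hL : Function.Injective L.mulVec) : kap L (⊤ : Submodule k (Fin N → k)) m = 0 := by
  have h : kerS L (⊤ : Submodule k (Fin N → k)) m = ⊥ := by
    rw [eq_bot_iff]
    intro z hz
    rw [greedy_mem] at hz
    rw [Submodule.mem_bot]
    apply hL
    rw [Matrix.mulVec_zero]
    funext i
    exact hz i i.2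
  rw [kap, h, finrank_bot]

private theorem greedy_kap_succ {m N : ℕ} (L : Matrix (Fin m) (Fin N) (AlgebraicClosure k))
    (i : Fin m) :
    kap L (⊤ : Submodule k (Fin N → k)) i ≤ kap L (⊤ : Submodule k (Fin N → k)) (i + 1) + 1 := by
  let f : kerS L (⊤ : Submodule k (Fin N → k)) i →ₗ[AlgebraicClosure k] AlgebraicClosure k :=
    ((LinearMap.proj i).comp L.mulVecLin).comp (kerS L (⊤ : Submodule k (Fin N → k)) i).subtype
  have hf : ∀ z, f z = L.mulVec (z : Fin N → AlgebraicClosure k) i := fun z => rfl
  have h1 := LinearMap.finrank_range_add_finrank_ker f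
  have h2 : finrank (AlgebraicClosure k) (LinearMap.range f) ≤ 1 := by
    have := Submodule.finrank_le (LinearMap.range f)
    rwa [finrank_self] at this
  have h3 : finrank (AlgebraicClosure k) (LinearMap.ker f) ≤
      kap L (⊤ : Submodule k (Fin N → k)) (i + 1) := by
    rw [kap, ← Submodule.finrank_map_subtype_eq (kerS L (⊤ : Submodule k (Fin N → k)) i)
      (LinearMap.ker f)]
    refine Submodule.finrank_mono ?_
    rintro z ⟨y, hy, rfl⟩
    have h4 : f y = 0 := hy
    rw [hf] at h4
    rw [greedy_mem]
    intro j hj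
    by_cases h5 : j = i
    · rw [h5]
      exact h4
    · have h6 := (greedy_mem L i y).1 y.2 j
      refine h6 ?_
      have h7 : (j : ℕ) ≠ i := fun h => h5 (Fin.ext h)
      omega
  rw [kap, ← h1]
  omega

theorem exists_greedy {k : Type} [Field k] {m N : ℕ}
    (L : Matrix (Fin m) (Fin N) (AlgebraicClosure k)) (hL : Function.Injective L.mulVec)
    (c : Fin m → ℝ) :
    ∃ I : Fin N → Fin m, Function.Injective I ∧
      (L.submatrix I id).det ≠ 0 ∧ ∑ j, c (I j) = muL L c (⊤ : Submodule k (Fin N → k)) := by
  classical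
  let G : Finset (Fin m) := Finset.univ.filter fun i =>
    kap L (⊤ : Submodule k (Fin N → k)) (i + 1) < kap L (⊤ : Submodule k (Fin N → k)) i
  have hG : ∀ i, i ∈ G ↔
      kap L (⊤ : Submodule k (Fin N → k)) (i + 1) < kap L (⊤ : Submodule k (Fin N → k)) i := by
    intro i
    rw [Finset.mem_filter]
    exact ⟨fun h => h.2, fun h => ⟨Finset.mem_univ i, h⟩⟩
  have hd : ∀ i : Fin m, ((kap L (⊤ : Submodule k (Fin N → k)) i : ℝ) -
      kap L (⊤ : Submodule k (Fin N → k)) (i + 1)) = if i ∈ G then 1 else 0 := by
    intro i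
    have h1 := greedy_kap_le (k := k) L i
    have h2 := greedy_kap_succ (k := k) L i
    by_cases h : i ∈ G
    · rw [if_pos h]
      rw [hG] at h
      have h3 : kap L (⊤ : Submodule k (Fin N → k)) i =
          kap L (⊤ : Submodule k (Fin N → k)) (i + 1) + 1 := by omega
      rw [h3, Nat.cast_add, Nat.cast_one]
      ring
    · rw [if_neg h]
      rw [hG] at h
      have h3 : kap L (⊤ : Submodule k (Fin N → k)) i =
          kap L (⊤ : Submodule k (Fin N → k)) (i + 1) := by omega
      rw [h3, sub_self]
  have hcard : G.card = N := by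
    have h1 : ∑ i : Fin m, ((kap L (⊤ : Submodule k (Fin N → k)) i : ℝ) -
        kap L (⊤ : Submodule k (Fin N → k)) (i + 1)) = N := by
      rw [Fin.sum_univ_eq_sum_range (fun i => (kap L (⊤ : Submodule k (Fin N → k)) i : ℝ) -
        kap L (⊤ : Submodule k (Fin N → k)) (i + 1)) m,
        Finset.sum_range_sub' (fun i => (kap L (⊤ : Submodule k (Fin N → k)) i : ℝ)) m,
        greedy_kap_zero, greedy_kap_top L hL, Nat.cast_zero, sub_zero]
    have h2 : ∑ i : Fin m, ((kap L (⊤ : Submodule k (Fin N → k)) i : ℝ) -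
        kap L (⊤ : Submodule k (Fin N → k)) (i + 1)) = G.card := by
      rw [Finset.sum_congr rfl fun i _ => hd i, Finset.sum_ite_mem, Finset.univ_inter,
        Finset.sum_const, nsmul_eq_mul, mul_one]
    have h3 : (G.card : ℝ) = N := h2.symm.trans h1
    exact_mod_cast h3
  refine ⟨G.orderEmbOfFin hcard, (G.orderEmbOfFin hcard).injective, ?_, ?_⟩
  · intro hdet
    obtain ⟨z, hz0, hz⟩ := Matrix.exists_mulVec_eq_zero_iff.2 hdet
    apply hz0
    have h1 : ∀ i ∈ G, L.mulVec z i = 0 := by
      intro i hi
      have h2 : i ∈ Set.range (G.orderEmbOfFin hcard) := by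
        rw [Finset.range_orderEmbOfFin]
        exact hi
      obtain ⟨j, rfl⟩ := h2
      exact congrFun hz j
    have h2 : ∀ s : ℕ, s ≤ m → z ∈ kerS L (⊤ : Submodule k (Fin N → k)) s := by
      intro s
      induction s with
      | zero =>
        intro _
        rw [greedy_mem]
        intro i hi
        omega
      | succ s ih =>
        intro hs
        have h3 := ih (by omega)
        by_cases h4 : (⟨s, by omega⟩ : Fin m) ∈ G
        · rw [greedy_mem] at h3 ⊢
          intro i hi
          by_cases h5 : (i : ℕ) = s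
          · have h6 : i = ⟨s, by omega⟩ := Fin.ext h5
            rw [h6]
            exact h1 _ h4
          · exact h3 i (by omega)
        · rw [hG] at h4
          have h5 : kerS L (⊤ : Submodule k (Fin N → k)) (s + 1) = kerS L ⊤ s := by
            refine Submodule.eq_of_le_of_finrank_le (greedy_le L s) ?_
            exact not_lt.1 h4
          rw [h5]
          exact h3
    have h3 := h2 m le_rfl
    rw [greedy_mem] at h3
    apply hL
    rw [Matrix.mulVec_zero]
    funext i
    exact h3 i i.2
  · have h1 : ∑ j, c (G.orderEmbOfFin hcard j) = ∑ i ∈ G, c i := by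
      conv_rhs => rw [← Finset.map_orderEmbOfFin_univ G hcard, Finset.sum_map]
      rfl
    have h2 : ∀ i : Fin m, c i * ((kap L (⊤ : Submodule k (Fin N → k)) i : ℝ) -
        kap L (⊤ : Submodule k (Fin N → k)) (i + 1)) = if i ∈ G then c i else 0 := by
      intro i
      rw [hd i, mul_ite, mul_one, mul_zero]
    rw [h1, muL, Finset.sum_congr rfl fun i _ => h2 i, Finset.sum_ite_mem, Finset.univ_inter]

end Pool.Agent.AAS
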