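import Pool.Agent.AAS.Defs

/-!
# Integral structures on subspaces and quotients
-/

set_option autoImplicit false

open Polynomial NumberField IntermediateField Module

namespace Pool.Agent.AAS

private lemma exists_den {k : Type} [Field k] [NumberField k] (x : k) :
    ∃ m : ℕ, m ≠ 0 ∧ IsIntegral ℤ ((m : k) * x) := by
  have hx : IsAlgebraic ℤ x := by
    have h1 : IsAlgebraic ℚ x := Algebra.IsAlgebraic.isAlgebraic x
    exact (IsFractionRing.isAlgebraic_iff ℤ ℚ k).mpr h1
  obtain ⟨y, hy0, hy⟩ := hx.exists_integral_multiple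
  refine ⟨y.natAbs, by simpa using hy0, ?_⟩
  rcases Int.natAbs_eq y with h | h
  · have h2 : ((y.natAbs : ℕ) : k) = (y : k) := by
      conv_rhs => rw [h]
      simp
    rw [h2, ← zsmul_eq_mul]
    exact hy
  · have h2 : ((y.natAbs : ℕ) : k) = -(y : k) := by
      conv_rhs => rw [h]
      simp
    rw [h2, neg_mul, ← zsmul_eq_mul]
    exact hy.neg

/-- common denominators of matrices -/
private lemma exists_den_matrix {k : Type} [Field k] [NumberField k] {m n : ℕ}
    (P : Matrix (Fin m) (Fin n) k) :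
    ∃ (D : ℕ) (c : Matrix (Fin m) (Fin n) (𝓞 k)), D ≠ 0 ∧
      ∀ i j, ((c i j : 𝓞 k) : k) = (D : k) * P i j := by
  choose d hd0 hd using fun p : Fin m × Fin n => exists_den (P p.1 p.2)
  have h1 : ∀ i j, IsIntegral ℤ (((∏ p, d p : ℕ) : k) * P i j) := by
    intro i j
    rw [← Finset.mul_prod_erase Finset.univ d (Finset.mem_univ (i, j))]
    push_cast
    rw [mul_right_comm]
    refine (hd (i, j)).mul ?_
    rw [← Nat.cast_prod]
    exact isIntegral_natCast _
  refine ⟨∏ p, d p, fun i j => ⟨_, h1 i j⟩, ?_, fun i j => rfl⟩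
  rw [Finset.prod_ne_zero_iff]
  exact fun p _ => hd0 p

private lemma coe_sum_mul {k : Type} [Field k] [NumberField k] {n : ℕ} (c x : Fin n → 𝓞 k) :
    ((∑ j, c j * x j : 𝓞 k) : k) = ∑ j, (c j : k) * (x j : k) := by
  rw [RingOfIntegers.coe_eq_algebraMap, map_sum]
  exact Finset.sum_congr rfl fun j _ => map_mul _ _ _

theorem exists_sub_int {k : Type} [Field k] [NumberField k] {N : ℕ}
    (U : Submodule k (Fin N → k)) :
    ∃ (R : Matrix (Fin N) (Fin (finrank k U)) k) (D : ℕ), D ≠ 0 ∧
      Function.Injective R.mulVec ∧ LinearMap.range R.mulVecLin = U ∧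
      ∀ x : Fin N → 𝓞 k, (fun j => (x j : k)) ∈ U →
        ∃ z : Fin (finrank k U) → 𝓞 k, ∀ j, (D : k) * (x j : k) = R.mulVec (fun i => (z i : k)) j := by
  classical
  let b : Basis (Fin (finrank k U)) k U := finBasis k U
  let f : (Fin (finrank k U) → k) →ₗ[k] (Fin N → k) :=
    U.subtype ∘ₗ (b.equivFun.symm : (Fin (finrank k U) → k) →ₗ[k] U)
  have hfinj : Function.Injective f := by
    intro x y h
    exact b.equivFun.symm.injective (Subtype.ext h)
  have hfran : LinearMap.range f = U := by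
    rw [LinearMap.range_comp, LinearEquiv.range, Submodule.map_top, Submodule.range_subtype]
  obtain ⟨g, hg⟩ := LinearMap.exists_leftInverse_of_injective f (LinearMap.ker_eq_bot.mpr hfinj)
  obtain ⟨D, c, hD, hc⟩ := exists_den_matrix (LinearMap.toMatrix' g)
  have hR : ∀ w, (LinearMap.toMatrix' f).mulVec w = f w := fun w =>
    LinearMap.toMatrix'_mulVec f w
  refine ⟨LinearMap.toMatrix' f, D, hD, ?_, ?_, ?_⟩
  · intro x y h
    rw [hR, hR] at h
    exact hfinj h
  · have : (LinearMap.toMatrix' f).mulVecLin = f := LinearMap.ext fun w => by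
      rw [Matrix.mulVecLin_apply, hR]
    rw [this, hfran]
  · intro x hx
    refine ⟨fun i => ∑ j, c i j * x j, fun j => ?_⟩
    have h1 : (fun i => ((∑ j, c i j * x j : 𝓞 k) : k)) = (D : k) • g (fun j => (x j : k)) := by
      funext i
      rw [coe_sum_mul, Pi.smul_apply, ← LinearMap.toMatrix'_mulVec g, Matrix.mulVec, dotProduct,
        smul_eq_mul, Finset.mul_sum]
      refine Finset.sum_congr rfl fun j _ => ?_
      rw [hc, mul_assoc]
    rw [h1, hR, map_smul]
    have h2 : f (g (fun j => (x j : k))) = fun j => (x j : k) := by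
      rw [← hfran] at hx
      obtain ⟨w, hw⟩ := hx
      rw [← hw]
      congr 1
      have := LinearMap.congr_fun hg w
      simpa using this
    rw [h2]
    rfl

theorem exists_quot_int {k : Type} [Field k] [NumberField k] {N : ℕ}
    (U : Submodule k (Fin N → k)) :
    ∃ S : Matrix (Fin (N - finrank k U)) (Fin N) (𝓞 k),
      Function.Surjective (S.map (algebraMap (𝓞 k) k)).mulVec ∧
      ∀ x, (S.map (algebraMap (𝓞 k) k)).mulVec x = 0 ↔ x ∈ U := by
  classical
  have hr : finrank k ((Fin N → k) ⧸ U) = N - finrank k U := by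
    have h1 := Submodule.finrank_quotient_add_finrank U
    rw [finrank_fin_fun] at h1
    omega
  let b := finBasisOfFinrankEq k ((Fin N → k) ⧸ U) hr
  let f : (Fin N → k) →ₗ[k] (Fin (N - finrank k U) → k) :=
    (b.equivFun : ((Fin N → k) ⧸ U) →ₗ[k] _) ∘ₗ U.mkQ
  have hf : Function.Surjective f := b.equivFun.surjective.comp (Submodule.mkQ_surjective U)
  have hk : ∀ x, f x = 0 ↔ x ∈ U := by
    intro x
    change b.equivFun (U.mkQ x) = 0 ↔ x ∈ U
    rw [LinearEquiv.map_eq_zero_iff, Submodule.mkQ_apply, Submodule.Quotient.mk_eq_zero]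
  obtain ⟨D, c, hD, hc⟩ := exists_den_matrix (LinearMap.toMatrix' f)
  have hDk : (D : k) ≠ 0 := by exact_mod_cast hD
  have hS : ∀ x, (Matrix.map (Matrix.of c) (algebraMap (𝓞 k) k)).mulVec x = (D : k) • f x := by
    intro x
    funext i
    rw [Pi.smul_apply, ← LinearMap.toMatrix'_mulVec f, Matrix.mulVec, Matrix.mulVec, dotProduct,
      dotProduct, smul_eq_mul, Finset.mul_sum]
    refine Finset.sum_congr rfl fun j _ => ?_
    rw [Matrix.map_apply, Matrix.of_apply, ← mul_assoc, ← hc]
  refine ⟨Matrix.of c, ?_, fun x => ?_⟩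
  · intro y
    obtain ⟨x, hx⟩ := hf ((D : k)⁻¹ • y)
    refine ⟨x, ?_⟩
    rw [hS, hx, smul_smul, mul_inv_cancel₀ hDk, one_smul]
  · rw [hS, smul_eq_zero_iff_right hDk, hk]

end Pool.Agent.AAS
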