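import Pool.Agent.AAS.Sub
import Pool.Agent.AAS.Greedy
import Pool.Agent.AAS.IntStr
import Pool.Agent.AAS.Coord
import Pool.Agent.RefW.NormProd

/-!
# The first minimum of a system with weights
-/

set_option autoImplicit false

open NumberField Module Pool.Agent.SST

namespace Pool.Agent.AAS

private theorem abs_natCast_le {κ : Type} [Field κ] (V : AbsoluteValue κ ℝ) (n : ℕ) :
    V (n : κ) ≤ n := by
  induction n with
  | zero => simp
  | succ n ih =>
    push_cast
    refine (V.add_le _ _).trans ?_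
    rw [map_one]
    linarith

private theorem exists_ge {α : Type} (F : Finset α) (P : α → ℝ → Prop)
    (h : ∀ a ∈ F, ∃ Q₀ : ℝ, 1 ≤ Q₀ ∧ ∀ Q, Q₀ ≤ Q → P a Q) :
    ∃ Q₀ : ℝ, 1 ≤ Q₀ ∧ ∀ Q, Q₀ ≤ Q → ∀ a ∈ F, P a Q := by
  classical
  induction F using Finset.induction_on with
  | empty => exact ⟨1, le_refl _, fun Q _ a ha => absurd ha (Finset.notMem_empty a)⟩
  | insert a F _ ih =>
    obtain ⟨Q₁, h1, h2⟩ := ih fun b hb => h b (Finset.mem_insert_of_mem hb)
    obtain ⟨Q₂, h3, h4⟩ := h a (Finset.mem_insert_self _ _)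
    refine ⟨max Q₁ Q₂, h1.trans (le_max_left _ _), fun Q hQ b hb => ?_⟩
    rcases Finset.mem_insert.1 hb with rfl | hb
    · exact h4 Q ((le_max_right _ _).trans hQ)
    · exact h2 Q ((le_max_left _ _).trans hQ) b hb

/-- large powers absorb constants -/
private theorem exists_pow (K a : ℝ) (ha : 0 < a) :
    ∃ Q₀ : ℝ, 1 ≤ Q₀ ∧ ∀ Q, Q₀ ≤ Q → K < Q ^ a := by
  refine ⟨(|K| + 1) ^ (1 / a) + 1, ?_, fun Q hQ => ?_⟩
  · have := Real.rpow_nonneg (by positivity : 0 ≤ |K| + 1) (1 / a)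
    linarith
  · have h0 : 0 ≤ (|K| + 1) ^ (1 / a) := Real.rpow_nonneg (by positivity) _
    have h1 : ((|K| + 1) ^ (1 / a)) ^ a ≤ Q ^ a := Real.rpow_le_rpow h0 (by linarith) ha.le
    rw [← Real.rpow_mul (by positivity)] at h1
    have h2 : 1 / a * a = 1 := by field_simp
    rw [h2, Real.rpow_one] at h1
    have := le_abs_self K
    linarith

section

variable {k : Type} [Field k] [NumberField k] {r : ℕ} {p : Fin r → ℕ} [∀ t, Fact (p t).Prime]

/-- the factor `t` at the complex embeddings -/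
private noncomputable def tau (t : ℝ) : PlK k p → ℝ := Sum.elim (fun _ => t) (fun _ => 1)

private theorem prod_tau (t : ℝ) : ∏ l : PlK k p, tau t l = t ^ finrank ℚ k := by
  unfold tau
  rw [Fintype.prod_sum_type]
  simp only [Sum.elim_inl, Sum.elim_inr, Finset.prod_const, one_pow, mul_one]
  rw [Finset.card_univ, Embeddings.card]

private theorem prod_bound {m n : ℕ} (I : PlK k p → Fin n → Fin m) (c : PlK k p → Fin m → ℝ)
    (C t Q : ℝ) (hQ : 0 < Q) (f : PlK k p → Fin n → ℝ) (hf : ∀ l j, 0 ≤ f l j)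
    (h : ∀ l j, f l j ≤ C * tau t l * Q ^ c l (I l j)) :
    ∏ l, ∏ j, f l j ≤ (C ^ n) ^ Fintype.card (PlK k p) * (t ^ finrank ℚ k) ^ n *
      Q ^ (∑ l, ∑ j, c l (I l j)) := by
  have h1 : ∏ l, ∏ j, f l j ≤ ∏ l, ∏ j, (C * tau t l * Q ^ c l (I l j)) :=
    Finset.prod_le_prod (fun l _ => Finset.prod_nonneg fun j _ => hf l j) fun l _ =>
      Finset.prod_le_prod (fun j _ => hf l j) fun j _ => h l j
  refine h1.trans (le_of_eq ?_)
  have h2 : ∀ l : PlK k p, ∏ j, (C * tau t l * Q ^ c l (I l j)) =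
      C ^ n * (tau t l) ^ n * Q ^ (∑ j, c l (I l j)) := by
    intro l
    rw [Finset.prod_mul_distrib, Finset.prod_const, Finset.card_univ, Fintype.card_fin, mul_pow,
      ← Real.rpow_sum_of_pos hQ]
  rw [Finset.prod_congr rfl fun l _ => h2 l, Finset.prod_mul_distrib, Finset.prod_mul_distrib,
    Finset.prod_const, Finset.card_univ, Finset.prod_pow, prod_tau, ← Real.rpow_sum_of_pos hQ]

private theorem vk_prod (hp : Function.Injective p) (x : 𝓞 k) (hx : x ≠ 0) :
    1 ≤ ∏ l : PlK k p, vk l (x : k) := by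
  have h := Pool.Agent.RefW.one_le_prod_embeddings k p hp x hx
  rw [Fintype.prod_sum_type, Fintype.prod_sigma]
  exact h

/-- the statement for given number of columns -/
private def FM (k : Type) [Field k] [NumberField k] {r : ℕ} (p : Fin r → ℕ)
    [∀ t, Fact (p t).Prime] (e : ExtK k p) (s ε : ℝ) (N : ℕ) : Prop :=
  ∀ (m : ℕ) (L : PlK k p → Matrix (Fin m) (Fin N) (AlgebraicClosure k))
    (c : PlK k p → Fin m → ℝ) (C : ℝ), (∀ l, Function.Injective (L l).mulVec) →
    (∀ U : Submodule k (Fin N → k), mu L c U ≤ s * finrank k U) → 0 < C →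
    ∃ Q₀ : ℝ, 1 ≤ Q₀ ∧ ∀ Q : ℝ, Q₀ ≤ Q → ∀ t : ℝ, 0 < t → ∀ x : Fin N → 𝓞 k, x ≠ 0 →
      (∀ l i, VK e l ((L l).mulVec (up fun j => (x j : k)) i) ≤ C * tau t l * Q ^ c l i) →
      Q ^ (-s - ε) ≤ t ^ finrank ℚ k

/-- restriction to a subspace -/
private theorem fm_sub (e : ExtK k p) (s ε : ℝ) {N m : ℕ}
    (L : PlK k p → Matrix (Fin m) (Fin N) (AlgebraicClosure k)) (c : PlK k p → Fin m → ℝ) (C : ℝ)
    (hL : ∀ l, Function.Injective (L l).mulVec)
    (hs : ∀ U : Submodule k (Fin N → k), mu L c U ≤ s * finrank k U) (hC : 0 < C)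
    (U : Submodule k (Fin N → k)) (ih : FM k p e s ε (finrank k U)) :
    ∃ Q₀ : ℝ, 1 ≤ Q₀ ∧ ∀ Q : ℝ, Q₀ ≤ Q → ∀ t : ℝ, 0 < t → ∀ x : Fin N → 𝓞 k, x ≠ 0 →
      (fun j => (x j : k)) ∈ U →
      (∀ l i, VK e l ((L l).mulVec (up fun j => (x j : k)) i) ≤ C * tau t l * Q ^ c l i) →
      Q ^ (-s - ε) ≤ t ^ finrank ℚ k := by
  obtain ⟨R, D, hD, hR, hrange, hint⟩ := exists_sub_int U
  have hDpos : (0 : ℝ) < D := by exact_mod_cast Nat.pos_of_ne_zero hD
  have hmu : ∀ W : Submodule k (Fin (finrank k U) → k),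
      mu (fun l => L l * R.map (algebraMap k (AlgebraicClosure k))) c W ≤ s * finrank k W := by
    intro W
    have h1 : mu (fun l => L l * R.map (algebraMap k (AlgebraicClosure k))) c W =
        mu L c (W.map R.mulVecLin) := by
      unfold mu muL
      simp only [kap_sub _ R hR]
    have h2 : finrank k (W.map R.mulVecLin) = finrank k W :=
      (LinearEquiv.finrank_eq (Submodule.equivMapOfInjective R.mulVecLin hR W)).symm
    rw [h1, ← h2]
    exact hs _
  obtain ⟨Q₀, hQ₀, h⟩ := ih m (fun l => L l * R.map (algebraMap k (AlgebraicClosure k))) c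
    (D * C) (fun l => inj_sub (L l) (hL l) R hR) hmu (mul_pos hDpos hC)
  refine ⟨Q₀, hQ₀, fun Q hQ t ht x hx hxU hb => ?_⟩
  obtain ⟨z, hz⟩ := hint x hxU
  refine h Q hQ t ht z ?_ fun l i => ?_
  · rintro rfl
    apply hx
    funext j
    have h1 := hz j
    have h2 : (fun i => ((0 : Fin (finrank k U) → 𝓞 k) i : k)) = 0 := by
      funext i
      simp
    rw [h2, Matrix.mulVec_zero, Pi.zero_apply, mul_eq_zero] at h1
    rcases h1 with h1 | h1
    · exact absurd (Nat.cast_eq_zero.1 h1) hD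
    · exact RingOfIntegers.ext h1
  · have h1 : (R.map (algebraMap k (AlgebraicClosure k))).mulVec (up fun i => (z i : k)) =
        (D : AlgebraicClosure k) • up fun j => (x j : k) := by
      funext j
      have h2 := congrArg (algebraMap k (AlgebraicClosure k)) (hz j)
      rw [map_mul, map_natCast] at h2
      rw [Pi.smul_apply, smul_eq_mul]
      unfold up
      rw [h2]
      simp only [Matrix.mulVec, dotProduct, Matrix.map_apply, map_sum, map_mul]
    rw [← Matrix.mulVec_mulVec, h1, Matrix.mulVec_smul, Pi.smul_apply, smul_eq_mul, map_mul]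
    calc VK e l (D : AlgebraicClosure k) * VK e l ((L l).mulVec (up fun j => (x j : k)) i)
        ≤ D * (C * tau t l * Q ^ c l i) :=
          mul_le_mul (abs_natCast_le _ D) (hb l i) ((VK e l).nonneg _) hDpos.le
      _ = D * C * tau t l * Q ^ c l i := by ring

private theorem fm_all (e : ExtK k p) (hp : Function.Injective p) (s ε : ℝ) (hε : 0 < ε) (N : ℕ) :
    FM k p e s ε N := by
  classical
  induction N using Nat.strong_induction_on with
  | _ N ih =>
  intro m L c C hL hs hC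
  rcases Nat.eq_zero_or_pos N with h0 | hpos
  · subst h0
    exact ⟨1, le_refl _, fun Q _ t _ x hx _ => absurd (Subsingleton.elim x 0) hx⟩
  -- the square systems
  have hI := fun l => exists_greedy (L l) (hL l) (c l)
  choose I hIinj hIdet hIsum using hI
  set K := Fintype.card (PlK k p) with hK
  have hNR : (0 : ℝ) < N := by exact_mod_cast hpos
  -- the product
  have hprod : ∀ Q t : ℝ, 1 ≤ Q → 0 < t → t ^ finrank ℚ k < Q ^ (-s - ε) → ∀ x : Fin N → 𝓞 k,
      (∀ l i, VK e l ((L l).mulVec (up fun j => (x j : k)) i) ≤ C * tau t l * Q ^ c l i) →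
      ∏ l, ∏ j, VK e l (((L l).submatrix (I l) id).mulVec
        (fun j => algebraMap k (AlgebraicClosure k) (x j : k)) j) ≤
        (C ^ N) ^ K * Q ^ (-(N * ε)) := by
    intro Q t hQ ht hcon x hb
    have hQ0 : 0 < Q := by linarith
    have h1 := prod_bound I c C t Q hQ0 (fun l j => VK e l (((L l).submatrix (I l) id).mulVec
        (fun j => algebraMap k (AlgebraicClosure k) (x j : k)) j)) (fun l j => (VK e l).nonneg _)
        fun l j => hb l (I l j)
    refine h1.trans ?_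
    have h2 : ∑ l, ∑ j, c l (I l j) ≤ s * N := by
      have h3 := hs ⊤
      rw [finrank_top, finrank_fintype_fun_eq_card, Fintype.card_fin] at h3
      refine le_trans (le_of_eq ?_) h3
      unfold mu
      exact Finset.sum_congr rfl fun l _ => hIsum l
    have h4 : (t ^ finrank ℚ k) ^ N ≤ Q ^ ((-s - ε) * N) := by
      rw [Real.rpow_mul hQ0.le, Real.rpow_natCast]
      exact pow_le_pow_left₀ (by positivity) hcon.le N
    have h5 : Q ^ (∑ l, ∑ j, c l (I l j)) ≤ Q ^ (s * N) :=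
      Real.rpow_le_rpow_of_exponent_le hQ h2
    calc (C ^ N) ^ K * (t ^ finrank ℚ k) ^ N * Q ^ (∑ l, ∑ j, c l (I l j))
        ≤ (C ^ N) ^ K * Q ^ ((-s - ε) * N) * Q ^ (s * N) := by
          refine mul_le_mul (mul_le_mul_of_nonneg_left h4 (by positivity)) h5 (by positivity)
            (by positivity)
      _ = (C ^ N) ^ K * Q ^ (-(N * ε)) := by
          rw [mul_assoc, ← Real.rpow_add hQ0]
          congr 2
          ring
  rcases Nat.lt_or_ge 1 N with h2N | h1N
  swap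
  · -- one column
    have hN1 : N = 1 := by omega
    subst hN1
    set κ : ℝ := ∏ l : PlK k p, VK e l (((L l).submatrix (I l) id) 0 0) with hκ
    have hκ0 : 0 < κ := by
      refine Finset.prod_pos fun l _ => (VK e l).pos ?_
      have h1 := hIdet l
      rwa [Matrix.det_fin_one] at h1
    obtain ⟨Q₀, hQ₀, h⟩ := exists_pow ((C ^ 1) ^ K / κ) ε hε
    refine ⟨Q₀, hQ₀, fun Q hQ t ht x hx hb => ?_⟩
    have hQ1 : 1 ≤ Q := hQ₀.trans hQ
    have hQ0 : 0 < Q := by linarith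
    by_contra hcon
    push Not at hcon
    have h1 := hprod Q t hQ1 ht hcon x hb
    have hx0 : x 0 ≠ 0 := by
      intro h0
      apply hx
      funext j
      rw [Subsingleton.elim j 0, h0]
      rfl
    have h2 : ∏ l, ∏ j, VK e l (((L l).submatrix (I l) id).mulVec
        (fun j => algebraMap k (AlgebraicClosure k) (x j : k)) j) = κ * ∏ l : PlK k p, vk l (x 0 : k) := by
      rw [hκ, ← Finset.prod_mul_distrib]
      refine Finset.prod_congr rfl fun l _ => ?_
      rw [Fin.prod_univ_one, Matrix.mulVec, dotProduct, Fin.sum_univ_one, map_mul,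
        schlickK_VK]
    rw [h2] at h1
    have h3 := vk_prod (p := p) hp (x 0) hx0
    have h4 : κ ≤ (C ^ 1) ^ K * Q ^ (-(((1 : ℕ) : ℝ) * ε)) := le_trans (by nlinarith) h1
    have h5 := h Q hQ
    rw [div_lt_iff₀ hκ0] at h5
    have h6 : Q ^ (-(((1 : ℕ) : ℝ) * ε)) = (Q ^ ε)⁻¹ := by
      rw [Nat.cast_one, one_mul, Real.rpow_neg hQ0.le]
    rw [h6, ← div_eq_mul_inv, le_div_iff₀ (Real.rpow_pos_of_pos hQ0 _)] at h4
    linarith
  -- at least two columns
  have hco := fun l => coord_le (VK e l) (L l) (hL l)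
  choose C₁ hC₁ hC₁b using hco
  set C₂ : ℝ := ∑ l, C₁ l with hC₂
  have hC₂le : ∀ l, C₁ l ≤ C₂ := fun l =>
    Finset.single_le_sum (fun l _ => (hC₁ l).le) (Finset.mem_univ l)
  set cc : ℝ := ∑ l, ∑ i, |c l i| with hcc
  have hcle : ∀ l i, c l i ≤ cc := by
    intro l i
    refine (le_abs_self _).trans ?_
    refine (Finset.single_le_sum (f := fun i => |c l i|) (fun i _ => abs_nonneg _)
      (Finset.mem_univ i)).trans ?_
    exact Finset.single_le_sum (f := fun l => ∑ i, |c l i|)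
      (fun l _ => Finset.sum_nonneg fun i _ => abs_nonneg _) (Finset.mem_univ l)
  have hcc0 : 0 ≤ cc := Finset.sum_nonneg fun l _ => Finset.sum_nonneg fun i _ => abs_nonneg _
  set A : ℝ := |s| + cc + 1 with hA
  have hA0 : 0 < A := by positivity
  set δ : ℝ := N * ε / (2 * A) with hδ
  have hδ0 : 0 < δ := by positivity
  obtain ⟨F, hF0, hF⟩ := schlickeweiK e hp (ι := Fin N) (by rw [Fintype.card_fin]; omega)
    (fun l => (L l).submatrix (I l) id) hIdet δ hδ0
  obtain ⟨Q₁, hQ₁, h₁⟩ := exists_pow (C₂ * C) 1 one_pos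
  obtain ⟨Q₂, hQ₂, h₂⟩ := exists_pow ((C ^ N) ^ K) (N * ε / 2) (by positivity)
  obtain ⟨Q₃, hQ₃, h₃⟩ := exists_ge F (fun β Q => ∀ t : ℝ, 0 < t → ∀ x : Fin N → 𝓞 k, x ≠ 0 →
      ∑ i, β i * (x i : k) = 0 →
      (∀ l i, VK e l ((L l).mulVec (up fun j => (x j : k)) i) ≤ C * tau t l * Q ^ c l i) →
      Q ^ (-s - ε) ≤ t ^ finrank ℚ k) (by
    intro β hβ
    have hβ0 : β ≠ 0 := fun h => hF0 (h ▸ hβ)
    set U : Submodule k (Fin N → k) := LinearMap.ker (dotProductBilin k k β) with hU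
    have hUlt : finrank k U < N := by
      have h1 : U < ⊤ := by
        rw [lt_top_iff_ne_top]
        intro h2
        apply hβ0
        funext j
        have h3 : (Pi.single j 1 : Fin N → k) ∈ U := by rw [h2]; trivial
        rw [hU, LinearMap.mem_ker] at h3
        have h4 : β ⬝ᵥ (Pi.single j 1 : Fin N → k) = 0 := h3
        rwa [dotProduct_single, mul_one] at h4
      have h2 := Submodule.finrank_lt h1.ne
      rwa [finrank_fintype_fun_eq_card, Fintype.card_fin] at h2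
    obtain ⟨Q₀, hQ₀, h⟩ := fm_sub e s ε L c C hL hs hC U (ih _ hUlt)
    refine ⟨Q₀, hQ₀, fun Q hQ t ht x hx hβx hb => h Q hQ t ht x hx ?_ hb⟩
    rw [hU, LinearMap.mem_ker]
    exact hβx)
  refine ⟨max (max Q₁ Q₂) Q₃, hQ₃.trans (le_max_right _ _), fun Q hQ t ht x hx hb => ?_⟩
  have hQQ₁ : Q₁ ≤ Q := ((le_max_left _ _).trans (le_max_left _ _)).trans hQ
  have hQQ₂ : Q₂ ≤ Q := ((le_max_right _ _).trans (le_max_left _ _)).trans hQ
  have hQQ₃ : Q₃ ≤ Q := (le_max_right _ _).trans hQ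
  have hQ1 : 1 ≤ Q := hQ₁.trans hQQ₁
  have hQ0 : 0 < Q := by linarith
  by_contra hcon
  push Not at hcon
  have hd0 : finrank ℚ k ≠ 0 := finrank_pos.ne'
  -- the size of `t`
  have ht1 : t ≤ Q ^ |s| := by
    have h1 : t ^ finrank ℚ k ≤ (Q ^ |s|) ^ finrank ℚ k := by
      refine hcon.le.trans ?_
      have h2 : Q ^ (-s - ε) ≤ Q ^ |s| := by
        refine Real.rpow_le_rpow_of_exponent_le hQ1 ?_
        have := neg_abs_le s
        linarith
      exact h2.trans (le_self_pow₀ (Real.one_le_rpow hQ1 (abs_nonneg s)) hd0)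
    exact le_of_pow_le_pow_left₀ hd0 (by positivity) h1
  have hH : 1 ≤ Q ^ A := Real.one_le_rpow hQ1 hA0.le
  obtain ⟨β, hβF, hβ⟩ := hF x (Q ^ A) hH (by
    intro ρ j
    have h1 := hC₁b (Sum.inl ρ) (up fun j => (x j : k)) (C * t * Q ^ cc) (by positivity)
      (fun i => by
        refine (hb (Sum.inl ρ) i).trans ?_
        change C * t * Q ^ c (Sum.inl ρ) i ≤ _
        exact mul_le_mul_of_nonneg_left (Real.rpow_le_rpow_of_exponent_le hQ1 (hcle _ _))
          (by positivity)) j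
    have h2 : VK e (Sum.inl ρ) (up (fun j => (x j : k)) j) = ‖ρ (x j : k)‖ := by
      unfold up
      rw [schlickK_VK]
      rfl
    rw [h2] at h1
    have h3 : C₂ * C < Q ^ (1 : ℝ) := h₁ Q hQQ₁
    calc ‖ρ (x j : k)‖ ≤ C₁ (Sum.inl ρ) * (C * t * Q ^ cc) := h1
      _ ≤ C₂ * (C * Q ^ |s| * Q ^ cc) := by
          refine mul_le_mul (hC₂le _) ?_ (by positivity) ((hC₁ (Sum.inl ρ)).le.trans (hC₂le _))
          exact mul_le_mul_of_nonneg_right (mul_le_mul_of_nonneg_left ht1 hC.le) (by positivity)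
      _ = (C₂ * C) * (Q ^ |s| * Q ^ cc) := by ring
      _ ≤ Q ^ (1 : ℝ) * (Q ^ |s| * Q ^ cc) := mul_le_mul_of_nonneg_right h3.le (by positivity)
      _ = Q ^ A := by
          rw [← Real.rpow_add hQ0, ← Real.rpow_add hQ0]
          congr 1
          rw [hA]
          ring) (by
    refine (hprod Q t hQ1 ht hcon x hb).trans ?_
    have h1 : (Q ^ A) ^ (-δ) = Q ^ (-(N * ε / 2)) := by
      rw [← Real.rpow_mul hQ0.le]
      congr 1
      rw [hδ]
      field_simp
    rw [h1]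
    have h2 := h₂ Q hQQ₂
    have h3 : Q ^ (-((N : ℝ) * ε)) = Q ^ (-(N * ε / 2)) * Q ^ (-(N * ε / 2)) := by
      rw [← Real.rpow_add hQ0]
      congr 1
      ring
    rw [h3, ← mul_assoc]
    refine mul_le_of_le_one_left (Real.rpow_nonneg hQ0.le _) ?_
    rw [Real.rpow_neg hQ0.le, ← div_eq_mul_inv, div_le_one (Real.rpow_pos_of_pos hQ0 _)]
    exact h2.le)
  have h9 := h₃ Q hQQ₃ β hβF t ht x hx hβ hb
  linarith

theorem first_min (e : ExtK k p) (hp : Function.Injective p) {m N : ℕ}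
    (L : PlK k p → Matrix (Fin m) (Fin N) (AlgebraicClosure k))
    (hL : ∀ l, Function.Injective (L l).mulVec) (c : PlK k p → Fin m → ℝ)
    (hc : ∀ l, Monotone (c l)) (s : ℝ)
    (hs : ∀ U : Submodule k (Fin N → k), mu L c U ≤ s * finrank k U) (ε C : ℝ) (hε : 0 < ε)
    (hC : 0 < C) : ∃ Q₀ : ℝ, 1 ≤ Q₀ ∧ ∀ Q t : ℝ, Q₀ ≤ Q → 0 < t → ∀ x : Fin N → 𝓞 k, x ≠ 0 →
      (∀ (ρ : k →+* ℂ) i, VK e (Sum.inl ρ)
        ((L (Sum.inl ρ)).mulVec (up fun j => (x j : k)) i) ≤ C * t * Q ^ c (Sum.inl ρ) i) →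
      (∀ ρ i, VK e (Sum.inr ρ)
        ((L (Sum.inr ρ)).mulVec (up fun j => (x j : k)) i) ≤ C * Q ^ c (Sum.inr ρ) i) →
      Q ^ (-s - ε) ≤ t ^ finrank ℚ k := by
  obtain ⟨Q₀, hQ₀, h⟩ := fm_all e hp s ε hε N m L c C hL hs hC
  refine ⟨Q₀, hQ₀, fun Q t hQ ht x hx h1 h2 => h Q hQ t ht x hx ?_⟩
  rintro (ρ | ρ) i
  · exact h1 ρ i
  · have h3 := h2 ρ i
    change _ ≤ C * 1 * _
    rwa [mul_one]

end

end Pool.Agent.AAS
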