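import Pool.Agent.AAS.Defs

/-!
# The quotient of a system of linear forms

The rows of a system are corrected by multiples of earlier rows such that they vanish on a given
subspace.
-/

set_option autoImplicit false

open Module

namespace Pool.Agent.AAS

section

variable {k : Type} [Field k]

private theorem mulVec_up {M N : ℕ} (P : Matrix (Fin M) (Fin N) k) (x : Fin N → k) :
    (P.map (algebraMap k (AlgebraicClosure k))).mulVec (up x) = up (P.mulVec x) := by
  funext i
  simp only [up, Matrix.mulVec, dotProduct, Matrix.map_apply, map_sum, map_mul]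

private theorem mulVec_mem {M N : ℕ} (P : Matrix (Fin M) (Fin N) k)
    (W : Submodule k (Fin M → k)) (h : ∀ x, P.mulVec x ∈ W) (z : Fin N → AlgebraicClosure k) :
    (P.map (algebraMap k (AlgebraicClosure k))).mulVec z ∈
      Submodule.span (AlgebraicClosure k) (up '' (W : Set (Fin M → k))) := by
  have h1 : z = ∑ j, z j • up (Pi.single j (1 : k)) := by
    funext i
    rw [Finset.sum_apply, Finset.sum_eq_single i]
    · simp [up]
    · intro j _ hj
      simp [up, Pi.single_eq_of_ne (Ne.symm hj)]
    · intro h2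
      exact absurd (Finset.mem_univ _) h2
  rw [h1, ← Matrix.mulVecLin_apply, map_sum]
  refine Submodule.sum_mem _ fun j _ => ?_
  rw [map_smul, Matrix.mulVecLin_apply, mulVec_up]
  exact Submodule.smul_mem _ _ (Submodule.subset_span ⟨_, h _, rfl⟩)

/-- the span of the inverse image -/
private theorem mem_comap {M N : ℕ} {S : Matrix (Fin M) (Fin N) k} {T : Matrix (Fin N) (Fin M) k}
    (hST : S * T = 1) (W : Submodule k (Fin M → k)) (z : Fin N → AlgebraicClosure k) :
    z ∈ Submodule.span (AlgebraicClosure k) (up '' ((W.comap S.mulVecLin : Submodule k _) :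
      Set (Fin N → k))) ↔ (S.map (algebraMap k (AlgebraicClosure k))).mulVec z ∈
      Submodule.span (AlgebraicClosure k) (up '' (W : Set (Fin M → k))) := by
  constructor
  · intro hz
    have h1 := Submodule.mem_map_of_mem
      (f := (S.map (algebraMap k (AlgebraicClosure k))).mulVecLin) hz
    rw [Submodule.map_span] at h1
    refine Submodule.span_mono ?_ h1
    rintro _ ⟨_, ⟨x, hx, rfl⟩, rfl⟩
    exact ⟨S.mulVec x, hx, (mulVec_up S x).symm⟩
  · intro hz
    have h1 : z = (T.map (algebraMap k (AlgebraicClosure k))).mulVec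
        ((S.map (algebraMap k (AlgebraicClosure k))).mulVec z) +
        ((1 - T * S).map (algebraMap k (AlgebraicClosure k))).mulVec z := by
      rw [Matrix.map_sub _ (map_sub _), Matrix.map_one _ (map_zero _) (map_one _),
        Matrix.map_mul, Matrix.sub_mulVec, Matrix.one_mulVec, Matrix.mulVec_mulVec]
      abel
    rw [h1]
    refine add_mem ?_ ?_
    · have h2 := Submodule.mem_map_of_mem
        (f := (T.map (algebraMap k (AlgebraicClosure k))).mulVecLin) hz
      rw [Submodule.map_span] at h2
      refine Submodule.span_mono ?_ h2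
      rintro _ ⟨_, ⟨x, hx, rfl⟩, rfl⟩
      refine ⟨T.mulVec x, ?_, (mulVec_up T x).symm⟩
      show S.mulVec (T.mulVec x) ∈ W
      rw [Matrix.mulVec_mulVec, hST, Matrix.one_mulVec]
      exact hx
    · refine mulVec_mem _ _ (fun x => ?_) z
      show S.mulVec ((1 - T * S).mulVec x) ∈ W
      rw [Matrix.mulVec_mulVec, Matrix.mul_sub, ← Matrix.mul_assoc, hST, Matrix.one_mul,
        Matrix.mul_one, sub_self, Matrix.zero_mulVec]
      exact zero_mem _

end

/-- the rows corrected by earlier rows -/
private theorem exists_row {K : Type} [Field K] {m N : ℕ} (L : Matrix (Fin m) (Fin N) K)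
    (U : Submodule K (Fin N → K)) (i : Fin m)
    (h : ∀ u ∈ U, (∀ j : Fin m, j < i → L.mulVec u j = 0) → L.mulVec u i = 0) :
    ∃ a : Fin m → K, (∀ j, i ≤ j → a j = 0) ∧
      ∀ u ∈ U, L.mulVec u i = ∑ j, a j * L.mulVec u j := by
  classical
  let F : {j : Fin m // j < i} → U →ₗ[K] K := fun j =>
    (LinearMap.proj j.1 ∘ₗ L.mulVecLin) ∘ₗ U.subtype
  let G : U →ₗ[K] K := (LinearMap.proj i ∘ₗ L.mulVecLin) ∘ₗ U.subtype
  have h1 : G ∈ Submodule.span K (Set.range F) := by
    apply mem_span_of_iInf_ker_le_ker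
    intro u hu
    rw [LinearMap.mem_ker]
    refine h u.1 u.2 fun j hj => ?_
    have h2 := (Submodule.mem_iInf _).1 hu ⟨j, hj⟩
    exact LinearMap.mem_ker.1 h2
  obtain ⟨a, ha⟩ := (Submodule.mem_span_range_iff_exists_fun K).1 h1
  refine ⟨fun j => if hj : j < i then a ⟨j, hj⟩ else 0, fun j hj => dif_neg (not_lt.2 hj),
    fun u hu => ?_⟩
  have h2 := LinearMap.congr_fun ha ⟨u, hu⟩
  have h3 : G ⟨u, hu⟩ = L.mulVec u i := rfl
  rw [← h3, ← h2, LinearMap.sum_apply]
  have h4 : ∀ j, (if hj : j < i then a ⟨j, hj⟩ else 0) * L.mulVec u j =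
      if hj : j < i then a ⟨j, hj⟩ * L.mulVec u j else 0 := by
    intro j
    split_ifs
    · rfl
    · rw [zero_mul]
  simp only [h4]
  rw [← Finset.sum_filter_add_sum_filter_not Finset.univ (fun j => j < i)]
  have h5 : ∑ j with ¬ j < i, (if hj : j < i then a ⟨j, hj⟩ * L.mulVec u j else 0) = 0 :=
    Finset.sum_eq_zero fun j hj => dif_neg (Finset.mem_filter.1 hj).2
  rw [h5, add_zero, Finset.sum_subtype (p := fun j => j < i) _ (by simp)]
  refine Finset.sum_congr rfl fun j _ => ?_
  rw [dif_pos j.2]
  rfl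

/-- the key claim -/
private theorem exists_corr {K : Type} [Field K] {m N : ℕ} (L : Matrix (Fin m) (Fin N) K)
    (U : Submodule K (Fin N → K)) : ∃ A : Matrix (Fin m) (Fin m) K,
      (∀ i j, i < j → A i j = 0) ∧ (∀ u ∈ U, (A * L).mulVec u = 0) ∧
      ∀ (s : ℕ) (x : Fin N → K), (∀ i : Fin m, (i : ℕ) < s → (A * L).mulVec x i = 0) →
        ∃ u ∈ U, ∀ i : Fin m, (i : ℕ) < s → L.mulVec (x - u) i = 0 := by
  classical
  have key : ∀ i : Fin m, ∃ r : Fin m → K, (∀ j, i < j → r j = 0) ∧
      (∀ u ∈ U, ∑ j, r j * L.mulVec u j = 0) ∧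
      ((∃ v ∈ U, (∀ j : Fin m, j < i → L.mulVec v j = 0) ∧ L.mulVec v i ≠ 0) ∨
        ∀ x, (∀ j : Fin m, j < i → L.mulVec x j = 0) →
          ∑ j, r j * L.mulVec x j = L.mulVec x i) := by
    intro i
    by_cases hi : ∃ v ∈ U, (∀ j : Fin m, j < i → L.mulVec v j = 0) ∧ L.mulVec v i ≠ 0
    · exact ⟨fun _ => 0, fun _ _ => rfl, fun u _ => by simp, Or.inl hi⟩
    · have h1 : ∀ u ∈ U, (∀ j : Fin m, j < i → L.mulVec u j = 0) → L.mulVec u i = 0 := by
        intro u hu h2
        by_contra h3
        exact hi ⟨u, hu, h2, h3⟩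
      obtain ⟨a, ha1, ha2⟩ := exists_row L U i h1
      have h2 : ∀ x, ∑ j, ((if j = i then 1 else 0) - a j) * L.mulVec x j =
          L.mulVec x i - ∑ j, a j * L.mulVec x j := by
        intro x
        simp only [sub_mul, Finset.sum_sub_distrib, ite_mul, one_mul, zero_mul,
          Finset.sum_ite_eq', Finset.mem_univ, if_true]
      refine ⟨fun j => (if j = i then 1 else 0) - a j, fun j hj => ?_, fun u hu => ?_,
        Or.inr fun x hx => ?_⟩
      · simp only
        rw [if_neg hj.ne', ha1 j hj.le, sub_zero]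
      · rw [h2, ← ha2 u hu, sub_self]
      · rw [h2, Finset.sum_eq_zero fun j _ => ?_, sub_zero]
        rcases lt_or_ge j i with hj | hj
        · rw [hx j hj, mul_zero]
        · rw [ha1 j hj, zero_mul]
  choose A hA1 hA2 hA3 using key
  have hmul : ∀ x i, (Matrix.of A * L).mulVec x i = ∑ j, A i j * L.mulVec x j := by
    intro x i
    rw [← Matrix.mulVec_mulVec]
    rfl
  refine ⟨Matrix.of A, fun i j hij => hA1 i j hij, fun u hu => ?_, fun s => ?_⟩
  · funext i
    rw [hmul]
    exact hA2 i u hu
  · induction s with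
    | zero =>
      intro x _
      exact ⟨0, zero_mem _, fun i hi => absurd hi (Nat.not_lt_zero _)⟩
    | succ s ih =>
      intro x hx
      obtain ⟨u, hu, hu1⟩ := ih x fun i hi => hx i (Nat.lt_succ_of_lt hi)
      by_cases hs : s < m
      · let i : Fin m := ⟨s, hs⟩
        have hlt : ∀ j : Fin m, j < i ↔ (j : ℕ) < s := fun j => Iff.rfl
        have hle : ∀ j : Fin m, (j : ℕ) < s + 1 → (j : ℕ) < s ∨ j = i := by
          intro j hj
          rcases Nat.lt_succ_iff_lt_or_eq.1 hj with h1 | h1
          · exact Or.inl h1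
          · exact Or.inr (Fin.ext h1)
        rcases hA3 i with ⟨v, hv, hv1, hv2⟩ | h1
        · refine ⟨u + (L.mulVec (x - u) i / L.mulVec v i) • v,
            add_mem hu (Submodule.smul_mem _ _ hv), fun j hj => ?_⟩
          rw [← sub_sub, Matrix.mulVec_sub, Matrix.mulVec_smul, Pi.sub_apply, Pi.smul_apply,
            smul_eq_mul]
          rcases hle j hj with h2 | h2
          · rw [hu1 j h2, hv1 j ((hlt j).2 h2), mul_zero, sub_zero]
          · rw [h2, div_mul_cancel₀ _ hv2, sub_self]
        · refine ⟨u, hu, fun j hj => ?_⟩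
          rcases hle j hj with h2 | h2
          · exact hu1 j h2
          · rw [h2, ← h1 (x - u) fun j hj => hu1 j ((hlt j).1 hj), ← hmul, Matrix.mulVec_sub,
              Pi.sub_apply, hx i (Nat.lt_succ_self s), hmul, hA2 i u hu, sub_zero]
      · refine ⟨u, hu, fun j hj => hu1 j ?_⟩
        have := j.2
        omega

theorem exists_quot {k : Type} [Field k] {m N M : ℕ}
    (L : Matrix (Fin m) (Fin N) (AlgebraicClosure k)) (hL : Function.Injective L.mulVec)
    (U : Submodule k (Fin N → k)) (S : Matrix (Fin M) (Fin N) k)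
    (hS : Function.Surjective S.mulVec) (hker : ∀ x, S.mulVec x = 0 ↔ x ∈ U) :
    ∃ (Lq : Matrix (Fin m) (Fin M) (AlgebraicClosure k))
      (A : Matrix (Fin m) (Fin m) (AlgebraicClosure k)),
      Function.Injective Lq.mulVec ∧ (∀ i j, i < j → A i j = 0) ∧
      Lq * S.map (algebraMap k (AlgebraicClosure k)) = A * L ∧
      ∀ (W : Submodule k (Fin M → k)) (s : ℕ),
        kap L (W.comap S.mulVecLin) s = kap L U s + kap Lq W s := by
  classical
  obtain ⟨T, hST⟩ := Matrix.mulVec_surjective_iff_exists_right_inverse.1 hS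
  have hU : ((⊥ : Submodule k (Fin M → k)).comap S.mulVecLin) = U := by
    ext x
    rw [Submodule.mem_comap, Submodule.mem_bot]
    exact hker x
  have hbot : Submodule.span (AlgebraicClosure k)
      (up '' ((⊥ : Submodule k (Fin M → k)) : Set (Fin M → k))) = ⊥ := by
    rw [Submodule.span_eq_bot]
    rintro _ ⟨x, hx, rfl⟩
    rw [SetLike.mem_coe, Submodule.mem_bot] at hx
    subst hx
    funext j
    simp [up]
  -- the kernel over the algebraic closure
  have hker' : ∀ z, (S.map (algebraMap k (AlgebraicClosure k))).mulVec z = 0 ↔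
      z ∈ Submodule.span (AlgebraicClosure k) (up '' (U : Set (Fin N → k))) := by
    intro z
    have h1 := mem_comap hST ⊥ z
    rw [hU, hbot, Submodule.mem_bot] at h1
    exact h1.symm
  have hST' : S.map (algebraMap k (AlgebraicClosure k)) *
      T.map (algebraMap k (AlgebraicClosure k)) = 1 := by
    rw [← Matrix.map_mul, hST, Matrix.map_one _ (map_zero _) (map_one _)]
  have hSurj : ∀ y : Fin M → AlgebraicClosure k, ∃ x,
      (S.map (algebraMap k (AlgebraicClosure k))).mulVec x = y := fun y =>
    ⟨(T.map (algebraMap k (AlgebraicClosure k))).mulVec y, by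
      rw [Matrix.mulVec_mulVec, hST', Matrix.one_mulVec]⟩
  obtain ⟨A, hA1, hA2, hA3⟩ := exists_corr L
    (Submodule.span (AlgebraicClosure k) (up '' (U : Set (Fin N → k))))
  have hLq : A * L * T.map (algebraMap k (AlgebraicClosure k)) *
      S.map (algebraMap k (AlgebraicClosure k)) = A * L := by
    have h1 : ∀ z, (A * L * T.map (algebraMap k (AlgebraicClosure k)) *
        S.map (algebraMap k (AlgebraicClosure k))).mulVec z = (A * L).mulVec z := by
      intro z
      have h2 : z - (T.map (algebraMap k (AlgebraicClosure k))).mulVec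
          ((S.map (algebraMap k (AlgebraicClosure k))).mulVec z) ∈
          Submodule.span (AlgebraicClosure k) (up '' (U : Set (Fin N → k))) := by
        rw [← hker', Matrix.mulVec_sub, Matrix.mulVec_mulVec, hST', Matrix.one_mulVec, sub_self]
      have h3 := hA2 _ h2
      rw [Matrix.mulVec_sub, sub_eq_zero] at h3
      rw [← Matrix.mulVec_mulVec, ← Matrix.mulVec_mulVec]
      exact h3.symm
    exact Matrix.mulVec_injective (funext h1)
  have hLq' : ∀ z, (A * L * T.map (algebraMap k (AlgebraicClosure k))).mulVec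
      ((S.map (algebraMap k (AlgebraicClosure k))).mulVec z) = (A * L).mulVec z := by
    intro z
    rw [Matrix.mulVec_mulVec, hLq]
  refine ⟨A * L * T.map (algebraMap k (AlgebraicClosure k)), A, ?_, hA1, hLq, fun W s => ?_⟩
  · intro y₁ y₂ h12
    obtain ⟨x, hx⟩ := hSurj (y₁ - y₂)
    have h1 : (A * L).mulVec x = 0 := by
      rw [← hLq' x, hx, Matrix.mulVec_sub, sub_eq_zero]
      exact h12
    obtain ⟨u, hu, hu1⟩ := hA3 m x fun i _ => congrFun h1 i
    have h2 : x - u = 0 := by
      apply hL
      rw [Matrix.mulVec_zero]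
      funext i
      exact hu1 i i.2
    rw [sub_eq_zero] at h2
    rw [← sub_eq_zero, ← hx, hker', h2]
    exact hu
  · let φ := (S.map (algebraMap k (AlgebraicClosure k))).mulVecLin
    let E := kerS L (W.comap S.mulVecLin) s
    have hE : ∀ z, z ∈ E ↔ φ z ∈ Submodule.span (AlgebraicClosure k)
        (up '' (W : Set (Fin M → k))) ∧ ∀ i : Fin m, (i : ℕ) < s → L.mulVec z i = 0 := by
      intro z
      show (_ ∧ _) ↔ _
      rw [mem_comap hST W z]
      rfl
    have h1 := LinearMap.finrank_range_add_finrank_ker (φ.domRestrict E)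
    have h2 : LinearMap.range (φ.domRestrict E) =
        kerS (A * L * T.map (algebraMap k (AlgebraicClosure k))) W s := by
      ext y
      constructor
      · rintro ⟨⟨z, hz⟩, rfl⟩
        obtain ⟨hz1, hz2⟩ := (hE z).1 hz
        refine ⟨hz1, fun i hi => ?_⟩
        have h3 := congrFun (hLq' z) i
        refine h3.trans ?_
        rw [← Matrix.mulVec_mulVec]
        show ∑ j, A i j * L.mulVec z j = 0
        refine Finset.sum_eq_zero fun j _ => ?_
        rcases lt_or_ge i j with hj | hj
        · rw [hA1 i j hj, zero_mul]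
        · rw [hz2 j (lt_of_le_of_lt hj hi), mul_zero]
      · rintro ⟨hy1, hy2⟩
        obtain ⟨x, hx⟩ := hSurj y
        obtain ⟨u, hu, hu1⟩ := hA3 s x fun i hi => by
          rw [← hLq', hx]
          exact hy2 i hi
        have h3 : φ (x - u) = y := by
          rw [map_sub]
          have h4 : φ u = 0 := (hker' u).2 hu
          rw [h4, sub_zero]
          exact hx
        refine ⟨⟨x - u, (hE _).2 ⟨?_, hu1⟩⟩, h3⟩
        rw [h3]
        exact hy1
    have h3 : kerS L U s ≤ E := by
      rintro z ⟨hz1, hz2⟩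
      refine (hE z).2 ⟨?_, hz2⟩
      have h4 : φ z = 0 := (hker' z).2 hz1
      rw [h4]
      exact zero_mem _
    have h4 : LinearMap.ker (φ.domRestrict E) = (kerS L U s).comap E.subtype := by
      ext ⟨z, hz⟩
      rw [LinearMap.mem_ker, Submodule.mem_comap]
      constructor
      · intro h5
        exact ⟨(hker' z).1 h5, ((hE z).1 hz).2⟩
      · intro h5
        exact (hker' z).2 h5.1
    have h5 := LinearEquiv.finrank_eq (Submodule.comapSubtypeEquivOfLe h3)
    rw [h2, h4, h5] at h1
    unfold kap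
    rw [add_comm]
    exact h1.symm

end Pool.Agent.AAS
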