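import Pool.Agent.AAS.Basic
import Pool.Agent.AAS.Quot
import Pool.Agent.AAS.FirstMin

/-!
# The box lies in the largest subspace of maximal weight
-/

set_option autoImplicit false

open NumberField Module Pool.Agent.SST

namespace Pool.Agent.AAS

variable {k : Type} [Field k] [NumberField k] {r : ℕ} {p : Fin r → ℕ} [∀ t, Fact (p t).Prime]

private theorem muL_comap {k : Type} [Field k] {m N M : ℕ}
    {L : Matrix (Fin m) (Fin N) (AlgebraicClosure k)}
    {Lq : Matrix (Fin m) (Fin M) (AlgebraicClosure k)}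
    {U V : Submodule k (Fin N → k)} {W : Submodule k (Fin M → k)}
    (h : ∀ s, kap L V s = kap L U s + kap Lq W s) (c : Fin m → ℝ) :
    muL L c V = muL L c U + muL Lq c W := by
  unfold muL
  rw [← Finset.sum_add_distrib]
  refine Finset.sum_congr rfl fun i _ => ?_
  rw [h, h]
  push_cast
  ring

/-- a bound for lower triangular matrices -/
private theorem lower_le {κ : Type} [Field κ] (V : AbsoluteValue κ ℝ) {m : ℕ}
    (A : Matrix (Fin m) (Fin m) κ) (hA : ∀ i j, i < j → A i j = 0) :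
    ∃ C : ℝ, 0 < C ∧ ∀ (z : Fin m → κ) (b : ℝ) (i : Fin m), 0 ≤ b → (∀ j ≤ i, V (z j) ≤ b) →
      V (A.mulVec z i) ≤ C * b := by
  obtain ⟨C, hC, h⟩ := mulVec_le V A
  refine ⟨C, hC, fun z b i hb hz => ?_⟩
  have h1 : A.mulVec z i = A.mulVec (fun j => if j ≤ i then z j else 0) i := by
    show ∑ j, A i j * z j = ∑ j, A i j * (if j ≤ i then z j else 0)
    refine Finset.sum_congr rfl fun j _ => ?_
    by_cases hj : j ≤ i
    · rw [if_pos hj]
    · rw [hA i j (not_le.1 hj), zero_mul, zero_mul]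
  rw [h1]
  refine h _ b hb (fun j => ?_) i
  split_ifs with hj
  · exact hz j hj
  · rw [map_zero]
    exact hb

theorem cell_sub (e : ExtK k p) (hp : Function.Injective p) {m N : ℕ}
    (L : PlK k p → Matrix (Fin m) (Fin N) (AlgebraicClosure k))
    (hL : ∀ l, Function.Injective (L l).mulVec) (c : PlK k p → Fin m → ℝ)
    (hc : ∀ l, Monotone (c l)) (C : ℝ) (hC : 0 < C) (U : Submodule k (Fin N → k))
    (hU : ∀ W, U < W → mu L c W < mu L c U) :
    ∃ Q₀ : ℝ, 1 ≤ Q₀ ∧ ∀ Q : ℝ, Q₀ ≤ Q → ∀ x ∈ Box e L c Q C, (fun j => (x j : k)) ∈ U := by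
  obtain ⟨S, hS1, hS2⟩ := exists_quot_int U
  obtain ⟨M, hM⟩ : ∃ M, N - finrank k U = M := ⟨_, rfl⟩
  revert S
  rw [hM]
  intro S hS1 hS2
  obtain ⟨S', hS'⟩ : ∃ S' : Matrix (Fin M) (Fin N) k, S' = S.map (algebraMap (𝓞 k) k) := ⟨_, rfl⟩
  rw [← hS'] at hS1 hS2
  have h1 := fun l => exists_quot (L l) (hL l) U S' hS1 hS2
  choose Lq A hLq hA hAL hkap using h1
  have hmu : ∀ W : Submodule k (Fin M → k),
      mu L c (W.comap S'.mulVecLin) = mu L c U + mu Lq c W := by
    intro W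
    unfold mu
    rw [← Finset.sum_add_distrib]
    exact Finset.sum_congr rfl fun l _ => muL_comap (hkap l W) (c l)
  have hneg : ∀ W : Submodule k (Fin M → k), W ≠ ⊥ → mu Lq c W < 0 := by
    intro W hW
    have h2 : U < W.comap S'.mulVecLin := by
      rw [SetLike.lt_iff_le_and_exists]
      constructor
      · intro x hx
        rw [Submodule.mem_comap, Matrix.mulVecLin_apply, (hS2 x).2 hx]
        exact W.zero_mem
      · obtain ⟨w, hw, hw0⟩ := W.exists_mem_ne_zero_of_ne_bot hW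
        obtain ⟨x, hx⟩ := hS1 w
        refine ⟨x, ?_, fun hxU => hw0 ?_⟩
        · rw [Submodule.mem_comap, Matrix.mulVecLin_apply, hx]
          exact hw
        · rw [← hx, (hS2 x).2 hxU]
    have h3 := hU _ h2
    rw [hmu] at h3
    linarith
  -- a uniform bound
  obtain ⟨δ, hδ, hδ'⟩ : ∃ δ : ℝ, 0 < δ ∧ ∀ W : Submodule k (Fin M → k), W ≠ ⊥ →
      mu Lq c W ≤ -δ := by
    have hfin := (mu_finite Lq c).inter_of_left (Set.Iio 0)
    rcases (Set.range (mu Lq c) ∩ Set.Iio 0).eq_empty_or_nonempty with h0 | h0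
    · refine ⟨1, one_pos, fun W hW => ?_⟩
      have h2 : mu Lq c W ∈ Set.range (mu Lq c) ∩ Set.Iio 0 := ⟨⟨W, rfl⟩, hneg W hW⟩
      rw [h0] at h2
      exact absurd h2 (Set.notMem_empty _)
    · obtain ⟨a, ha, ha'⟩ := hfin.exists_maximal h0
      refine ⟨-a, neg_pos.2 ha.2, fun W hW => ?_⟩
      rw [neg_neg]
      by_contra hlt
      have h2 : mu Lq c W ∈ Set.range (mu Lq c) ∩ Set.Iio 0 := ⟨⟨W, rfl⟩, hneg W hW⟩
      exact hlt (ha' h2 (not_le.1 hlt).le)
  obtain ⟨s, hs0⟩ : ∃ s : ℝ, s = -δ / ((M : ℝ) + 1) := ⟨_, rfl⟩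
  have hM1 : (0 : ℝ) < (M : ℝ) + 1 := by positivity
  have hsneg : s < 0 := by
    rw [hs0]
    exact div_neg_of_neg_of_pos (neg_neg_of_pos hδ) hM1
  have hs : ∀ W : Submodule k (Fin M → k), mu Lq c W ≤ s * finrank k W := by
    intro W
    by_cases hW : W = ⊥
    · rw [hW, mu_bot, finrank_bot]
      simp
    · refine (hδ' W hW).trans ?_
      have h2 : (finrank k W : ℝ) ≤ (M : ℝ) + 1 := by
        have h3 := Submodule.finrank_le W
        rw [finrank_fin_fun] at h3
        have h4 : (finrank k W : ℝ) ≤ M := by exact_mod_cast h3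
        linarith
      have h3 : s * ((M : ℝ) + 1) = -δ := by
        rw [hs0]
        field_simp
      nlinarith
  -- the constant
  have h2 := fun l => lower_le (VK e l) (A l) (hA l)
  choose CA hCA hCA' using h2
  obtain ⟨C₁, hC₁⟩ : ∃ C₁ : ℝ, C₁ = 1 + ∑ l, CA l := ⟨_, rfl⟩
  have hC₁pos : 0 < C₁ := by
    rw [hC₁]
    have : 0 ≤ ∑ l, CA l := Finset.sum_nonneg fun l _ => (hCA l).le
    linarith
  have hCAle : ∀ l, CA l ≤ C₁ := by
    intro l
    rw [hC₁]
    have : CA l ≤ ∑ l, CA l := Finset.single_le_sum (fun l _ => (hCA l).le) (Finset.mem_univ l)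
    linarith
  obtain ⟨Q₀, hQ₀, hfm⟩ := first_min e hp Lq hLq c hc s hs (-s / 2) (C₁ * C) (by linarith)
    (mul_pos hC₁pos hC)
  refine ⟨Q₀ + 1, by linarith, fun Q hQ x hx => ?_⟩
  have hQ1 : 1 < Q := by linarith
  have hup : ∀ l i, (Lq l).mulVec (up fun j => ((S.mulVec x j : 𝓞 k) : k)) i =
      (A l).mulVec ((L l).mulVec (up fun j => (x j : k))) i := by
    intro l i
    have e1 : (up fun j => ((S.mulVec x j : 𝓞 k) : k)) =
        (S'.map (algebraMap k (AlgebraicClosure k))).mulVec (up fun j => (x j : k)) := by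
      funext j
      unfold up
      rw [hS']
      simp only [Matrix.mulVec, dotProduct, Matrix.map_apply, map_sum, map_mul]
    rw [e1, Matrix.mulVec_mulVec, Matrix.mulVec_mulVec, hAL]
  have hbd : ∀ l i, VK e l ((Lq l).mulVec (up fun j => ((S.mulVec x j : 𝓞 k) : k)) i) ≤
      C₁ * C * Q ^ c l i := by
    intro l i
    rw [hup, mul_assoc]
    have hQc : 0 ≤ C * Q ^ c l i := by positivity
    refine (hCA' l _ (C * Q ^ c l i) i hQc fun j hj => ?_).trans
      (mul_le_mul_of_nonneg_right (hCAle l) hQc)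
    refine (hx l j).trans ?_
    exact mul_le_mul_of_nonneg_left (Real.rpow_le_rpow_of_exponent_le hQ1.le (hc l hj)) hC.le
  have hy : S.mulVec x = 0 := by
    by_contra hy
    have h3 := hfm Q 1 (by linarith) one_pos (S.mulVec x) hy
      (fun ρ i => by rw [mul_one]; exact hbd (Sum.inl ρ) i) (fun ρ i => hbd (Sum.inr ρ) i)
    rw [one_pow] at h3
    have h4 : (1 : ℝ) < Q ^ (-s - -s / 2) := Real.one_lt_rpow hQ1 (by linarith)
    linarith
  rw [← hS2]
  funext i
  have h3 := congrArg (algebraMap (𝓞 k) k) (congrFun hy i)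
  rw [hS']
  simp only [Matrix.mulVec, dotProduct, Matrix.map_apply, Pi.zero_apply] at h3 ⊢
  rw [map_sum] at h3
  simp only [map_mul, map_zero] at h3
  exact h3

end Pool.Agent.AAS
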