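import Pool.Agent.AAS.Defs
import Mathlib.LinearAlgebra.Vandermonde

/-!
# Evaluations of binary forms at given points
-/

set_option autoImplicit false
set_option linter.unusedSectionVars false

open NumberField Module Pool.Agent.SST Pool.Agent.RefW Polynomial

namespace Pool.Agent.AAS

theorem det_evM {k : Type} [Field k] {n R : ℕ} (a b : Fin R → AlgebraicClosure k)
    (hab : ∀ i j, i ≠ j → a i * b j ≠ a j * b i) (J : Fin (n + 1) → Fin R)
    (hJ : Function.Injective J) : (evM a b J).det ≠ 0 := by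
  have h1 : evM a b J = Matrix.projVandermonde (fun i => a (J i)) (fun i => b (J i)) := by
    ext i j
    rw [Matrix.projVandermonde_apply]
    unfold evM
    congr 2
    rw [Fin.val_rev]
    omega
  rw [h1, Matrix.det_projVandermonde]
  refine Finset.prod_ne_zero_iff.2 fun i _ => Finset.prod_ne_zero_iff.2 fun j hj => ?_
  have hij : J j ≠ J i := fun h => (Finset.mem_Ioi.1 hj).ne (hJ h).symm
  rw [sub_ne_zero]
  exact hab _ _ hij

theorem evM_mulVec {k : Type} [Field k] {n R : ℕ} (a b : Fin R → AlgebraicClosure k)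
    (J : Fin (n + 1) → Fin R) (F : Fin (n + 1) → 𝓞 k) (i : Fin (n + 1)) :
    (evM a b J).mulVec (up fun j => (F j : k)) i = val (a (J i)) (b (J i)) F := rfl

section

variable {k : Type} [Field k] [NumberField k] {r : ℕ} {p : Fin r → ℕ} [∀ t, Fact (p t).Prime]

private lemma le_nfl (l : PlK k p) {n : ℕ} (F : Fin (n + 1) → 𝓞 k) (i : Fin (n + 1)) :
    vk l (F i : k) ≤ nfl l F :=
  Finset.le_sup' (fun i => vk l (F i : k)) (Finset.mem_univ i)

private lemma nfl_nonneg (l : PlK k p) {n : ℕ} (F : Fin (n + 1) → 𝓞 k) : 0 ≤ nfl l F :=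
  ((vk l).nonneg _).trans (le_nfl l F 0)

theorem val_le (e : ExtK k p) {n R : ℕ} (a b : Fin R → AlgebraicClosure k) :
    ∃ C : ℝ, 0 < C ∧ ∀ (l : PlK k p) (F : Fin (n + 1) → 𝓞 k) (j : Fin R),
      VK e l (val (a j) (b j) F) ≤ C * nfl l F := by
  refine ⟨1 + ∑ l : PlK k p, ∑ j : Fin R, ∑ i : Fin (n + 1),
    VK e l (a j ^ (i : ℕ) * b j ^ (n - (i : ℕ))), ?_, ?_⟩
  · have h : 0 ≤ ∑ l : PlK k p, ∑ j : Fin R, ∑ i : Fin (n + 1),
        VK e l (a j ^ (i : ℕ) * b j ^ (n - (i : ℕ))) :=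
      Finset.sum_nonneg fun l _ => Finset.sum_nonneg fun j _ => Finset.sum_nonneg fun i _ =>
        (VK e l).nonneg _
    linarith
  · intro l F j
    have h1 : VK e l (val (a j) (b j) F) ≤
        ∑ i : Fin (n + 1), VK e l (a j ^ (i : ℕ) * b j ^ (n - (i : ℕ))) * nfl l F := by
      unfold val
      refine ((VK e l).sum_le _ _).trans (Finset.sum_le_sum fun i _ => ?_)
      rw [map_mul, schlickK_VK]
      exact mul_le_mul_of_nonneg_left (le_nfl l F i) ((VK e l).nonneg _)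
    rw [← Finset.sum_mul] at h1
    refine h1.trans (mul_le_mul_of_nonneg_right ?_ (nfl_nonneg l F))
    have h2 : ∑ i : Fin (n + 1), VK e l (a j ^ (i : ℕ) * b j ^ (n - (i : ℕ))) ≤
        ∑ j : Fin R, ∑ i : Fin (n + 1), VK e l (a j ^ (i : ℕ) * b j ^ (n - (i : ℕ))) :=
      Finset.single_le_sum (f := fun j => ∑ i : Fin (n + 1),
        VK e l (a j ^ (i : ℕ) * b j ^ (n - (i : ℕ))))
        (fun j _ => Finset.sum_nonneg fun i _ => (VK e l).nonneg _) (Finset.mem_univ j)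
    have h3 : ∑ j : Fin R, ∑ i : Fin (n + 1), VK e l (a j ^ (i : ℕ) * b j ^ (n - (i : ℕ))) ≤
        ∑ l : PlK k p, ∑ j : Fin R, ∑ i : Fin (n + 1),
          VK e l (a j ^ (i : ℕ) * b j ^ (n - (i : ℕ))) :=
      Finset.single_le_sum (f := fun l : PlK k p => ∑ j : Fin R, ∑ i : Fin (n + 1),
        VK e l (a j ^ (i : ℕ) * b j ^ (n - (i : ℕ))))
        (fun l _ => Finset.sum_nonneg fun j _ => Finset.sum_nonneg fun i _ =>
          (VK e l).nonneg _) (Finset.mem_univ l)
    linarith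

theorem nfl_le (e : ExtK k p) {n R : ℕ} (a b : Fin R → AlgebraicClosure k)
    (hab : ∀ i j, i ≠ j → a i * b j ≠ a j * b i) :
    ∃ C : ℝ, 0 < C ∧ ∀ (l : PlK k p) (J : Fin (n + 1) → Fin R), Function.Injective J →
      ∀ F : Fin (n + 1) → 𝓞 k, ∃ i, nfl l F ≤ C * VK e l (val (a (J i)) (b (J i)) F) := by
  set S : PlK k p → (Fin (n + 1) → Fin R) → Fin (n + 1) → ℝ := fun l J j =>
    ∑ i : Fin (n + 1), VK e l ((evM a b J)⁻¹ j i) with hS
  have hS0 : ∀ l J j, 0 ≤ S l J j := fun l J j => Finset.sum_nonneg fun i _ => (VK e l).nonneg _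
  have hSle : ∀ l J j, S l J j ≤ ∑ l, ∑ J, ∑ j, S l J j := by
    intro l J j
    have h1 : S l J j ≤ ∑ j, S l J j :=
      Finset.single_le_sum (f := fun j => S l J j) (fun j _ => hS0 l J j) (Finset.mem_univ j)
    have h2 : ∑ j, S l J j ≤ ∑ J, ∑ j, S l J j :=
      Finset.single_le_sum (f := fun J => ∑ j, S l J j)
        (fun J _ => Finset.sum_nonneg fun j _ => hS0 l J j) (Finset.mem_univ J)
    have h3 : ∑ J, ∑ j, S l J j ≤ ∑ l, ∑ J, ∑ j, S l J j :=
      Finset.single_le_sum (f := fun l => ∑ J, ∑ j, S l J j)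
        (fun l _ => Finset.sum_nonneg fun J _ => Finset.sum_nonneg fun j _ => hS0 l J j)
        (Finset.mem_univ l)
    exact h1.trans (h2.trans h3)
  have hT0 : 0 ≤ ∑ l, ∑ J, ∑ j, S l J j :=
    Finset.sum_nonneg fun l _ => Finset.sum_nonneg fun J _ => Finset.sum_nonneg fun j _ =>
      hS0 l J j
  refine ⟨1 + ∑ l, ∑ J, ∑ j, S l J j, by linarith, ?_⟩
  intro l J hJ F
  obtain ⟨i₀, hi₀⟩ := Finite.exists_max fun i => VK e l (val (a (J i)) (b (J i)) F)
  refine ⟨i₀, ?_⟩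
  have hdet : IsUnit (evM a b J).det := isUnit_iff_ne_zero.2 (det_evM a b hab J hJ)
  unfold nfl
  refine Finset.sup'_le _ _ fun j _ => ?_
  have h1 : up (fun j => (F j : k)) j =
      ∑ i, (evM a b J)⁻¹ j i * val (a (J i)) (b (J i)) F := by
    have h2 : (evM a b J)⁻¹.mulVec ((evM a b J).mulVec (up fun j => (F j : k))) =
        up fun j => (F j : k) := by
      rw [Matrix.mulVec_mulVec, Matrix.nonsing_inv_mul _ hdet, Matrix.one_mulVec]
    rw [← h2]
    rfl
  have h3 : vk l (F j : k) = VK e l (up (fun j => (F j : k)) j) := (schlickK_VK e l _).symm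
  rw [h3, h1]
  have h4 : VK e l (∑ i, (evM a b J)⁻¹ j i * val (a (J i)) (b (J i)) F) ≤
      ∑ i, VK e l ((evM a b J)⁻¹ j i) * VK e l (val (a (J i₀)) (b (J i₀)) F) := by
    refine ((VK e l).sum_le _ _).trans (Finset.sum_le_sum fun i _ => ?_)
    rw [map_mul]
    exact mul_le_mul_of_nonneg_left (hi₀ i) ((VK e l).nonneg _)
  rw [← Finset.sum_mul] at h4
  refine h4.trans (mul_le_mul_of_nonneg_right ?_ ((VK e l).nonneg _))
  have h5 := hSle l J j
  have h6 : S l J j = ∑ i, VK e l ((evM a b J)⁻¹ j i) := rfl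
  linarith

end

end Pool.Agent.AAS
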