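import Pool.Agent.AAS.Basic
import Pool.Agent.AAS.Vand

/-!
# Rank counting for the evaluation matrices
-/

set_option autoImplicit false

open NumberField Module Pool.Agent.SST

namespace Pool.Agent.AAS

/-- Abel summation -/
private theorem combi_abel (n : ℕ) (g E : ℕ → ℝ) (hg : ∀ i j, i ≤ j → j ≤ n → g j ≤ g i)
    (hE : ∀ s, s ≤ n + 1 → 0 ≤ E s) (h0 : E 0 = 0) (m : ℕ) (hm : m ≤ n) :
    g m * E (m + 1) ≤ ∑ i ∈ Finset.range (m + 1), g i * (E (i + 1) - E i) := by
  induction m with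
  | zero => simp [h0]
  | succ m ih =>
    rw [Finset.sum_range_succ]
    have h1 := ih (by omega)
    have h2 : g (m + 1) * E (m + 1) ≤ g m * E (m + 1) :=
      mul_le_mul_of_nonneg_right (hg m (m + 1) (by omega) hm) (hE (m + 1) (by omega))
    linarith

private theorem combi_fin (n : ℕ) (γ : Fin (n + 1) → ℝ) (hγ : Antitone γ)
    (hlast : γ (Fin.last n) = 0) (κ : ℕ → ℝ) (θ : ℝ)
    (hκ : ∀ s : ℕ, 1 ≤ s → s ≤ n + 1 → θ * s ≤ κ 0 - κ s) :
    θ * ∑ i, γ i ≤ ∑ i : Fin (n + 1), γ i * (κ i - κ (i + 1)) := by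
  obtain ⟨g, hg⟩ : ∃ g : ℕ → ℝ, ∀ i : Fin (n + 1), g i = γ i :=
    ⟨fun i => if h : i < n + 1 then γ ⟨i, h⟩ else 0, fun i => dif_pos i.2⟩
  have hanti : ∀ i j, i ≤ j → j ≤ n → g j ≤ g i := by
    intro i j hij hj
    have h1 := hg ⟨i, by omega⟩
    have h2 := hg ⟨j, by omega⟩
    simp only at h1 h2
    rw [h1, h2]
    exact hγ (by exact hij)
  have hn0 : 0 ≤ g n := by
    have h1 := hg (Fin.last n)
    rw [hlast, Fin.val_last] at h1
    rw [h1]
  have h1 := combi_abel n g (fun s => κ 0 - κ s - θ * s) hanti (by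
    intro s hs
    rcases Nat.eq_zero_or_pos s with rfl | h
    · simp
    · have := hκ s h hs
      linarith) (by simp) n le_rfl
  have h2 : 0 ≤ g n * (κ 0 - κ (n + 1) - θ * ((n + 1 : ℕ) : ℝ)) := by
    refine mul_nonneg hn0 ?_
    have := hκ (n + 1) (by omega) le_rfl
    linarith
  have h3 := h2.trans h1
  rw [← Fin.sum_univ_eq_sum_range (fun i => g i * ((κ 0 - κ (i + 1) - θ * ((i + 1 : ℕ) : ℝ)) -
    (κ 0 - κ i - θ * i)))] at h3
  rw [Finset.mul_sum, ← sub_nonneg, ← Finset.sum_sub_distrib]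
  refine h3.trans_eq (Finset.sum_congr rfl fun i _ => ?_)
  rw [hg i]
  push_cast
  ring

section

variable {k : Type} [Field k] [NumberField k] {r : ℕ} {p : Fin r → ℕ} [∀ t, Fact (p t).Prime]

omit [NumberField k] in
private theorem combi_kap_le {m N : ℕ} (L : Matrix (Fin m) (Fin N) (AlgebraicClosure k))
    (hL : Function.Injective L.mulVec) (U : Submodule k (Fin N → k)) (j : ℕ) (hj : j ≤ m) :
    kap L U (m - j) ≤ j := by
  induction j with
  | zero => rw [Nat.sub_zero, kap_last L hL U]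
  | succ j ih =>
    have h1 := kap_succ L U (m - (j + 1))
    have h2 : m - (j + 1) + 1 = m - j := by omega
    rw [h2] at h1
    have h3 := ih (by omega)
    omega

omit [NumberField k] in
private theorem combi_kap_one {m N : ℕ} (L : Matrix (Fin (m + 1)) (Fin N) (AlgebraicClosure k))
    (U : Submodule k (Fin N → k)) (h : ∃ x ∈ U, L.mulVec (up x) 0 ≠ 0) :
    kap L U 1 + 1 ≤ kap L U 0 := by
  obtain ⟨x, hx, hx0⟩ := h
  refine Nat.succ_le_of_lt ?_
  refine Submodule.finrank_lt_finrank_of_lt ?_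
  refine lt_of_le_of_ne ?_ ?_
  · intro z hz
    exact ⟨hz.1, fun i hi => absurd hi (Nat.not_lt_zero _)⟩
  · intro h
    have h1 : up x ∈ kerS L U 0 :=
      ⟨Submodule.subset_span ⟨x, hx, rfl⟩, fun i hi => absurd hi (Nat.not_lt_zero _)⟩
    rw [← h] at h1
    exact hx0 (h1.2 0 Nat.one_pos)

omit [NumberField k] in
private theorem combi_muL {n R : ℕ} (a b : Fin R → AlgebraicClosure k)
    (hab : ∀ i j, i ≠ j → a i * b j ≠ a j * b i) (J : Fin (n + 1) → Fin R)
    (hJ : Function.Injective J) (γ : Fin (n + 1) → ℝ) (hγ : Antitone γ)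
    (hlast : γ (Fin.last n) = 0) (w : ℝ) (U : Submodule k (Fin (n + 1) → k))
    (hU : ∀ j, ∃ x ∈ U, ∑ i : Fin (n + 1), a j ^ (i : ℕ) * b j ^ (n - (i : ℕ)) * up x i ≠ 0) :
    muL (evM a b J) (fun i => w - γ i) U ≤
      w * finrank k U - (∑ i, γ i) / ((n : ℝ) + 2 - finrank k U) := by
  have hinj : Function.Injective (evM a b J).mulVec := by
    rw [Matrix.mulVec_injective_iff_isUnit, Matrix.isUnit_iff_isUnit_det, isUnit_iff_ne_zero]
    exact det_evM a b hab J hJ
  obtain ⟨L, hLdef⟩ : ∃ L, L = evM a b J := ⟨_, rfl⟩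
  have hrow : ∃ x ∈ U, L.mulVec (up x) 0 ≠ 0 := by
    obtain ⟨x, hx, h⟩ := hU (J 0)
    refine ⟨x, hx, ?_⟩
    rw [hLdef]
    exact h
  rw [← hLdef] at hinj ⊢
  have hk0 := kap_zero L U
  have hkl := kap_last L hinj U
  have hk1 := combi_kap_one L U hrow
  have hd1 : 1 ≤ finrank k U := by omega
  have hdn : finrank k U ≤ n + 1 := by
    have := combi_kap_le L hinj U (n + 1) le_rfl
    rw [Nat.sub_self, hk0] at this
    exact this
  have hT : (0 : ℝ) < (n : ℝ) + 2 - finrank k U := by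
    have : ((finrank k U : ℕ) : ℝ) ≤ n + 1 := by exact_mod_cast hdn
    linarith
  have key := combi_fin n γ hγ hlast (fun s => (kap L U s : ℝ)) (1 / ((n : ℝ) + 2 - finrank k U)) (by
    intro s hs1 hsn
    rw [div_mul_eq_mul_div, one_mul, div_le_iff₀ hT, hk0]
    have h1 : kap L U s ≤ kap L U 1 := kap_anti L U hs1
    have h2 : kap L U s ≤ n + 1 - s := by
      have := combi_kap_le L hinj U (n + 1 - s) (by omega)
      rwa [show n + 1 - (n + 1 - s) = s by omega] at this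
    obtain ⟨u, hu⟩ : ∃ u : ℕ, finrank k U = kap L U s + 1 + u := ⟨finrank k U - (kap L U s + 1), by omega⟩
    obtain ⟨t, ht⟩ : ∃ t : ℕ, n + 1 = finrank k U + t := ⟨n + 1 - finrank k U, by omega⟩
    have h3 : s ≤ t + 1 + u := by omega
    have h4 : (n : ℝ) + 2 - finrank k U = t + 1 := by
      have : (n : ℝ) + 1 = finrank k U + t := by exact_mod_cast ht
      linarith
    have h5 : ((finrank k U : ℕ) : ℝ) - kap L U s = 1 + u := by
      rw [hu]
      push_cast
      ring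
    rw [h4, h5]
    have h6 : (s : ℝ) ≤ t + 1 + u := by exact_mod_cast h3
    have h7 : (0 : ℝ) ≤ u * t := by positivity
    linarith)
  have hsum : ∑ i : Fin (n + 1), w * ((kap L U i : ℝ) - kap L U (i + 1)) = w * finrank k U := by
    rw [← Finset.mul_sum, Fin.sum_univ_eq_sum_range (fun i => (kap L U i : ℝ) - kap L U (i + 1)),
      Finset.sum_range_sub', hk0, hkl]
    simp
  unfold muL
  have hsplit : ∑ i : Fin (n + 1), (w - γ i) * ((kap L U i : ℝ) - kap L U (i + 1)) =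
      ∑ i : Fin (n + 1), w * ((kap L U i : ℝ) - kap L U (i + 1)) -
        ∑ i : Fin (n + 1), γ i * ((kap L U i : ℝ) - kap L U (i + 1)) := by
    rw [← Finset.sum_sub_distrib]
    exact Finset.sum_congr rfl fun i _ => by ring
  rw [hsplit, hsum]
  have h8 : (∑ i, γ i) / ((n : ℝ) + 2 - finrank k U) =
      1 / ((n : ℝ) + 2 - finrank k U) * ∑ i, γ i := by ring
  rw [h8]
  linarith

theorem mu_le_top {n R : ℕ} (a b : Fin R → AlgebraicClosure k)
    (hab : ∀ i j, i ≠ j → a i * b j ≠ a j * b i) (J : PlK k p → Fin (n + 1) → Fin R)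
    (hJ : ∀ l, Function.Injective (J l)) (γ : PlK k p → Fin (n + 1) → ℝ)
    (hγ : ∀ l, Antitone (γ l)) (hlast : ∀ l, γ l (Fin.last n) = 0) (w : PlK k p → ℝ)
    (hw : ∑ l, w l = 1) (U : Submodule k (Fin (n + 1) → k))
    (hU : ∀ j, ∃ x ∈ U, ∑ i : Fin (n + 1), a j ^ (i : ℕ) * b j ^ (n - (i : ℕ)) * up x i ≠ 0) :
    mu (fun l => evM a b (J l)) (fun l i => w l - γ l i) U ≤
      finrank k U - (∑ l, ∑ i, γ l i) / ((n : ℝ) + 2 - finrank k U) := by
  unfold mu
  refine (Finset.sum_le_sum fun l _ =>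
    combi_muL a b hab (J l) (hJ l) (γ l) (hγ l) (hlast l) (w l) U hU).trans_eq ?_
  rw [Finset.sum_sub_distrib, ← Finset.sum_mul, hw, one_mul, Finset.sum_div]

theorem rank_bound (n s : ℕ) (hn : 2 ≤ n) (hs : 1 ≤ s) (hsn : s ≤ n + 1) (β η Γ : ℝ) (hβ : 0 ≤ β)
    (hβ4 : β ≤ 4) (hη : 0 ≤ η) (hΓ : 2 + β - η ≤ Γ) :
    (s : ℝ) - Γ / ((n : ℝ) + 2 - s) ≤ n - 1 - β / 2 + η := by
  obtain ⟨T, hT⟩ : ∃ T : ℕ, n + 2 = s + T := ⟨n + 2 - s, by omega⟩
  have hT1 : 1 ≤ T := by omega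
  have h1 : (n : ℝ) + 2 = s + T := by exact_mod_cast hT
  have h2 : (n : ℝ) + 2 - s = T := by linarith
  have h3 : (1 : ℝ) ≤ T := by exact_mod_cast hT1
  have hT0 : (0 : ℝ) < T := by linarith
  have h4 : (2 + β - η) / (T : ℝ) ≤ Γ / T := div_le_div_of_nonneg_right hΓ hT0.le
  have h5 : 3 + β / 2 - η ≤ T + (2 + β - η) / T := by
    rw [← sub_nonneg]
    have h6 : (T : ℝ) + (2 + β - η) / T - (3 + β / 2 - η) =
        (((T : ℝ) - 2) * (T - 1 - β / 2) + η * (T - 1)) / T := by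
      field_simp
      ring
    rw [h6]
    refine div_nonneg ?_ hT0.le
    have h7 : 0 ≤ η * ((T : ℝ) - 1) := mul_nonneg hη (by linarith)
    have h8 : 0 ≤ ((T : ℝ) - 2) * (T - 1 - β / 2) := by
      rcases Nat.lt_or_ge T 3 with h | h
      · have : T = 1 ∨ T = 2 := by omega
        rcases this with rfl | rfl
        · norm_num
          linarith
        · norm_num
      · have h9 : (3 : ℝ) ≤ T := by exact_mod_cast h
        exact mul_nonneg (by linarith) (by linarith)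
    linarith
  rw [h2]
  linarith

end

end Pool.Agent.AAS
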