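import Pool.Agent.AAS.Defs
import Mathlib.MeasureTheory.Covering.BesicovitchVectorSpace

/-!
# Packing: the number of integral points of a box
-/

set_option autoImplicit false

open NumberField Module Pool.Agent.SST MeasureTheory Metric
open scoped ENNReal

namespace Pool.Agent.AAS

/-- separated points in the unit ball -/
private theorem pack_sep {E : Type} [NormedAddCommGroup E] [NormedSpace ℝ E]
    [FiniteDimensional ℝ E] {t : ℝ} (ht : 0 < t) (ht1 : t ≤ 1) (s : Finset E)
    (hs : ∀ c ∈ s, ‖c‖ ≤ 1) (h : ∀ c ∈ s, ∀ d ∈ s, c ≠ d → t ≤ ‖c - d‖) :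
    (s.card : ℝ) ≤ (4 / t) ^ finrank ℝ E := by
  borelize E
  let μ : Measure E := Measure.addHaar
  have hδ : 0 < t / 2 := by linarith
  have hρ : 0 < 1 + t / 2 := by linarith
  set A := ⋃ c ∈ s, ball (c : E) (t / 2) with hA
  have D : Set.Pairwise (s : Set E) (Function.onFun Disjoint fun c => ball (c : E) (t / 2)) := by
    rintro c hc d hd hcd
    apply ball_disjoint_ball
    rw [dist_eq_norm]
    have h1 := h c hc d hd hcd
    linarith
  have A_subset : A ⊆ ball (0 : E) (1 + t / 2) := by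
    refine Set.iUnion₂_subset fun x hx => ?_
    apply ball_subset_ball'
    rw [dist_zero_right]
    have h1 := hs x hx
    linarith
  have I : (s.card : ℝ≥0∞) * ENNReal.ofReal ((t / 2) ^ finrank ℝ E) * μ (ball 0 1) ≤
      ENNReal.ofReal ((1 + t / 2) ^ finrank ℝ E) * μ (ball 0 1) :=
    calc
      (s.card : ℝ≥0∞) * ENNReal.ofReal ((t / 2) ^ finrank ℝ E) * μ (ball 0 1) = μ A := by
        rw [hA, measure_biUnion_finset D fun c _ => measurableSet_ball]
        simp only [μ.addHaar_ball_of_pos _ hδ]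
        simp only [Finset.sum_const, nsmul_eq_mul, mul_assoc]
      _ ≤ μ (ball (0 : E) (1 + t / 2)) := measure_mono A_subset
      _ = ENNReal.ofReal ((1 + t / 2) ^ finrank ℝ E) * μ (ball 0 1) := by
        simp only [μ.addHaar_ball_of_pos _ hρ]
  have J : (s.card : ℝ≥0∞) * ENNReal.ofReal ((t / 2) ^ finrank ℝ E) ≤
      ENNReal.ofReal ((1 + t / 2) ^ finrank ℝ E) :=
    (ENNReal.mul_le_mul_iff_left (measure_ball_pos _ _ zero_lt_one).ne' measure_ball_lt_top.ne).1 I
  have K : (s.card : ℝ) * (t / 2) ^ finrank ℝ E ≤ (1 + t / 2) ^ finrank ℝ E := by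
    have h1 := ENNReal.toReal_le_of_le_ofReal (pow_nonneg hρ.le _) J
    rwa [ENNReal.toReal_mul, ENNReal.toReal_natCast,
      ENNReal.toReal_ofReal (pow_nonneg hδ.le _)] at h1
  have hpos : 0 < (t / 2) ^ finrank ℝ E := pow_pos hδ _
  rw [← le_div_iff₀ hpos, ← div_pow] at K
  refine K.trans (pow_le_pow_left₀ (div_nonneg hρ.le hδ.le) ?_ _)
  rw [div_le_div_iff₀ hδ ht]
  nlinarith

/-- the normalized complex coordinates -/
private noncomputable def packPhi {k : Type} [Field k] {r : ℕ} {p : Fin r → ℕ}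
    [∀ t, Fact (p t).Prime] (e : ExtK k p) {m N : ℕ}
    (L : PlK k p → Matrix (Fin m) (Fin N) (AlgebraicClosure k)) (w : (k →+* ℂ) × Fin m → ℝ) :
    (Fin N → 𝓞 k) →+ ((k →+* ℂ) × Fin m → ℂ) where
  toFun x q := e.E q.1 ((L (Sum.inl q.1)).mulVec (up fun j => (x j : k)) q.2) / (w q : ℂ)
  map_zero' := by
    funext q
    have h1 : (up fun j => (((0 : Fin N → 𝓞 k) j : 𝓞 k) : k)) = (0 : Fin N → AlgebraicClosure k) := by
      funext j
      simp [up]
    rw [h1, Matrix.mulVec_zero, Pi.zero_apply, map_zero, zero_div]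
    rfl
  map_add' x y := by
    funext q
    have h1 : (up fun j => (((x + y) j : 𝓞 k) : k)) =
        (up fun j => (x j : k)) + up fun j => (y j : k) := by
      funext j
      simp [up]
    rw [h1, Matrix.mulVec_add, Pi.add_apply, map_add, add_div]
    rfl

theorem pack_box {k : Type} [Field k] [NumberField k] {r : ℕ} {p : Fin r → ℕ}
    [∀ t, Fact (p t).Prime] (e : ExtK k p) {m N : ℕ}
    (L : PlK k p → Matrix (Fin m) (Fin N) (AlgebraicClosure k))
    (hL : ∀ l, Function.Injective (L l).mulVec) (c : PlK k p → Fin m → ℝ) (Q C t : ℝ)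
    (hQ : 0 < Q) (hC : 0 < C) (ht : 0 < t) (ht1 : t ≤ 1)
    (h : ∀ x : Fin N → 𝓞 k, x ≠ 0 →
      (∀ (ρ : k →+* ℂ) i, VK e (Sum.inl ρ)
        ((L (Sum.inl ρ)).mulVec (up fun j => (x j : k)) i) ≤ t * (C * Q ^ c (Sum.inl ρ) i)) →
      (∀ ρ i, VK e (Sum.inr ρ)
        ((L (Sum.inr ρ)).mulVec (up fun j => (x j : k)) i) ≤ C * Q ^ c (Sum.inr ρ) i) → False) :
    (Box e L c Q C).Finite ∧ ((Box e L c Q C).ncard : ℝ) ≤ (4 / t) ^ (finrank ℚ k * N) := by
  classical
  set w : (k →+* ℂ) × Fin m → ℝ := fun q => C * Q ^ c (Sum.inl q.1) q.2 with hw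
  have hw0 : ∀ q, 0 < w q := fun q => mul_pos hC (Real.rpow_pos_of_pos hQ _)
  set Φ := packPhi e L w with hΦ
  have hΦn : ∀ x q, ‖Φ x q‖ = VK e (Sum.inl q.1)
      ((L (Sum.inl q.1)).mulVec (up fun j => (x j : k)) q.2) / w q := by
    intro x q
    change ‖e.E q.1 _ / (w q : ℂ)‖ = ‖e.E q.1 _‖ / w q
    rw [norm_div, Complex.norm_real, Real.norm_of_nonneg (hw0 q).le]
  -- the real span
  set W : Submodule ℝ ((k →+* ℂ) × Fin m → ℂ) := Submodule.span ℝ (Set.range Φ) with hW
  have hrank : finrank ℝ W ≤ finrank ℚ k * N := by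
    let b := Module.Free.chooseBasis ℤ (Fin N → 𝓞 k)
    have h1 : W = Submodule.span ℝ (Set.range (Φ ∘ b)) := by
      apply le_antisymm
      · rw [hW, Submodule.span_le]
        rintro _ ⟨x, rfl⟩
        have h2 : Φ x = ∑ i, (b.repr x i) • Φ (b i) := by
          conv_lhs => rw [← b.sum_repr x]
          rw [map_sum]
          exact Finset.sum_congr rfl fun i _ => map_zsmul Φ _ _
        rw [h2]
        refine Submodule.sum_mem _ fun i _ => ?_
        have h3 : (b.repr x i) • Φ (b i) = ((b.repr x i : ℤ) : ℝ) • Φ (b i) := by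
          rw [Int.cast_smul_eq_zsmul]
        rw [h3]
        exact Submodule.smul_mem _ _ (Submodule.subset_span ⟨i, rfl⟩)
      · rw [Submodule.span_le]
        rintro _ ⟨i, rfl⟩
        exact Submodule.subset_span ⟨b i, rfl⟩
    have h2 : finrank ℤ (Fin N → 𝓞 k) = finrank ℚ k * N := by
      rw [Module.finrank_pi_fintype, Finset.sum_const, Finset.card_univ, Fintype.card_fin,
        smul_eq_mul, RingOfIntegers.rank, mul_comm]
    rw [h1, ← h2, Module.finrank_eq_card_basis b]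
    exact finrank_range_le_card _
  -- separation
  have hsep : ∀ x ∈ Box e L c Q C, ∀ y ∈ Box e L c Q C, x ≠ y → t ≤ ‖Φ x - Φ y‖ := by
    intro x hx y hy hxy
    by_contra hcon
    have hsub : ∀ l : PlK k p, ∀ i, (L l).mulVec (up fun j => (((x - y) j : 𝓞 k) : k)) i =
        (L l).mulVec (up fun j => (x j : k)) i - (L l).mulVec (up fun j => (y j : k)) i := by
      intro l i
      have h1 : (up fun j => (((x - y) j : 𝓞 k) : k)) =
          (up fun j => (x j : k)) - up fun j => (y j : k) := by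
        funext j
        simp [up]
      rw [h1, Matrix.mulVec_sub, Pi.sub_apply]
    refine h (x - y) (sub_ne_zero.2 hxy) (fun ρ i => ?_) fun ρ i => ?_
    · have h1 : ‖Φ (x - y) (ρ, i)‖ ≤ ‖Φ (x - y)‖ := norm_le_pi_norm _ _
      rw [hΦn, map_sub] at h1
      have h2 := h1.trans (not_le.1 hcon).le
      rwa [div_le_iff₀ (hw0 _)] at h2
    · rw [hsub]
      have h1 := hx (Sum.inr ρ) i
      have h2 := hy (Sum.inr ρ) i
      change ‖e.E' ρ.1 ρ.2 _‖ ≤ _ at h1
      change ‖e.E' ρ.1 ρ.2 _‖ ≤ _ at h2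
      change ‖e.E' ρ.1 ρ.2 _‖ ≤ _
      rw [map_sub]
      rw [sub_eq_add_neg]
      refine (IsUltrametricDist.norm_add_le_max _ _).trans (max_le h1 ?_)
      rw [norm_neg]
      exact h2
  have hnorm : ∀ x ∈ Box e L c Q C, ‖Φ x‖ ≤ 1 := by
    intro x hx
    rw [pi_norm_le_iff_of_nonneg zero_le_one]
    intro q
    rw [hΦn, div_le_one (hw0 q)]
    exact hx (Sum.inl q.1) q.2
  -- finite subsets
  have key : ∀ F : Finset (Fin N → 𝓞 k), (F : Set (Fin N → 𝓞 k)) ⊆ Box e L c Q C →
      (F.card : ℝ) ≤ (4 / t) ^ (finrank ℚ k * N) := by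
    intro F hF
    let ψ : (Fin N → 𝓞 k) → W := fun x => ⟨Φ x, Submodule.subset_span ⟨x, rfl⟩⟩
    have hψ : Set.InjOn ψ F := by
      intro x hx y hy hxy
      by_contra hne
      have h1 := hsep x (hF hx) y (hF hy) hne
      have h2 : Φ x = Φ y := congrArg Subtype.val hxy
      rw [h2, sub_self, norm_zero] at h1
      linarith
    have h1 := pack_sep ht ht1 (F.image ψ) (by
      intro z hz
      obtain ⟨x, hx, rfl⟩ := Finset.mem_image.1 hz
      exact hnorm x (hF hx)) (by
      intro z hz z' hz' hne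
      obtain ⟨x, hx, rfl⟩ := Finset.mem_image.1 hz
      obtain ⟨y, hy, rfl⟩ := Finset.mem_image.1 hz'
      exact hsep x (hF hx) y (hF hy) fun h => hne (by rw [h]))
    rw [Finset.card_image_of_injOn hψ] at h1
    refine h1.trans (pow_le_pow_right₀ ?_ hrank)
    rw [le_div_iff₀ ht]
    linarith
  have hfin : (Box e L c Q C).Finite := by
    by_contra hinf
    obtain ⟨n, hn⟩ := exists_nat_gt ((4 / t) ^ (finrank ℚ k * N) : ℝ)
    obtain ⟨F, hF1, hF2⟩ := Set.Infinite.exists_subset_card_eq hinf n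
    have h1 := key F hF1
    rw [hF2] at h1
    linarith
  refine ⟨hfin, ?_⟩
  rw [Set.ncard_eq_toFinset_card _ hfin]
  exact key _ (by rw [Set.Finite.coe_toFinset])

end Pool.Agent.AAS
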