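import Pool.Agent.AAS.Defs

/-!
# Restriction of a system to a subspace
-/

set_option autoImplicit false

open NumberField Module Pool.Agent.SST

namespace Pool.Agent.AAS

private theorem inj_map {k : Type} [Field k] {N M : ℕ} (R : Matrix (Fin N) (Fin M) k)
    (hR : Function.Injective R.mulVec) :
    Function.Injective (R.map (algebraMap k (AlgebraicClosure k))).mulVec := by
  have hker : LinearMap.ker R.mulVecLin = ⊥ := by
    rw [LinearMap.ker_eq_bot]
    intro x y h
    exact hR (by simpa using h)
  obtain ⟨g, hg⟩ := R.mulVecLin.exists_leftInverse_of_injective hker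
  have h1 : LinearMap.toMatrix' g * R = 1 := by
    have h2 := congrArg LinearMap.toMatrix' hg
    rw [LinearMap.toMatrix'_comp, ← Matrix.toLin'_apply', LinearMap.toMatrix'_toLin', LinearMap.toMatrix'_id] at h2
    exact h2
  have h3 : (LinearMap.toMatrix' g).map (algebraMap k (AlgebraicClosure k)) *
      R.map (algebraMap k (AlgebraicClosure k)) = 1 := by
    rw [← Matrix.map_mul, h1]
    simp
  intro x y h
  have h4 := congrArg ((LinearMap.toMatrix' g).map
    (algebraMap k (AlgebraicClosure k))).mulVec h
  rw [Matrix.mulVec_mulVec, Matrix.mulVec_mulVec, h3, Matrix.one_mulVec, Matrix.one_mulVec] at h4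
  exact h4

private theorem mulVec_up {k : Type} [Field k] {N M : ℕ} (R : Matrix (Fin N) (Fin M) k)
    (w : Fin M → k) :
    (R.map (algebraMap k (AlgebraicClosure k))).mulVec (up w) = up (R.mulVec w) := by
  funext i
  have := RingHom.map_mulVec (algebraMap k (AlgebraicClosure k)) R w i
  rw [up, this]
  rfl

theorem kap_sub {k : Type} [Field k] {m N M : ℕ}
    (L : Matrix (Fin m) (Fin N) (AlgebraicClosure k)) (R : Matrix (Fin N) (Fin M) k)
    (hR : Function.Injective R.mulVec) (W : Submodule k (Fin M → k)) (s : ℕ) :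
    kap (L * R.map (algebraMap k (AlgebraicClosure k))) W s =
      kap L (W.map R.mulVecLin) s := by
  have hspan : (Submodule.span (AlgebraicClosure k) (up '' (W : Set (Fin M → k)))).map
      (R.map (algebraMap k (AlgebraicClosure k))).mulVecLin =
      Submodule.span (AlgebraicClosure k)
        (up '' ((W.map R.mulVecLin : Submodule k (Fin N → k)) : Set (Fin N → k))) := by
    rw [Submodule.map_span]
    congr 1
    ext z
    constructor
    · rintro ⟨_, ⟨w, hw, rfl⟩, rfl⟩
      refine ⟨R.mulVec w, ⟨w, hw, rfl⟩, ?_⟩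
      rw [Matrix.mulVecLin_apply, mulVec_up]
    · rintro ⟨_, ⟨w, hw, rfl⟩, rfl⟩
      refine ⟨up w, ⟨w, hw, rfl⟩, ?_⟩
      rw [Matrix.mulVecLin_apply, mulVec_up, Matrix.mulVecLin_apply]
  have hk : kerS L (W.map R.mulVecLin) s =
      (kerS (L * R.map (algebraMap k (AlgebraicClosure k))) W s).map
        (R.map (algebraMap k (AlgebraicClosure k))).mulVecLin := by
    ext z
    constructor
    · rintro ⟨hz1, hz2⟩
      rw [← hspan] at hz1
      obtain ⟨y, hy, rfl⟩ := hz1
      refine ⟨y, ⟨hy, fun i hi => ?_⟩, rfl⟩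
      rw [← Matrix.mulVec_mulVec]
      exact hz2 i hi
    · rintro ⟨y, ⟨hy1, hy2⟩, rfl⟩
      refine ⟨?_, fun i hi => ?_⟩
      · rw [← hspan]
        exact ⟨y, hy1, rfl⟩
      · have := hy2 i hi
        rw [← Matrix.mulVec_mulVec] at this
        exact this
  rw [kap, kap, hk]
  refine LinearEquiv.finrank_eq (Submodule.equivMapOfInjective _ ?_ _)
  intro x y h
  exact inj_map R hR (by simpa using h)

theorem inj_sub {k : Type} [Field k] {m N M : ℕ}
    (L : Matrix (Fin m) (Fin N) (AlgebraicClosure k)) (hL : Function.Injective L.mulVec)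
    (R : Matrix (Fin N) (Fin M) k) (hR : Function.Injective R.mulVec) :
    Function.Injective (L * R.map (algebraMap k (AlgebraicClosure k))).mulVec := by
  intro x y h
  rw [← Matrix.mulVec_mulVec, ← Matrix.mulVec_mulVec] at h
  exact inj_map R hR (hL h)

end Pool.Agent.AAS
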