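import Pool.Agent.AAS.Basic
import Pool.Agent.AAS.Sub
import Pool.Agent.AAS.Quot
import Pool.Agent.AAS.IntStr
import Pool.Agent.AAS.Coord
import Pool.Agent.AAS.FirstMin
import Pool.Agent.AAS.Pack

/-!
# The number of points of a box
-/

set_option autoImplicit false

open NumberField Module Pool.Agent.SST

namespace Pool.Agent.AAS

section

variable {k : Type} [Field k]

private lemma cb_up_sub {N : ℕ} (x y : Fin N → k) : up (x - y) = up x - up y := by
  funext j
  simp only [up, Pi.sub_apply, map_sub]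

private lemma cb_up_smul {N : ℕ} (a : k) (x : Fin N → k) :
    up (a • x) = algebraMap k (AlgebraicClosure k) a • up x := by
  funext j
  simp only [up, Pi.smul_apply, smul_eq_mul, map_mul]

private lemma cb_up_mulVec {N M : ℕ} (S : Matrix (Fin M) (Fin N) k) (x : Fin N → k) :
    up (S.mulVec x) = (S.map (algebraMap k (AlgebraicClosure k))).mulVec (up x) := by
  funext j
  exact RingHom.map_mulVec (algebraMap k (AlgebraicClosure k)) S x j

private lemma cb_coe_mulVec {N M : ℕ} (S : Matrix (Fin M) (Fin N) (𝓞 k)) (x : Fin N → 𝓞 k) :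
    (fun i => ((S.mulVec x i : 𝓞 k) : k)) =
      (S.map (algebraMap (𝓞 k) k)).mulVec (fun j => (x j : k)) := by
  funext j
  exact RingHom.map_mulVec (algebraMap (𝓞 k) k) S x j

end

section

variable {k : Type} [Field k] [NumberField k] {r : ℕ} {p : Fin r → ℕ} [∀ t, Fact (p t).Prime]

private lemma cb_exists_max {m N : ℕ}
    (L : PlK k p → Matrix (Fin m) (Fin N) (AlgebraicClosure k))
    (c : PlK k p → Fin m → ℝ) (hN : 0 < N) :
    ∃ U : Submodule k (Fin N → k), U ≠ ⊥ ∧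
      ∀ W : Submodule k (Fin N → k), mu L c W ≤ mu L c U / finrank k U * finrank k W := by
  set f : Submodule k (Fin N → k) → ℝ := fun W => mu L c W / finrank k W with hf
  have hfin : (f '' {W | W ≠ ⊥}).Finite := by
    refine ((mu_finite L c).image2 (fun a b : ℝ => a / b)
      ((Set.finite_Iic N).image fun n : ℕ => (n : ℝ))).subset ?_
    rintro _ ⟨W, -, rfl⟩
    refine ⟨mu L c W, ⟨W, rfl⟩, finrank k W, ⟨finrank k W, ?_, rfl⟩, rfl⟩
    have h := Submodule.finrank_le W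
    rwa [finrank_fin_fun] at h
  have hne : (f '' {W | W ≠ ⊥}).Nonempty := by
    refine ⟨f ⊤, ⊤, ?_, rfl⟩
    intro h
    have h1 : finrank k (⊤ : Submodule k (Fin N → k)) = N := by
      rw [finrank_top, finrank_fin_fun]
    rw [h, finrank_bot] at h1
    omega
  obtain ⟨a, ⟨U, hU, rfl⟩, hmax⟩ := hfin.exists_maximal hne |>.imp fun a ha =>
    (⟨ha.prop, fun b hb => not_lt.1 fun hlt => ha.not_prop_of_gt hlt hb⟩ :
      a ∈ f '' {W | W ≠ ⊥} ∧ ∀ b ∈ f '' {W | W ≠ ⊥}, b ≤ a)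
  refine ⟨U, hU, fun W => ?_⟩
  by_cases hW : W = ⊥
  · rw [hW, mu_bot, finrank_bot, Nat.cast_zero, mul_zero]
  · have h1 := hmax (f W) ⟨W, hW, rfl⟩
    have h2 : (0 : ℝ) < finrank k W := by
      have : finrank k W ≠ 0 := fun h => hW (Submodule.finrank_eq_zero.1 h)
      exact_mod_cast Nat.pos_of_ne_zero this
    rw [hf] at h1
    exact (div_le_iff₀ h2).1 h1

/-- large `Q`, balanced system -/
private lemma cb_large (e : ExtK k p) (hp : Function.Injective p) {m N : ℕ}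
    (L : PlK k p → Matrix (Fin m) (Fin N) (AlgebraicClosure k))
    (hL : ∀ l, Function.Injective (L l).mulVec) (c : PlK k p → Fin m → ℝ)
    (hc : ∀ l, Monotone (c l)) (hN : 0 < N) (s M : ℝ) (hs0 : 0 ≤ s)
    (hs : ∀ U : Submodule k (Fin N → k), mu L c U ≤ s * finrank k U) (hsM : s * N ≤ M)
    (ε C : ℝ) (hε : 0 < ε) (hC : 0 < C) : ∃ Q₁ : ℝ, 1 ≤ Q₁ ∧ ∀ Q : ℝ, Q₁ ≤ Q →
      (Box e L c Q C).Finite ∧
        ((Box e L c Q C).ncard : ℝ) ≤ 4 ^ (finrank ℚ k * N) * Q ^ (M + ε) := by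
  have hN' : (0 : ℝ) < N := by exact_mod_cast hN
  set ε₁ : ℝ := ε / (2 * N) with hε₁
  have hε₁0 : 0 < ε₁ := by positivity
  obtain ⟨Q₀, hQ₀, hQ₀'⟩ := first_min e hp L hL c hc s hs ε₁ C hε₁0 hC
  have hd : 0 < finrank ℚ k := finrank_pos
  have hd' : (0 : ℝ) < finrank ℚ k := by exact_mod_cast hd
  refine ⟨max Q₀ 2, le_max_of_le_left hQ₀, fun Q hQ => ?_⟩
  have hQ2 : 2 ≤ Q := (le_max_right _ _).trans hQ
  have hQ1 : 1 < Q := by linarith
  have hQ0 : 0 < Q := by linarith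
  set t : ℝ := Q ^ (-(s + 2 * ε₁) / (finrank ℚ k : ℝ)) with ht
  have ht0 : 0 < t := Real.rpow_pos_of_pos hQ0 _
  have ht1 : t ≤ 1 := by
    refine Real.rpow_le_one_of_one_le_of_nonpos hQ1.le ?_
    refine div_nonpos_of_nonpos_of_nonneg ?_ hd'.le
    linarith
  have htd : t ^ finrank ℚ k = Q ^ (-(s + 2 * ε₁)) := by
    rw [ht, ← Real.rpow_natCast, ← Real.rpow_mul hQ0.le, div_mul_cancel₀ _ hd'.ne']
  obtain ⟨h1, h2⟩ := pack_box e L hL c Q C t hQ0 hC ht0 ht1 (by
    intro x hx h3 h4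
    have h5 := hQ₀' Q t ((le_max_left _ _).trans hQ) ht0 x hx
      (fun ρ i => (h3 ρ i).trans (le_of_eq (by ring))) h4
    rw [htd] at h5
    have h6 := (Real.rpow_le_rpow_left_iff hQ1).1 h5
    linarith)
  refine ⟨h1, h2.trans ?_⟩
  have h3 : (4 / t) ^ (finrank ℚ k * N) = 4 ^ (finrank ℚ k * N) * Q ^ ((s + 2 * ε₁) * N) := by
    rw [div_pow, pow_mul t, htd, div_eq_mul_inv]
    congr 1
    rw [← Real.rpow_natCast, ← Real.rpow_mul hQ0.le, ← Real.rpow_neg hQ0.le]
    congr 1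
    ring
  rw [h3]
  refine mul_le_mul_of_nonneg_left ?_ (by positivity)
  refine Real.rpow_le_rpow_of_exponent_le hQ1.le ?_
  have h4 : 2 * ε₁ * N = ε := by
    rw [hε₁]
    field_simp
  nlinarith

/-- bounded `Q` -/
private lemma cb_small (e : ExtK k p) {m N : ℕ}
    (L : PlK k p → Matrix (Fin m) (Fin N) (AlgebraicClosure k))
    (hL : ∀ l, Function.Injective (L l).mulVec) (c : PlK k p → Fin m → ℝ) (Q₁ C : ℝ)
    (hQ₁ : 1 ≤ Q₁) (hC : 0 < C) : ∃ C' : ℝ, 0 < C' ∧ ∀ Q : ℝ, 1 ≤ Q → Q ≤ Q₁ →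
      (Box e L c Q C).Finite ∧ ((Box e L c Q C).ncard : ℝ) ≤ C' := by
  classical
  have hcl : ∀ ρ : k →+* ℂ, ∃ B : ℝ, ∀ Q : ℝ, 1 ≤ Q → Q ≤ Q₁ → ∀ x ∈ Box e L c Q C,
      ∀ j, ‖ρ (x j : k)‖ ≤ B := by
    intro ρ
    obtain ⟨Cρ, hCρ, h1⟩ := coord_le (VK e (Sum.inl ρ)) (L (Sum.inl ρ)) (hL _)
    refine ⟨Cρ * (C * ∑ i, Q₁ ^ |c (Sum.inl ρ) i|), fun Q hQ hQQ x hx j => ?_⟩
    have hnn : ∀ i, 0 ≤ Q₁ ^ |c (Sum.inl ρ) i| := fun i => Real.rpow_nonneg (by linarith) _
    have h2 := h1 (up fun j => (x j : k)) (C * ∑ i, Q₁ ^ |c (Sum.inl ρ) i|)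
      (mul_nonneg hC.le (Finset.sum_nonneg fun i _ => hnn i)) (by
        intro i
        refine (hx (Sum.inl ρ) i).trans (mul_le_mul_of_nonneg_left ?_ hC.le)
        calc Q ^ c (Sum.inl ρ) i ≤ Q ^ |c (Sum.inl ρ) i| :=
              Real.rpow_le_rpow_of_exponent_le hQ (le_abs_self _)
          _ ≤ Q₁ ^ |c (Sum.inl ρ) i| := Real.rpow_le_rpow (by linarith) hQQ (abs_nonneg _)
          _ ≤ ∑ i, Q₁ ^ |c (Sum.inl ρ) i| :=
              Finset.single_le_sum (f := fun i => Q₁ ^ |c (Sum.inl ρ) i|) (fun i _ => hnn i)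
                (Finset.mem_univ i)) j
    rw [up, schlickK_VK] at h2
    exact h2
  choose B hB using hcl
  set T : Set (Fin N → 𝓞 k) := {x | ∀ j, ∀ ρ : k →+* ℂ, ‖ρ (x j : k)‖ ≤ ∑ ρ, |B ρ|} with hT
  have hTf : T.Finite := by
    have h1 := Embeddings.finite_of_norm_le k ℂ (∑ ρ, |B ρ|)
    have h2 : {x : 𝓞 k | ∀ ρ : k →+* ℂ, ‖ρ (x : k)‖ ≤ ∑ ρ, |B ρ|}.Finite := by
      refine Set.Finite.of_injOn (f := fun x : 𝓞 k => (x : k)) ?_
        RingOfIntegers.coe_injective.injOn h1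
      intro x hx
      exact ⟨RingOfIntegers.isIntegral_coe x, hx⟩
    have h3 := Set.Finite.pi' (fun _ : Fin N => h2)
    exact h3
  have hsub : ∀ Q : ℝ, 1 ≤ Q → Q ≤ Q₁ → Box e L c Q C ⊆ T := by
    intro Q hQ hQQ x hx j ρ
    exact (hB ρ Q hQ hQQ x hx j).trans ((le_abs_self _).trans
      (Finset.single_le_sum (f := fun ρ => |B ρ|) (fun _ _ => abs_nonneg _) (Finset.mem_univ ρ)))
  refine ⟨T.ncard + 1, by positivity, fun Q hQ hQQ => ⟨hTf.subset (hsub Q hQ hQQ), ?_⟩⟩
  have h1 : (Box e L c Q C).ncard ≤ T.ncard := Set.ncard_le_ncard (hsub Q hQ hQQ) hTf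
  have h2 : ((Box e L c Q C).ncard : ℝ) ≤ T.ncard := by exact_mod_cast h1
  linarith

private lemma cb_balanced (e : ExtK k p) (hp : Function.Injective p) {m N : ℕ}
    (L : PlK k p → Matrix (Fin m) (Fin N) (AlgebraicClosure k))
    (hL : ∀ l, Function.Injective (L l).mulVec) (c : PlK k p → Fin m → ℝ)
    (hc : ∀ l, Monotone (c l)) (hN : 0 < N) (s M : ℝ) (hs0 : 0 ≤ s) (hM0 : 0 ≤ M)
    (hs : ∀ U : Submodule k (Fin N → k), mu L c U ≤ s * finrank k U) (hsM : s * N ≤ M)
    (ε C : ℝ) (hε : 0 < ε) (hC : 0 < C) : ∃ C' : ℝ, 0 < C' ∧ ∀ Q : ℝ, 1 ≤ Q →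
      (Box e L c Q C).Finite ∧ ((Box e L c Q C).ncard : ℝ) ≤ C' * Q ^ (M + ε) := by
  obtain ⟨Q₁, hQ₁, h1⟩ := cb_large e hp L hL c hc hN s M hs0 hs hsM ε C hε hC
  obtain ⟨C₂, hC₂, h2⟩ := cb_small e L hL c Q₁ C hQ₁ hC
  refine ⟨4 ^ (finrank ℚ k * N) + C₂, by positivity, fun Q hQ => ?_⟩
  have hpow : 1 ≤ Q ^ (M + ε) := Real.one_le_rpow hQ (by linarith)
  rcases le_total Q Q₁ with hQQ | hQQ
  · obtain ⟨h3, h4⟩ := h2 Q hQ hQQ
    refine ⟨h3, h4.trans ?_⟩
    have h5 : (0 : ℝ) ≤ 4 ^ (finrank ℚ k * N) := by positivity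
    nlinarith
  · obtain ⟨h3, h4⟩ := h1 Q hQQ
    refine ⟨h3, h4.trans ?_⟩
    refine mul_le_mul_of_nonneg_right ?_ (by linarith)
    linarith

/-- the statement for systems in `N` variables -/
private def CB (e : ExtK k p) (N : ℕ) : Prop :=
  ∀ (m : ℕ) (L : PlK k p → Matrix (Fin m) (Fin N) (AlgebraicClosure k)),
    (∀ l, Function.Injective (L l).mulVec) → ∀ c : PlK k p → Fin m → ℝ, (∀ l, Monotone (c l)) →
    ∀ M : ℝ, (∀ U : Submodule k (Fin N → k), mu L c U ≤ M) → ∀ ε C : ℝ, 0 < ε → 0 < C →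
    ∃ C' : ℝ, 0 < C' ∧ ∀ Q : ℝ, 1 ≤ Q →
      (Box e L c Q C).Finite ∧ ((Box e L c Q C).ncard : ℝ) ≤ C' * Q ^ (M + ε)

/-- the quotient system -/
private lemma cb_quot (e : ExtK k p) {m N : ℕ}
    (L : PlK k p → Matrix (Fin m) (Fin N) (AlgebraicClosure k))
    (hL : ∀ l, Function.Injective (L l).mulVec) (c : PlK k p → Fin m → ℝ)
    (hc : ∀ l, Monotone (c l)) (U : Submodule k (Fin N → k)) (C : ℝ) (hC : 0 < C)
    {M' : ℕ} (S : Matrix (Fin M') (Fin N) (𝓞 k))
    (hS : Function.Surjective (S.map (algebraMap (𝓞 k) k)).mulVec)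
    (hker : ∀ x, (S.map (algebraMap (𝓞 k) k)).mulVec x = 0 ↔ x ∈ U) :
    ∃ (Lq : PlK k p → Matrix (Fin m) (Fin M') (AlgebraicClosure k)) (C₁ : ℝ), 0 < C₁ ∧
      (∀ l, Function.Injective (Lq l).mulVec) ∧
      (∀ W : Submodule k (Fin M' → k), mu Lq c W =
        mu L c (W.comap (S.map (algebraMap (𝓞 k) k)).mulVecLin) - mu L c U) ∧
      ∀ Q : ℝ, 1 ≤ Q → ∀ x ∈ Box e L c Q C, S.mulVec x ∈ Box e Lq c Q C₁ := by
  choose Lq A hLq hA hLA hk using fun l => exists_quot (L l) (hL l) U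
    (S.map (algebraMap (𝓞 k) k)) hS hker
  set C₀ : ℝ := ∑ l, ∑ i, ∑ j, VK e l (A l i j) with hC₀
  have hnn : ∀ l i j, 0 ≤ VK e l (A l i j) := fun l i j => apply_nonneg _ _
  have hC₀0 : 0 ≤ C₀ := Finset.sum_nonneg fun l _ => Finset.sum_nonneg fun i _ =>
    Finset.sum_nonneg fun j _ => hnn l i j
  refine ⟨Lq, C * (1 + C₀), by positivity, hLq, ?_, ?_⟩
  · intro W
    unfold mu
    rw [← Finset.sum_sub_distrib]
    refine Finset.sum_congr rfl fun l _ => ?_
    unfold muL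
    rw [← Finset.sum_sub_distrib]
    refine Finset.sum_congr rfl fun i _ => ?_
    rw [hk l W i, hk l W (i + 1)]
    push_cast
    ring
  · intro Q hQ x hx l i
    have h1 : (Lq l).mulVec (up fun j => ((S.mulVec x j : 𝓞 k) : k)) =
        (A l).mulVec ((L l).mulVec (up fun j => (x j : k))) := by
      rw [cb_coe_mulVec, cb_up_mulVec, Matrix.mulVec_mulVec, hLA, Matrix.mulVec_mulVec]
    rw [h1, Matrix.mulVec, dotProduct]
    have hQc : 0 ≤ Q ^ c l i := Real.rpow_nonneg (by linarith) _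
    calc VK e l (∑ j, A l i j * (L l).mulVec (up fun j => (x j : k)) j)
        ≤ ∑ j, VK e l (A l i j * (L l).mulVec (up fun j => (x j : k)) j) :=
          AbsoluteValue.sum_le _ _ _
      _ ≤ ∑ j, VK e l (A l i j) * (C * Q ^ c l i) := by
          refine Finset.sum_le_sum fun j _ => ?_
          rw [map_mul]
          rcases lt_or_ge i j with hij | hij
          · rw [hA l i j hij, map_zero, zero_mul, zero_mul]
          · refine mul_le_mul_of_nonneg_left ((hx l j).trans ?_) (hnn l i j)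
            exact mul_le_mul_of_nonneg_left
              (Real.rpow_le_rpow_of_exponent_le hQ (hc l hij)) hC.le
      _ = (∑ j, VK e l (A l i j)) * (C * Q ^ c l i) := by rw [Finset.sum_mul]
      _ ≤ (1 + C₀) * (C * Q ^ c l i) := by
          refine mul_le_mul_of_nonneg_right ?_ (mul_nonneg hC.le hQc)
          have h2 : ∑ j, VK e l (A l i j) ≤ ∑ i, ∑ j, VK e l (A l i j) :=
            Finset.single_le_sum (f := fun i => ∑ j, VK e l (A l i j))
              (fun i _ => Finset.sum_nonneg fun j _ => hnn l i j) (Finset.mem_univ i)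
          have h3 : ∑ i, ∑ j, VK e l (A l i j) ≤ C₀ :=
            Finset.single_le_sum (f := fun l => ∑ i, ∑ j, VK e l (A l i j))
              (fun l _ => Finset.sum_nonneg fun i _ => Finset.sum_nonneg fun j _ => hnn l i j)
              (Finset.mem_univ l)
          linarith
      _ = C * (1 + C₀) * Q ^ c l i := by ring

private lemma cb_natCast_le {K : Type} [Field K] (V : AbsoluteValue K ℝ) (D : ℕ) :
    V (D : K) ≤ D := by
  induction D with
  | zero => rw [Nat.cast_zero, Nat.cast_zero, map_zero]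
  | succ D ih =>
    push_cast
    refine (V.add_le _ _).trans ?_
    rw [V.map_one]
    linarith

/-- the fibres of the projection to the quotient -/
private lemma cb_fibre (e : ExtK k p) {m N : ℕ}
    (L : PlK k p → Matrix (Fin m) (Fin N) (AlgebraicClosure k)) (c : PlK k p → Fin m → ℝ)
    (U : Submodule k (Fin N → k)) (C : ℝ) (R : Matrix (Fin N) (Fin (finrank k U)) k) (D : ℕ)
    (hD : D ≠ 0)
    (hx : ∀ x : Fin N → 𝓞 k, (fun j => (x j : k)) ∈ U →
        ∃ z : Fin (finrank k U) → 𝓞 k, ∀ j, (D : k) * (x j : k) = R.mulVec (fun i => (z i : k)) j)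
    (Q : ℝ) (hQ : 0 < Q)
    (hfin : (Box e (fun l => L l * R.map (algebraMap k (AlgebraicClosure k))) c Q
      (D * (2 * C))).Finite)
    (F : Set (Fin N → 𝓞 k)) (hF : F ⊆ Box e L c Q C)
    (hFU : ∀ x ∈ F, ∀ y ∈ F, (fun j => ((x - y) j : k)) ∈ U) :
    F.Finite ∧ F.ncard ≤ (Box e (fun l => L l * R.map (algebraMap k (AlgebraicClosure k))) c Q
      (D * (2 * C))).ncard := by
  classical
  rcases F.eq_empty_or_nonempty with rfl | ⟨x₀, hx₀⟩
  · exact ⟨Set.finite_empty, by rw [Set.ncard_empty]; exact Nat.zero_le _⟩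
  have h1 : ∀ x ∈ F, ∃ z : Fin (finrank k U) → 𝓞 k, ∀ j, (D : k) * ((x - x₀) j : k) =
      R.mulVec (fun i => (z i : k)) j := fun x hxF => hx (x - x₀) (hFU x hxF x₀ hx₀)
  choose! z hz using h1
  have hinj : Set.InjOn z F := by
    intro x hxF y hyF hxy
    funext j
    have h2 := hz x hxF j
    have h3 := hz y hyF j
    rw [hxy, ← h3] at h2
    have hDk : (D : k) ≠ 0 := by exact_mod_cast hD
    have h4 := mul_left_cancel₀ hDk h2
    have h5 : (x - x₀) j = (y - x₀) j := RingOfIntegers.coe_injective h4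
    simpa using h5
  have hmaps : ∀ x ∈ F, z x ∈ Box e (fun l => L l * R.map (algebraMap k (AlgebraicClosure k))) c Q
      (D * (2 * C)) := by
    intro x hxF l i
    have h2 : R.mulVec (fun i => (z x i : k)) =
        (D : k) • ((fun j => (x j : k)) - fun j => (x₀ j : k)) := by
      funext j
      rw [← hz x hxF j, Pi.smul_apply, smul_eq_mul, Pi.sub_apply, Pi.sub_apply]
      congr 1
    have h3 : (L l * R.map (algebraMap k (AlgebraicClosure k))).mulVec
        (up fun j => (z x j : k)) = algebraMap k (AlgebraicClosure k) (D : k) •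
          ((L l).mulVec (up fun j => (x j : k)) - (L l).mulVec (up fun j => (x₀ j : k))) := by
      rw [← Matrix.mulVec_mulVec, ← cb_up_mulVec, h2, cb_up_smul, cb_up_sub, Matrix.mulVec_smul,
        Matrix.mulVec_sub]
    show VK e l ((L l * R.map (algebraMap k (AlgebraicClosure k))).mulVec
        (up fun j => (z x j : k)) i) ≤ _
    rw [h3, Pi.smul_apply, smul_eq_mul, map_mul, Pi.sub_apply, map_natCast]
    have h4 : VK e l ((L l).mulVec (up fun j => (x j : k)) i -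
        (L l).mulVec (up fun j => (x₀ j : k)) i) ≤ 2 * C * Q ^ c l i := by
      refine (AbsoluteValue.sub_le_add _ _ _).trans ?_
      have h5 := hF hxF l i
      have h6 := hF hx₀ l i
      linarith
    have h5 : 0 ≤ Q ^ c l i := Real.rpow_nonneg hQ.le _
    calc VK e l (D : AlgebraicClosure k) * VK e l ((L l).mulVec (up fun j => (x j : k)) i -
        (L l).mulVec (up fun j => (x₀ j : k)) i) ≤ D * (2 * C * Q ^ c l i) :=
          mul_le_mul (cb_natCast_le _ D) h4 (apply_nonneg _ _) (Nat.cast_nonneg D)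
      _ = D * (2 * C) * Q ^ c l i := by ring
  exact ⟨hfin.of_injOn hmaps hinj, Set.ncard_le_ncard_of_injOn z hmaps hinj hfin⟩

private lemma cb_step (e : ExtK k p) {m N : ℕ} (ih : ∀ N' < N, CB e N')
    (L : PlK k p → Matrix (Fin m) (Fin N) (AlgebraicClosure k))
    (hL : ∀ l, Function.Injective (L l).mulVec) (c : PlK k p → Fin m → ℝ)
    (hc : ∀ l, Monotone (c l)) (M : ℝ) (hM : ∀ W : Submodule k (Fin N → k), mu L c W ≤ M)
    (U : Submodule k (Fin N → k)) (hU : U ≠ ⊥) (hUtop : U ≠ ⊤) (hs0 : 0 ≤ mu L c U)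
    (hs : ∀ W : Submodule k (Fin N → k), mu L c W ≤ mu L c U / finrank k U * finrank k W)
    (ε C : ℝ) (hε : 0 < ε) (hC : 0 < C) : ∃ C' : ℝ, 0 < C' ∧ ∀ Q : ℝ, 1 ≤ Q →
      (Box e L c Q C).Finite ∧ ((Box e L c Q C).ncard : ℝ) ≤ C' * Q ^ (M + ε) := by
  classical
  have hr0 : 0 < finrank k U :=
    Nat.pos_of_ne_zero fun h => hU (Submodule.finrank_eq_zero.1 h)
  have hrN : finrank k U < N := by
    have h := Submodule.finrank_lt hUtop
    rwa [finrank_fin_fun] at h
  have hr0' : (0 : ℝ) < finrank k U := by exact_mod_cast hr0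
  obtain ⟨S, hS, hker⟩ := exists_quot_int U
  obtain ⟨Lq, C₁, hC₁, hLq, hmuq, hbox⟩ := cb_quot e L hL c hc U C hC S hS hker
  obtain ⟨R, D, hD, hR, hRr, hRx⟩ := exists_sub_int U
  obtain ⟨C₂, hC₂, h2⟩ := ih (N - finrank k U) (by omega) m Lq hLq c hc (M - mu L c U)
    (fun W => by rw [hmuq]; linarith [hM (W.comap (S.map (algebraMap (𝓞 k) k)).mulVecLin)])
    (ε / 2) C₁ (by positivity) hC₁
  have hD0 : (0 : ℝ) < D := by exact_mod_cast Nat.pos_of_ne_zero hD
  obtain ⟨C₃, hC₃, h3⟩ := ih (finrank k U) hrN m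
    (fun l => L l * R.map (algebraMap k (AlgebraicClosure k)))
    (fun l => inj_sub (L l) (hL l) R hR) c hc (mu L c U)
    (fun W => by
      have h4 : mu (fun l => L l * R.map (algebraMap k (AlgebraicClosure k))) c W =
          mu L c (W.map R.mulVecLin) := by
        unfold mu muL
        simp only [kap_sub _ R hR]
      have h5 := hs (W.map R.mulVecLin)
      have h6 : finrank k (W.map R.mulVecLin) = finrank k W :=
        LinearEquiv.finrank_eq (Submodule.equivMapOfInjective R.mulVecLin hR W).symm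
      have h7 : finrank k W ≤ finrank k U := by
        have := Submodule.finrank_le W
        rwa [finrank_fin_fun] at this
      rw [h4]
      refine h5.trans ?_
      rw [h6, div_mul_eq_mul_div, div_le_iff₀ hr0']
      exact mul_le_mul_of_nonneg_left (by exact_mod_cast h7) hs0)
    (ε / 2) (D * (2 * C)) (by positivity) (by positivity)
  refine ⟨C₂ * C₃, by positivity, fun Q hQ => ?_⟩
  have hQ0 : 0 < Q := by linarith
  obtain ⟨h4, h5⟩ := h2 Q hQ
  obtain ⟨h6, h7⟩ := h3 Q hQ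
  have hfib : ∀ y, (Box e L c Q C ∩ (fun x => S.mulVec x) ⁻¹' {y}).Finite ∧
      (Box e L c Q C ∩ (fun x => S.mulVec x) ⁻¹' {y}).ncard ≤
        (Box e (fun l => L l * R.map (algebraMap k (AlgebraicClosure k))) c Q
          (D * (2 * C))).ncard := by
    intro y
    refine cb_fibre e L c U C R D hD hRx Q hQ0 h6 _ Set.inter_subset_left ?_
    rintro x ⟨-, hx⟩ x' ⟨-, hx'⟩
    rw [← hker, ← cb_coe_mulVec]
    have h8 : S.mulVec (x - x') = 0 := by
      have h9 : S.mulVec x = y := hx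
      have h10 : S.mulVec x' = y := hx'
      rw [Matrix.mulVec_sub, h9, h10, sub_self]
    rw [h8]
    funext i
    exact map_zero (algebraMap (𝓞 k) k)
  have himg : (fun x => S.mulVec x) '' Box e L c Q C ⊆ Box e Lq c Q C₁ := by
    rintro _ ⟨x, hx, rfl⟩
    exact hbox Q hQ x hx
  have hBf : (Box e L c Q C).Finite :=
    Set.Finite.of_finite_fibers (fun x => S.mulVec x) (h4.subset himg) fun y _ => (hfib y).1
  refine ⟨hBf, ?_⟩
  set nf : ℕ := (Box e (fun l => L l * R.map (algebraMap k (AlgebraicClosure k))) c Q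
          (D * (2 * C))).ncard with hnf
  have hcard : (Box e L c Q C).ncard ≤ nf * (Box e Lq c Q C₁).ncard := by
    have h8 := Finset.card_le_mul_card_image (f := fun x => S.mulVec x) hBf.toFinset nf (by
      intro y _
      have h9 := (hfib y).2
      rw [Set.ncard_eq_toFinset_card _ (hfib y).1] at h9
      refine le_trans (Finset.card_le_card ?_) h9
      intro x hx
      rw [Finset.mem_filter, Set.Finite.mem_toFinset] at hx
      rw [Set.Finite.mem_toFinset]
      exact hx)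
    rw [Set.ncard_eq_toFinset_card _ hBf]
    refine h8.trans (Nat.mul_le_mul_left _ ?_)
    rw [Set.ncard_eq_toFinset_card _ h4]
    refine Finset.card_le_card fun y hy => ?_
    obtain ⟨x, hx, rfl⟩ := Finset.mem_image.1 hy
    rw [Set.Finite.mem_toFinset] at hx ⊢
    exact himg ⟨x, hx, rfl⟩
  have hcard' : ((Box e L c Q C).ncard : ℝ) ≤ nf * (Box e Lq c Q C₁).ncard := by
    exact_mod_cast hcard
  refine hcard'.trans ?_
  calc (nf : ℝ) * (Box e Lq c Q C₁).ncard
      ≤ (C₃ * Q ^ (mu L c U + ε / 2)) * (C₂ * Q ^ (M - mu L c U + ε / 2)) :=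
        mul_le_mul h7 h5 (Nat.cast_nonneg _)
          (mul_nonneg hC₃.le (Real.rpow_nonneg hQ0.le _))
    _ = C₂ * C₃ * (Q ^ (mu L c U + ε / 2) * Q ^ (M - mu L c U + ε / 2)) := by ring
    _ = C₂ * C₃ * Q ^ (M + ε) := by
        rw [← Real.rpow_add hQ0]
        congr 2
        ring

private lemma cb_all (e : ExtK k p) (hp : Function.Injective p) (N : ℕ) : CB e N := by
  induction N using Nat.strong_induction_on with
  | _ N ih =>
    intro m L hL c hc M hM ε C hε hC
    have hM0 : 0 ≤ M := by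
      have h := hM ⊥
      rwa [mu_bot] at h
    rcases Nat.eq_zero_or_pos N with rfl | hN
    · refine ⟨1, one_pos, fun Q hQ => ?_⟩
      have h1 : (Box e L c Q C).Subsingleton := fun x _ y _ => Subsingleton.elim x y
      refine ⟨h1.finite, ?_⟩
      have h2 : (Box e L c Q C).ncard ≤ 1 := by
        rcases h1.eq_empty_or_singleton with h | ⟨x, h⟩
        · rw [h, Set.ncard_empty]
          exact Nat.zero_le _
        · rw [h, Set.ncard_singleton]
      have h3 : ((Box e L c Q C).ncard : ℝ) ≤ 1 := by exact_mod_cast h2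
      have hpow : 1 ≤ Q ^ (M + ε) := Real.one_le_rpow hQ (by linarith)
      linarith
    obtain ⟨U, hU, hs⟩ := cb_exists_max L c hN
    have hr0 : (0 : ℝ) < finrank k U := by
      have : finrank k U ≠ 0 := fun h => hU (Submodule.finrank_eq_zero.1 h)
      exact_mod_cast Nat.pos_of_ne_zero this
    rcases le_or_gt (mu L c U) 0 with h0 | h0
    · refine cb_balanced e hp L hL c hc hN 0 M le_rfl hM0 (fun W => ?_) (by rw [zero_mul]; exact hM0)
        ε C hε hC
      rw [zero_mul]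
      refine (hs W).trans (mul_nonpos_of_nonpos_of_nonneg ?_ (Nat.cast_nonneg _))
      exact div_nonpos_of_nonpos_of_nonneg h0 hr0.le
    · by_cases hUt : U = ⊤
      · refine cb_balanced e hp L hL c hc hN (mu L c U / finrank k U) M (by positivity) hM0 hs ?_
          ε C hε hC
        have h1 : (finrank k U : ℝ) = N := by
          rw [hUt, finrank_top, finrank_fin_fun]
        rw [← h1, div_mul_cancel₀ _ hr0.ne']
        exact hM U
      · exact cb_step e ih L hL c hc M hM U hU hUt h0.le hs ε C hε hC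

theorem count_box (e : ExtK k p) (hp : Function.Injective p) {m N : ℕ}
    (L : PlK k p → Matrix (Fin m) (Fin N) (AlgebraicClosure k))
    (hL : ∀ l, Function.Injective (L l).mulVec) (c : PlK k p → Fin m → ℝ)
    (hc : ∀ l, Monotone (c l)) (M : ℝ) (hM : ∀ U : Submodule k (Fin N → k), mu L c U ≤ M)
    (ε C : ℝ) (hε : 0 < ε) (hC : 0 < C) : ∃ C' : ℝ, 0 < C' ∧ ∀ Q : ℝ, 1 ≤ Q →
      (Box e L c Q C).Finite ∧ ((Box e L c Q C).ncard : ℝ) ≤ C' * Q ^ (M + ε) :=
  cb_all e hp N m L hL c hc M hM ε C hε hC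

end

end Pool.Agent.AAS
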