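import Pool.Agent.AAS.Basic
import Pool.Agent.AAS.Vand
import Pool.Agent.AAS.Combi
import Pool.Agent.AAS.CountBox
import Pool.Agent.AAS.CellSub

/-!
# The number of forms in the box with given mesh
-/

set_option autoImplicit false

open NumberField Module Pool.Agent.SST

namespace Pool.Agent.AAS

section

variable {k : Type} [Field k] [NumberField k] {r : ℕ} {p : Fin r → ℕ} [∀ t, Fact (p t).Prime]

/-- the largest subspace of maximal `mu` -/
private lemma cell_max {m N : ℕ} (L : PlK k p → Matrix (Fin m) (Fin N) (AlgebraicClosure k))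
    (c : PlK k p → Fin m → ℝ) : ∃ U : Submodule k (Fin N → k), (∀ W, mu L c W ≤ mu L c U) ∧
      ∀ W, U < W → mu L c W < mu L c U := by
  obtain ⟨M, ⟨U₀, hU₀⟩, hM⟩ := (mu_finite L c).exists_maximal ⟨_, Set.mem_range_self ⊥⟩
  have hM' : ∀ W, mu L c W ≤ M := by
    intro W
    by_contra hcon
    exact hcon (hM (Set.mem_range_self W) (not_le.1 hcon).le)
  have hex : ∃ d : ℕ, ∃ U : Submodule k (Fin N → k), mu L c U = M ∧ finrank k U = d :=
    ⟨_, U₀, hU₀, rfl⟩
  have hb : ∀ d : ℕ, (∃ U : Submodule k (Fin N → k), mu L c U = M ∧ finrank k U = d) → d ≤ N := by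
    rintro d ⟨U, -, rfl⟩
    have := Submodule.finrank_le U
    simpa using this
  classical
  obtain ⟨U, hU1, hU2⟩ := Nat.findGreatest_spec
    (P := fun d => ∃ U : Submodule k (Fin N → k), mu L c U = M ∧ finrank k U = d)
    (hb _ hex.choose_spec) hex.choose_spec
  refine ⟨U, fun W => by rw [hU1]; exact hM' W, fun W hW => ?_⟩
  rw [hU1]
  refine lt_of_le_of_ne (hM' W) fun hWM => ?_
  have h1 : finrank k U < finrank k W := Submodule.finrank_lt_finrank_of_lt hW
  have h2 : finrank k W ≤ Nat.findGreatest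
      (fun d => ∃ U : Submodule k (Fin N → k), mu L c U = M ∧ finrank k U = d) N :=
    Nat.le_findGreatest (hb _ ⟨W, hWM, rfl⟩) ⟨W, hWM, rfl⟩
  omega

/-- The number of forms in the box with given mesh. -/
theorem cell_count (e : ExtK k p) (hp : Function.Injective p) {n R : ℕ} (hn : 2 ≤ n)
    (a b : Fin R → AlgebraicClosure k) (hab : ∀ i j, i ≠ j → a i * b j ≠ a j * b i)
    (J : PlK k p → Fin (n + 1) → Fin R) (hJ : ∀ l, Function.Injective (J l))
    (γ : PlK k p → Fin (n + 1) → ℝ) (hγ : ∀ l, Antitone (γ l))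
    (hlast : ∀ l, γ l (Fin.last n) = 0) (w : PlK k p → ℝ) (hw : ∑ l, w l = 1) (β η ε C : ℝ)
    (hβ : 0 ≤ β) (hβ4 : β ≤ 4) (hη : 0 ≤ η) (hΓ : 2 + β - η ≤ ∑ l, ∑ i, γ l i) (hε : 0 < ε)
    (hC : 0 < C) : ∃ C' Q₀ : ℝ, 0 < C' ∧ 1 ≤ Q₀ ∧ ∀ Q : ℝ, Q₀ ≤ Q →
      {F ∈ Box e (fun l => evM a b (J l)) (fun l i => w l - γ l i) Q C |
        ∀ j, val (a j) (b j) F ≠ 0}.Finite ∧
      ({F ∈ Box e (fun l => evM a b (J l)) (fun l i => w l - γ l i) Q C |
        ∀ j, val (a j) (b j) F ≠ 0}.ncard : ℝ) ≤ C' * Q ^ ((n : ℝ) - 1 - β / 2 + η + ε) := by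
  set L : PlK k p → Matrix (Fin (n + 1)) (Fin (n + 1)) (AlgebraicClosure k) :=
    fun l => evM a b (J l) with hLdef
  set c : PlK k p → Fin (n + 1) → ℝ := fun l i => w l - γ l i with hcdef
  have hL : ∀ l, Function.Injective (L l).mulVec := fun l =>
    Matrix.mulVec_injective_of_isUnit ((Matrix.isUnit_iff_isUnit_det _).2
      (isUnit_iff_ne_zero.2 (det_evM a b hab (J l) (hJ l))))
  have hc : ∀ l, Monotone (c l) := fun l i j hij => sub_le_sub_left (hγ l hij) _
  obtain ⟨U, hU1, hU2⟩ := cell_max L c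
  by_cases hU : ∀ j, ∃ x ∈ U,
      ∑ i : Fin (n + 1), a j ^ (i : ℕ) * b j ^ (n - (i : ℕ)) * up x i ≠ 0
  · -- all values are not identically zero on `U`
    obtain ⟨C', hC', hbox⟩ := count_box e hp L hL c hc (mu L c U) hU1 ε C hε hC
    have hmu : mu L c U ≤ (n : ℝ) - 1 - β / 2 + η := by
      have h1 := mu_le_top a b hab J hJ γ hγ hlast w hw U hU
      have h2 : 1 ≤ finrank k U := by
        obtain ⟨l⟩ : Nonempty (PlK k p) := by
          by_contra hcon
          rw [not_nonempty_iff] at hcon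
          rw [Finset.univ_eq_empty, Finset.sum_empty] at hw
          exact zero_ne_one hw
        obtain ⟨x, hx, hx0⟩ := hU (J l 0)
        by_contra hcon
        have h3 : finrank k U = 0 := by omega
        have h4 : U = ⊥ := Submodule.finrank_eq_zero.1 h3
        rw [h4, Submodule.mem_bot] at hx
        apply hx0
        rw [hx]
        refine Finset.sum_eq_zero fun i _ => ?_
        rw [up, Pi.zero_apply, map_zero, mul_zero]
      have h3 : finrank k U ≤ n + 1 := by
        have := Submodule.finrank_le U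
        simpa using this
      exact h1.trans (rank_bound n _ hn h2 h3 β η _ hβ hβ4 hη hΓ)
    refine ⟨C', 1, hC', le_rfl, fun Q hQ => ?_⟩
    obtain ⟨hfin, hcard⟩ := hbox Q hQ
    have hsub : {F ∈ Box e L c Q C | ∀ j, val (a j) (b j) F ≠ 0} ⊆ Box e L c Q C :=
      fun F hF => hF.1
    refine ⟨hfin.subset hsub, ?_⟩
    calc ({F ∈ Box e L c Q C | ∀ j, val (a j) (b j) F ≠ 0}.ncard : ℝ)
        ≤ ((Box e L c Q C).ncard : ℝ) := by exact_mod_cast Set.ncard_le_ncard hsub hfin
      _ ≤ C' * Q ^ (mu L c U + ε) := hcard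
      _ ≤ C' * Q ^ ((n : ℝ) - 1 - β / 2 + η + ε) := by
          apply mul_le_mul_of_nonneg_left _ hC'.le
          exact Real.rpow_le_rpow_of_exponent_le hQ (by linarith)
  · -- one of the values is zero on `U`
    push Not at hU
    obtain ⟨j, hj⟩ := hU
    obtain ⟨Q₀, hQ₀, hsub⟩ := cell_sub e hp L hL c hc C hC U hU2
    refine ⟨1, Q₀, one_pos, hQ₀, fun Q hQ => ?_⟩
    have hempty : {F ∈ Box e L c Q C | ∀ j, val (a j) (b j) F ≠ 0} = ∅ := by
      rw [Set.eq_empty_iff_forall_notMem]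
      rintro F ⟨hF, hF0⟩
      exact hF0 j (hj _ (hsub Q hQ F hF))
    rw [hempty]
    refine ⟨Set.finite_empty, ?_⟩
    rw [Set.ncard_empty, Nat.cast_zero]
    have : (0 : ℝ) ≤ Q := zero_le_one.trans (hQ₀.trans hQ)
    positivity

end

end Pool.Agent.AAS
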