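import Pool.Agent.SST.SchlickK
import Pool.Agent.RefW.Defs

/-!
# Systems of linear forms with weights

A system over the number field `k` consists, for every place `l` (an embedding of `k` in `ℂ` or in
`ℂ_[p t]`), of a matrix `L l` with `m` rows and `N` columns over the algebraic closure of `k` and of
weights `c l i` of its rows. The box of size `Q` consists of the vectors `x` of algebraic integers
with `|L_{l, i}(x)|_l ≤ C * Q ^ c l i`.
-/

set_option autoImplicit false

open NumberField Module Pool.Agent.SST

namespace Pool.Agent.AAS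

section

variable {k : Type} [Field k]

/-- a vector over `k` as a vector over the algebraic closure -/
noncomputable def up {N : ℕ} (x : Fin N → k) : Fin N → AlgebraicClosure k :=
  fun j => algebraMap k (AlgebraicClosure k) (x j)

/-- the vectors of the subspace `U`, over the algebraic closure, at which the first `s` rows of `L`
vanish -/
noncomputable def kerS {m N : ℕ} (L : Matrix (Fin m) (Fin N) (AlgebraicClosure k))
    (U : Submodule k (Fin N → k)) (s : ℕ) :
    Submodule (AlgebraicClosure k) (Fin N → AlgebraicClosure k) where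
  carrier := {z | z ∈ Submodule.span (AlgebraicClosure k) (up '' (U : Set (Fin N → k))) ∧
    ∀ i : Fin m, (i : ℕ) < s → L.mulVec z i = 0}
  add_mem' := by
    rintro y z ⟨hy1, hy2⟩ ⟨hz1, hz2⟩
    refine ⟨add_mem hy1 hz1, fun i hi => ?_⟩
    rw [Matrix.mulVec_add, Pi.add_apply, hy2 i hi, hz2 i hi, add_zero]
  zero_mem' := by
    refine ⟨zero_mem _, fun i _ => ?_⟩
    rw [Matrix.mulVec_zero, Pi.zero_apply]
  smul_mem' := by
    rintro a z ⟨hz1, hz2⟩
    refine ⟨Submodule.smul_mem _ a hz1, fun i hi => ?_⟩
    rw [Matrix.mulVec_smul, Pi.smul_apply, hz2 i hi, smul_zero]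

/-- the dimension of `kerS L U s` -/
noncomputable def kap {m N : ℕ} (L : Matrix (Fin m) (Fin N) (AlgebraicClosure k))
    (U : Submodule k (Fin N → k)) (s : ℕ) : ℕ :=
  finrank (AlgebraicClosure k) (kerS L U s)

/-- the sum of the weights of the rows whose restrictions to `U` are independent of the restrictions
of the earlier rows -/
noncomputable def muL {m N : ℕ} (L : Matrix (Fin m) (Fin N) (AlgebraicClosure k)) (c : Fin m → ℝ)
    (U : Submodule k (Fin N → k)) : ℝ :=
  ∑ i : Fin m, c i * ((kap L U i : ℝ) - kap L U (i + 1))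

/-- the value of the form with coefficients `F` at the point `(a : b)` -/
noncomputable def val {n : ℕ} (a b : AlgebraicClosure k) (F : Fin (n + 1) → 𝓞 k) :
    AlgebraicClosure k :=
  ∑ j : Fin (n + 1), a ^ (j : ℕ) * b ^ (n - (j : ℕ)) * algebraMap k (AlgebraicClosure k) (F j : k)

/-- the matrix whose rows are the evaluations at the points `(a (J i) : b (J i))` -/
noncomputable def evM {n R : ℕ} (a b : Fin R → AlgebraicClosure k) (J : Fin (n + 1) → Fin R) :
    Matrix (Fin (n + 1)) (Fin (n + 1)) (AlgebraicClosure k) :=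
  fun i j => a (J i) ^ (j : ℕ) * b (J i) ^ (n - (j : ℕ))

end

section

variable {k : Type} [Field k] [NumberField k] {r : ℕ} {p : Fin r → ℕ} [∀ t, Fact (p t).Prime]

/-- the exponent of the volume of the box of the subspace `U` -/
noncomputable def mu {m N : ℕ} (L : PlK k p → Matrix (Fin m) (Fin N) (AlgebraicClosure k))
    (c : PlK k p → Fin m → ℝ) (U : Submodule k (Fin N → k)) : ℝ :=
  ∑ l, muL (L l) (c l) U

/-- the box -/
def Box (e : ExtK k p) {m N : ℕ} (L : PlK k p → Matrix (Fin m) (Fin N) (AlgebraicClosure k))
    (c : PlK k p → Fin m → ℝ) (Q C : ℝ) : Set (Fin N → 𝓞 k) :=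
  {x | ∀ l i, VK e l ((L l).mulVec (up fun j => (x j : k)) i) ≤ C * Q ^ c l i}

/-- the exponents of the size of the forms in the box -/
noncomputable def wt : PlK k p → ℝ :=
  Sum.elim (fun _ => 1 / (finrank ℚ k : ℝ)) (fun _ => 0)

/-- the maximal absolute value of the coefficients at a place -/
noncomputable def nfl (l : PlK k p) {n : ℕ} (F : Fin (n + 1) → 𝓞 k) : ℝ :=
  Finset.univ.sup' Finset.univ_nonempty fun i => vk l (F i : k)

end

end Pool.Agent.AAS
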