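import Pool.Agent.AAS.Defs
import Pool.Agent.AA.Link

/-!
# The proximity function of a point and the values of its form
-/

set_option autoImplicit false

open NumberField Module Pool.Agent.SST Pool.Agent.RefW Polynomial

namespace Pool.Agent.AAS

section

open scoped Classical

section

variable {k : Type} [Field k] [NumberField k] {n : ℕ} {F : Fin (n + 1) → 𝓞 k}
  {K : Type} [Field K] [NumberField K] [Algebra k K] {x : K}
  {A : Type} [NormedField A] [IsAlgClosed A] [CharZero A]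

private theorem link_card (hF : F ≠ 0) (h : RootOf F K x) (ρ : k →+* A) :
    Fintype.card {σ : K →+* A // σ.comp (algebraMap k K) = ρ} = n := by
  obtain ⟨e, _⟩ := exists_fibre_equiv hF h ρ
  rw [← Fintype.card_congr e, Fintype.card_fin]

private theorem link_val_one (hF : F ≠ 0) (h : RootOf F K x) (ρ : k →+* A)
    (E : AlgebraicClosure k →+* A) (hE : ∀ y, E (algebraMap k (AlgebraicClosure k) y) = ρ y)
    (z : AlgebraicClosure k) :
    ‖E (val z 1 F)‖ = ‖ρ (F (Fin.last n) : k)‖ *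
      ∏ σ : {σ : K →+* A // σ.comp (algebraMap k K) = ρ}, ‖E z - σ.1 x‖ := by
  rw [← norm_prod, ← norm_mul, ← AA.link_eval hF h ρ (E z)]
  unfold val
  rw [map_sum]
  congr 1
  refine Finset.sum_congr rfl fun i _ => ?_
  rw [map_mul, map_mul, map_pow, map_pow, map_one, one_pow, mul_one, hE, mul_comm]

omit [NumberField k] in
private theorem link_val_inf (F : Fin (n + 1) → 𝓞 k) :
    val 1 0 F = algebraMap k (AlgebraicClosure k) (F (Fin.last n) : k) := by
  unfold val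
  rw [Finset.sum_eq_single (Fin.last n)]
  · simp
  · intro j _ hj
    have h1 : n - (j : ℕ) ≠ 0 := by
      have := j.2
      have h2 : (j : ℕ) ≠ n := fun h => hj (Fin.ext h)
      omega
    rw [zero_pow h1, mul_zero, zero_mul]
  · intro h
    exact absurd (Finset.mem_univ _) h

omit [NumberField k] [NumberField K] [IsAlgClosed A] [CharZero A] in
private theorem link_g (g : k[X]) (s : Finset (AlgebraicClosure k))
    (hgs : g.map (algebraMap k (AlgebraicClosure k)) =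
      C (algebraMap k (AlgebraicClosure k) g.leadingCoeff) * ∏ z ∈ s, (X - C z)) (ρ : k →+* A)
    (E : AlgebraicClosure k →+* A) (hE : ∀ y, E (algebraMap k (AlgebraicClosure k) y) = ρ y)
    (σ : K →+* A) (hσ : σ.comp (algebraMap k K) = ρ) :
    ‖σ (aeval x g)‖ = ‖ρ g.leadingCoeff‖ * ∏ z ∈ s, ‖E z - σ x‖ := by
  have h1 : σ (aeval x g) = (g.map (algebraMap k (AlgebraicClosure k))).eval₂ E (σ x) := by
    rw [aeval_def, Polynomial.hom_eval₂, Polynomial.eval₂_map]
    congr 1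
    rw [hσ]
    ext y
    exact (hE y).symm
  rw [h1, hgs, eval₂_mul, eval₂_C, eval₂_finsetProd, hE, norm_mul, norm_prod]
  congr 1
  refine Finset.prod_congr rfl fun z _ => ?_
  rw [eval₂_sub, eval₂_X, eval₂_C, norm_sub_rev]

private theorem link_loc (hF : F ≠ 0) (h : RootOf F K x) (g : k[X]) (hg0 : g ≠ 0)
    (s : Finset (AlgebraicClosure k))
    (hgs : g.map (algebraMap k (AlgebraicClosure k)) =
      C (algebraMap k (AlgebraicClosure k) g.leadingCoeff) * ∏ z ∈ s, (X - C z))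
    (hcs : s.card = g.natDegree) (q : ℕ) (hq : g.natDegree ≤ q) (ρ : k →+* A)
    (E : AlgebraicClosure k →+* A) (hE : ∀ y, E (algebraMap k (AlgebraicClosure k) y) = ρ y)
    (hgx : aeval x g ≠ 0) (N : ℝ) (hN : 0 < N)
    (hM : ‖ρ (F (Fin.last n) : k)‖ *
      ∏ σ : {σ : K →+* A // σ.comp (algebraMap k K) = ρ}, max 1 ‖σ.1 x‖ ≤ (n + 1) * N) :
    ∑ σ : {σ : K →+* A // σ.comp (algebraMap k K) = ρ},
      -Real.log (‖σ.1 (aeval x g)‖ / max 1 ‖σ.1 x‖ ^ q) ≤
      (q * Real.log (n + 1) - n * Real.log ‖ρ g.leadingCoeff‖) +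
      (∑ z ∈ s, (Real.log N - Real.log ‖E (val z 1 F)‖) +
        ((q - g.natDegree : ℕ) : ℝ) * (Real.log N - Real.log ‖E (val 1 0 F)‖)) := by
  have hm : ∀ σ : {σ : K →+* A // σ.comp (algebraMap k K) = ρ}, 0 < max 1 ‖σ.1 x‖ :=
    fun σ => lt_of_lt_of_le one_pos (le_max_left _ _)
  have hFn : ‖ρ (F (Fin.last n) : k)‖ ≠ 0 := by
    rw [Ne, norm_eq_zero, map_eq_zero]
    exact fun h0 => AA.link_last hF h (RingOfIntegers.ext h0)
  have hlc : ‖ρ g.leadingCoeff‖ ≠ 0 := by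
    rw [Ne, norm_eq_zero, map_eq_zero, leadingCoeff_eq_zero]
    exact hg0
  have hGσ : ∀ σ : {σ : K →+* A // σ.comp (algebraMap k K) = ρ}, ‖σ.1 (aeval x g)‖ ≠ 0 := by
    intro σ
    rw [Ne, norm_eq_zero, map_eq_zero]
    exact hgx
  have hfac : ∀ (σ : {σ : K →+* A // σ.comp (algebraMap k K) = ρ}), ∀ z ∈ s,
      ‖E z - σ.1 x‖ ≠ 0 := by
    intro σ z hz h0
    have h1 := link_g (x := x) g s hgs ρ E hE σ.1 σ.2
    rw [Finset.prod_eq_zero hz h0, mul_zero] at h1
    exact hGσ σ h1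
  have hlogG : ∀ σ : {σ : K →+* A // σ.comp (algebraMap k K) = ρ},
      Real.log ‖σ.1 (aeval x g)‖ = Real.log ‖ρ g.leadingCoeff‖ +
        ∑ z ∈ s, Real.log ‖E z - σ.1 x‖ := by
    intro σ
    rw [link_g (x := x) g s hgs ρ E hE σ.1 σ.2, Real.log_mul hlc
      (Finset.prod_ne_zero_iff.2 (hfac σ)), Real.log_prod (hfac σ)]
  have hlogv : ∀ z ∈ s, Real.log ‖E (val z 1 F)‖ = Real.log ‖ρ (F (Fin.last n) : k)‖ +
      ∑ σ : {σ : K →+* A // σ.comp (algebraMap k K) = ρ}, Real.log ‖E z - σ.1 x‖ := by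
    intro z hz
    rw [link_val_one hF h ρ E hE z, Real.log_mul hFn
      (Finset.prod_ne_zero_iff.2 fun σ _ => hfac σ z hz), Real.log_prod fun σ _ => hfac σ z hz]
  have hinf : Real.log ‖E (val 1 0 F)‖ = Real.log ‖ρ (F (Fin.last n) : k)‖ := by
    rw [link_val_inf, hE]
  have hlogM : Real.log ‖ρ (F (Fin.last n) : k)‖ +
      ∑ σ : {σ : K →+* A // σ.comp (algebraMap k K) = ρ}, Real.log (max 1 ‖σ.1 x‖) ≤
      Real.log (n + 1) + Real.log N := by
    rw [← Real.log_prod fun σ _ => (hm σ).ne', ← Real.log_mul hFn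
      (Finset.prod_pos fun σ _ => hm σ).ne', ← Real.log_mul (by positivity) hN.ne']
    refine Real.log_le_log ?_ hM
    exact mul_pos (lt_of_le_of_ne (norm_nonneg _) hFn.symm) (Finset.prod_pos fun σ _ => hm σ)
  have hL : ∀ σ : {σ : K →+* A // σ.comp (algebraMap k K) = ρ},
      -Real.log (‖σ.1 (aeval x g)‖ / max 1 ‖σ.1 x‖ ^ q) =
        q * Real.log (max 1 ‖σ.1 x‖) - (Real.log ‖ρ g.leadingCoeff‖ +
        ∑ z ∈ s, Real.log ‖E z - σ.1 x‖) := by
    intro σ
    rw [Real.log_div (hGσ σ) (pow_ne_zero _ (hm σ).ne'), Real.log_pow, hlogG σ]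
    ring
  rw [Finset.sum_congr rfl fun σ _ => hL σ, Finset.sum_sub_distrib, Finset.sum_add_distrib,
    Finset.sum_const, Finset.card_univ, link_card hF h ρ, nsmul_eq_mul, ← Finset.mul_sum,
    Finset.sum_sub_distrib, Finset.sum_const, nsmul_eq_mul, hcs, hinf,
    Finset.sum_congr rfl hlogv, Finset.sum_add_distrib, Finset.sum_const, nsmul_eq_mul, hcs,
    Finset.sum_comm (s := s), Nat.cast_sub hq]
  have h5 := mul_le_mul_of_nonneg_left hlogM (Nat.cast_nonneg (α := ℝ) q)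
  linarith

omit [IsAlgClosed A] in
/-- the easy bound for the values -/
private theorem link_bd (ρ : k →+* A) (E : AlgebraicClosure k →+* A)
    (hE : ∀ y, E (algebraMap k (AlgebraicClosure k) y) = ρ y) (z w : AlgebraicClosure k) :
    ∃ C : ℝ, 0 < C ∧ ∀ (F : Fin (n + 1) → 𝓞 k) (N : ℝ), (∀ i, ‖ρ (F i : k)‖ ≤ N) →
      ‖E (val z w F)‖ ≤ C * N := by
  refine ⟨1 + ∑ j : Fin (n + 1), ‖E z‖ ^ (j : ℕ) * ‖E w‖ ^ (n - (j : ℕ)), by positivity,
    fun F N hN => ?_⟩
  have hN0 : 0 ≤ N := (norm_nonneg _).trans (hN 0)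
  unfold val
  rw [map_sum, add_mul, one_mul]
  refine le_trans ?_ (le_add_of_nonneg_left hN0)
  rw [Finset.sum_mul]
  refine norm_sum_le_of_le _ fun j _ => ?_
  rw [map_mul, map_mul, map_pow, map_pow, hE, norm_mul, norm_mul, norm_pow, norm_pow]
  exact mul_le_mul_of_nonneg_left (hN j) (by positivity)

private theorem link_all (hF : F ≠ 0) (h : RootOf F K x) (g : k[X]) (hg0 : g ≠ 0)
    (s : Finset (AlgebraicClosure k))
    (hgs : g.map (algebraMap k (AlgebraicClosure k)) =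
      C (algebraMap k (AlgebraicClosure k) g.leadingCoeff) * ∏ z ∈ s, (X - C z))
    (hcs : s.card = g.natDegree) (q : ℕ) (hq : g.natDegree ≤ q) (ρ : k →+* A)
    (E : AlgebraicClosure k →+* A) (hE : ∀ y, E (algebraMap k (AlgebraicClosure k) y) = ρ y)
    (hgx : aeval x g ≠ 0) (N : ℝ) (hN : 0 < N)
    (hM : ‖ρ (F (Fin.last n) : k)‖ *
      ∏ σ : {σ : K →+* A // σ.comp (algebraMap k K) = ρ}, max 1 ‖σ.1 x‖ ≤ (n + 1) * N)
    (T : Finset k) (Cb : k → ℝ) (hCb : ∀ β, 0 < Cb β)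
    (hb : ∀ β, ‖E (val (algebraMap k (AlgebraicClosure k) β) 1 F)‖ ≤ Cb β * N)
    (hT : ∀ β ∈ T, val (algebraMap k (AlgebraicClosure k) β) 1 F ≠ 0) :
    ∑ σ : {σ : K →+* A // σ.comp (algebraMap k K) = ρ},
      -Real.log (‖σ.1 (aeval x g)‖ / max 1 ‖σ.1 x‖ ^ q) ≤
      (q * Real.log (n + 1) - n * Real.log ‖ρ g.leadingCoeff‖ + ∑ β ∈ T, Real.log (Cb β)) +
      ((∑ z ∈ s, (Real.log N - Real.log ‖E (val z 1 F)‖) +
        ((q - g.natDegree : ℕ) : ℝ) * (Real.log N - Real.log ‖E (val 1 0 F)‖)) +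
        ∑ β ∈ T, (Real.log N -
          Real.log ‖E (val (algebraMap k (AlgebraicClosure k) β) 1 F)‖)) := by
  have h1 := link_loc hF h g hg0 s hgs hcs q hq ρ E hE hgx N hN hM
  have h2 : 0 ≤ ∑ β ∈ T, Real.log (Cb β) + ∑ β ∈ T, (Real.log N -
      Real.log ‖E (val (algebraMap k (AlgebraicClosure k) β) 1 F)‖) := by
    rw [← Finset.sum_add_distrib]
    refine Finset.sum_nonneg fun β hβ => ?_
    have h3 : 0 < ‖E (val (algebraMap k (AlgebraicClosure k) β) 1 F)‖ := by
      rw [norm_pos_iff, Ne, map_eq_zero]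
      exact hT β hβ
    have h4 := Real.log_le_log h3 (hb β)
    rw [Real.log_mul (hCb β).ne' hN.ne'] at h4
    linarith
  linarith

/-- The values are not zero. -/
private theorem link_ne (hF : F ≠ 0) (h : RootOf F K x) (hn : 2 ≤ n) (g : k[X])
    (s : Finset (AlgebraicClosure k))
    (hgs : g.map (algebraMap k (AlgebraicClosure k)) =
      C (algebraMap k (AlgebraicClosure k) g.leadingCoeff) * ∏ z ∈ s, (X - C z)) (ρ : k →+* A)
    (E : AlgebraicClosure k →+* A) (hE : ∀ y, E (algebraMap k (AlgebraicClosure k) y) = ρ y)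
    (hgx : aeval x g ≠ 0) :
    (∀ z ∈ s, val z 1 F ≠ 0) ∧ val 1 0 F ≠ 0 ∧
      ∀ β : k, val (algebraMap k (AlgebraicClosure k) β) 1 F ≠ 0 := by
  have hFn : ‖ρ (F (Fin.last n) : k)‖ ≠ 0 := by
    rw [Ne, norm_eq_zero, map_eq_zero]
    exact fun h0 => AA.link_last hF h (RingOfIntegers.ext h0)
  refine ⟨fun z hz h0 => ?_, fun h0 => ?_, fun β h0 => ?_⟩
  · have h1 := link_val_one hF h ρ E hE z
    rw [h0, map_zero, norm_zero] at h1
    rcases mul_eq_zero.1 h1.symm with h2 | h2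
    · exact hFn h2
    · obtain ⟨σ, _, h3⟩ := Finset.prod_eq_zero_iff.1 h2
      have h4 := link_g (x := x) g s hgs ρ E hE σ.1 σ.2
      rw [Finset.prod_eq_zero hz h3, mul_zero, norm_eq_zero, map_eq_zero] at h4
      exact hgx h4
  · rw [link_val_inf, map_eq_zero] at h0
    exact AA.link_last hF h (RingOfIntegers.ext h0)
  · have h1 := link_val_one hF h ρ E hE (algebraMap k (AlgebraicClosure k) β)
    rw [h0, map_zero, norm_zero] at h1
    rcases mul_eq_zero.1 h1.symm with h2 | h2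
    · exact hFn h2
    · obtain ⟨σ, _, h3⟩ := Finset.prod_eq_zero_iff.1 h2
      have h4 : ρ β = σ.1 (algebraMap k K β) :=
        (congrArg (fun f : k →+* A => f β) σ.2).symm
      rw [hE, h4, norm_eq_zero, sub_eq_zero] at h3
      have h5 : algebraMap k K β = x := σ.1.injective h3
      have h6 : IntermediateField.adjoin k {x} = ⊥ := by
        rw [IntermediateField.adjoin_simple_eq_bot_iff, IntermediateField.mem_bot]
        exact ⟨β, h5⟩
      have h7 := h.deg
      have h8 : finrank k (⊤ : IntermediateField k K) = 1 := by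
        rw [← h.gen, h6, IntermediateField.finrank_bot]
      rw [IntermediateField.finrank_top', h7] at h8
      omega

end

section

variable {k : Type} [Field k] [NumberField k] {n : ℕ} {F : Fin (n + 1) → 𝓞 k}
  {K : Type} [Field K] [NumberField K] [Algebra k K] {x : K}

private theorem link_mahler (hF : F ≠ 0) (h : RootOf F K x) (ρ : k →+* ℂ) (N : ℝ)
    (hN : ∀ i, ‖ρ (F i : k)‖ ≤ N) : ‖ρ (F (Fin.last n) : k)‖ *
      ∏ σ : {σ : K →+* ℂ // σ.comp (algebraMap k K) = ρ}, max 1 ‖σ.1 x‖ ≤ (n + 1) * N := by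
  obtain ⟨e, he⟩ := exists_fibre_equiv hF h ρ
  have h1 := (mahler_le (fun i => ρ (F i : k)) _ (fun l => (e l).1 x) he).1
  have h2 := e.prod_comp fun σ : {σ : K →+* ℂ // σ.comp (algebraMap k K) = ρ} => max 1 ‖σ.1 x‖
  rw [h2] at h1
  exact h1.trans (mul_le_mul_of_nonneg_left
    ((pi_norm_le_iff_of_nonneg ((norm_nonneg _).trans (hN 0))).2 hN) (by positivity))

private theorem link_gauss (hF : F ≠ 0) (h : RootOf F K x) (p : ℕ) [Fact p.Prime]
    (ρ : k →+* ℂ_[p]) (N : ℝ) (hN : ∀ i, ‖ρ (F i : k)‖ ≤ N) : ‖ρ (F (Fin.last n) : k)‖ *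
      ∏ σ : {σ : K →+* ℂ_[p] // σ.comp (algebraMap k K) = ρ}, max 1 ‖σ.1 x‖ ≤ (n + 1) * N := by
  obtain ⟨e, he⟩ := exists_fibre_equiv hF h ρ
  have h1 := gauss_eq (fun i => ρ (F i : k)) _ (fun l => (e l).1 x) he
  have h2 := e.prod_comp fun σ : {σ : K →+* ℂ_[p] // σ.comp (algebraMap k K) = ρ} =>
    max 1 ‖σ.1 x‖
  rw [h2] at h1
  have hN0 : 0 ≤ N := (norm_nonneg _).trans (hN 0)
  rw [h1]
  refine ((pi_norm_le_iff_of_nonneg hN0).2 hN).trans ?_
  have h3 : (0 : ℝ) ≤ n * N := mul_nonneg (Nat.cast_nonneg _) hN0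
  linarith

end

section

variable {k : Type} [Field k] [NumberField k]

private theorem link_roots (g : k[X]) (hg : Squarefree g) :
    ∃ s : Finset (AlgebraicClosure k), g.map (algebraMap k (AlgebraicClosure k)) =
      C (algebraMap k (AlgebraicClosure k) g.leadingCoeff) * ∏ z ∈ s, (X - C z) ∧
      s.card = g.natDegree := by
  have hsep : g.Separable := PerfectField.separable_iff_squarefree.2 hg
  have hsp : (g.map (algebraMap k (AlgebraicClosure k))).Splits := IsAlgClosed.splits _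
  have hnd : (g.map (algebraMap k (AlgebraicClosure k))).roots.Nodup :=
    nodup_roots hsep.map
  have h1 := hsp.eq_prod_roots
  refine ⟨⟨_, hnd⟩, ?_, ?_⟩
  · rw [leadingCoeff_map] at h1
    exact h1
  · change Multiset.card _ = _
    rw [← hsp.natDegree_eq_card_roots, natDegree_map]

private theorem link_extra (g : k[X]) (hg0 : g ≠ 0) (m : ℕ) :
    ∃ T : Finset k, T.card = m ∧ ∀ β ∈ T, g.eval β ≠ 0 := by
  have h1 : {β : k | g.eval β ≠ 0}.Infinite := by
    have h2 : {β : k | g.eval β ≠ 0} = {β : k | g.eval β = 0}ᶜ := rfl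
    rw [h2]
    refine Set.Finite.infinite_compl ?_
    refine (g.roots.toFinset.finite_toSet).subset fun β hβ => ?_
    rw [Finset.mem_coe, Multiset.mem_toFinset, mem_roots hg0]
    exact hβ
  obtain ⟨T, hT, hc⟩ := h1.exists_subset_card_eq m
  exact ⟨T, hc, fun β hβ => hT hβ⟩

end

end

private theorem link_nfl_ge {k : Type} [Field k] {r : ℕ} {p : Fin r → ℕ}
    [∀ t, Fact (p t).Prime] (l : PlK k p) {n : ℕ} (F : Fin (n + 1) → 𝓞 k) (i : Fin (n + 1)) :
    vk l (F i : k) ≤ nfl l F :=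
  Finset.le_sup' (fun i => vk l (F i : k)) (Finset.mem_univ i)

private theorem link_VK_inl {k : Type} [Field k] {r : ℕ} {p : Fin r → ℕ}
    [∀ t, Fact (p t).Prime] (e : ExtK k p) (ρ : k →+* ℂ) (y : AlgebraicClosure k) :
    VK e (Sum.inl ρ) y = ‖e.E ρ y‖ := rfl

private theorem link_VK_inr {k : Type} [Field k] {r : ℕ} {p : Fin r → ℕ}
    [∀ t, Fact (p t).Prime] (e : ExtK k p) (t : Fin r) (ρ : k →+* ℂ_[p t])
    (y : AlgebraicClosure k) : VK e (Sum.inr ⟨t, ρ⟩) y = ‖e.E' t ρ y‖ := rfl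

private theorem link_vk_inl {k : Type} [Field k] {r : ℕ} {p : Fin r → ℕ}
    [∀ t, Fact (p t).Prime] (ρ : k →+* ℂ) (y : k) :
    vk (p := p) (Sum.inl ρ) y = ‖ρ y‖ := rfl

private theorem link_vk_inr {k : Type} [Field k] {r : ℕ} {p : Fin r → ℕ}
    [∀ t, Fact (p t).Prime] (t : Fin r) (ρ : k →+* ℂ_[p t]) (y : k) :
    vk (p := p) (Sum.inr ⟨t, ρ⟩) y = ‖ρ y‖ := rfl

private theorem link_bd_inl {k : Type} [Field k] {r : ℕ} {p : Fin r → ℕ}
    [∀ t, Fact (p t).Prime] (ρ : k →+* ℂ) {n : ℕ} (F : Fin (n + 1) → 𝓞 k) (i : Fin (n + 1)) :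
    ‖ρ (F i : k)‖ ≤ nfl (p := p) (Sum.inl ρ) F := by
  rw [← link_vk_inl (p := p)]
  exact link_nfl_ge _ F i

private theorem link_bd_inr {k : Type} [Field k] {r : ℕ} {p : Fin r → ℕ}
    [∀ t, Fact (p t).Prime] (t : Fin r) (ρ : k →+* ℂ_[p t]) {n : ℕ} (F : Fin (n + 1) → 𝓞 k)
    (i : Fin (n + 1)) : ‖ρ (F i : k)‖ ≤ nfl (p := p) (Sum.inr ⟨t, ρ⟩) F := by
  rw [← link_vk_inr (p := p)]
  exact link_nfl_ge _ F i

theorem exists_link {k : Type} [Field k] [NumberField k] {r : ℕ} {p : Fin r → ℕ}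
    [∀ t, Fact (p t).Prime] (e : ExtK k p) (g : k[X]) (hg : Squarefree g) (q : ℕ)
    (hq : q = g.natDegree ∨ q = g.natDegree + 1) (n : ℕ) (hn : 2 ≤ n) :
    ∃ (R : ℕ) (a b : Fin R → AlgebraicClosure k) (C : ℝ), 0 < C ∧ n + 1 ≤ R ∧
      (∀ i j, i ≠ j → a i * b j ≠ a j * b i) ∧
      ∀ (K : Type) [Field K] [NumberField K] [Algebra k K] (x : K),
        IntermediateField.adjoin k {x} = ⊤ → finrank k K = n → aeval x g ≠ 0 →
        ∃ F : Fin (n + 1) → 𝓞 k, F ≠ 0 ∧ RootOf F K x ∧ hs F ≤ C * Real.exp (n * SST.ht K x) ∧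
          (∀ j, val (a j) (b j) F ≠ 0) ∧
          finrank ℚ K * SST.proxK p g q K x ≤
            C + ∑ l : PlK k p, ∑ j, (Real.log (nfl l F) - Real.log (VK e l (val (a j) (b j) F))) := by
  classical
  have hg0 : g ≠ 0 := hg.ne_zero
  have hqd : g.natDegree ≤ q := by omega
  obtain ⟨s, hgs, hcs⟩ := link_roots g hg
  obtain ⟨T, hT, hTg⟩ := link_extra g hg0 (n + 1)
  obtain ⟨C₀, hC₀, hsup⟩ := exists_supMin k n
  have hbd : ∀ (l : PlK k p) (β : k), ∃ C : ℝ, 0 < C ∧ ∀ F : Fin (n + 1) → 𝓞 k,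
      VK e l (val (algebraMap k (AlgebraicClosure k) β) 1 F) ≤ C * nfl l F := by
    intro l β
    rcases l with ρ | ⟨t, ρ⟩
    · obtain ⟨C, hC, h⟩ := link_bd (n := n) ρ (e.E ρ) (e.hE ρ) (algebraMap k _ β) 1
      refine ⟨C, hC, fun F => ?_⟩
      rw [link_VK_inl]
      exact h F _ (link_bd_inl ρ F)
    · obtain ⟨C, hC, h⟩ := link_bd (n := n) ρ (e.E' t ρ) (e.hE' t ρ) (algebraMap k _ β) 1
      refine ⟨C, hC, fun F => ?_⟩
      rw [link_VK_inr]
      exact h F _ (link_bd_inr t ρ F)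
  choose Cb hCb hbd using hbd
  let ι : Type := (↥s ⊕ Fin (q - g.natDegree)) ⊕ ↥T
  let a' : ι → AlgebraicClosure k :=
    Sum.elim (Sum.elim (fun z => z.1) fun _ => 1) fun β => algebraMap k _ β.1
  let b' : ι → AlgebraicClosure k := Sum.elim (Sum.elim (fun _ => 1) fun _ => 0) fun _ => 1
  have hroot : ∀ z ∈ s, aeval z g = 0 := by
    intro z hz
    have h1 := congrArg (Polynomial.eval z) hgs
    rw [eval_mul, eval_prod, Finset.prod_eq_zero hz (by simp), mul_zero, eval_map_algebraMap]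
      at h1
    exact h1
  have hsT : ∀ z ∈ s, ∀ β ∈ T, z ≠ algebraMap k (AlgebraicClosure k) β := by
    rintro z hz β hβ rfl
    have h1 := hroot _ hz
    rw [aeval_algebraMap_apply, map_eq_zero, coe_aeval_eq_eval] at h1
    exact hTg β hβ h1
  have hab : ∀ i j : ι, i ≠ j → a' i * b' j ≠ a' j * b' i := by
    rintro ((i | i) | i) ((j | j) | j) hij
    · simp only [a', b', Sum.elim_inl, mul_one]
      exact fun h => hij (by rw [Subtype.ext h])
    · simp [a', b']
    · simp only [a', b', Sum.elim_inl, Sum.elim_inr, mul_one]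
      exact hsT _ i.2 _ j.2
    · simp [a', b']
    · exfalso
      apply hij
      congr 2
      have h1 := i.2
      have h2 := j.2
      exact Fin.ext (by omega)
    · simp [a', b']
    · simp only [a', b', Sum.elim_inl, Sum.elim_inr, mul_one]
      exact (hsT _ j.2 _ i.2).symm
    · simp [a', b']
    · simp only [a', b', Sum.elim_inr, mul_one]
      exact fun h => hij (by rw [Subtype.ext ((algebraMap k (AlgebraicClosure k)).injective h)])
  let eι : ι ≃ Fin (Fintype.card ι) := Fintype.equivFin ι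
  let c : PlK k p → ℝ := fun l => q * Real.log (n + 1) - n * Real.log (vk l g.leadingCoeff) +
    ∑ β ∈ T, Real.log (Cb l β)
  refine ⟨Fintype.card ι, a' ∘ eι.symm, b' ∘ eι.symm, max C₀ (∑ l, c l), lt_max_of_lt_left hC₀,
    ?_, ?_, ?_⟩
  · have h1 : Fintype.card ι = (s.card + (q - g.natDegree)) + T.card := by
      simp [ι]
    rw [h1, hT]
    omega
  · intro i j hij
    exact hab _ _ fun h => hij (eι.symm.injective h)
  · intro K _ _ _ x hx hnK hgx
    obtain ⟨F, hFs, hroot, hsF⟩ := hsup K x hx hnK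
    have hF : F ≠ 0 := hFs.1
    obtain ⟨ρ₀⟩ : Nonempty (k →+* ℂ) := inferInstance
    obtain ⟨hne1, hne2, hne3⟩ := link_ne hF hroot hn g s hgs ρ₀ (e.E ρ₀) (e.hE ρ₀) hgx
    refine ⟨F, hF, hroot, hsF.trans (mul_le_mul_of_nonneg_right (le_max_left _ _)
      (Real.exp_pos _).le), ?_, ?_⟩
    · intro j
      have h1 : ∀ i : ι, val (a' i) (b' i) F ≠ 0 := by
        rintro ((i | i) | i)
        · exact hne1 _ i.2
        · exact hne2
        · exact hne3 _
      exact h1 _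
    · have hnfl : ∀ l : PlK k p, 0 < nfl l F := by
        intro l
        refine lt_of_lt_of_le ?_ (link_nfl_ge l F (Fin.last n))
        rw [AbsoluteValue.pos_iff]
        exact fun h0 => AA.link_last hF hroot (RingOfIntegers.ext h0)
      have hX : ∀ l : PlK k p, ∑ j, (Real.log (nfl l F) -
          Real.log (VK e l (val ((a' ∘ eι.symm) j) ((b' ∘ eι.symm) j) F))) =
          (∑ z ∈ s, (Real.log (nfl l F) - Real.log (VK e l (val z 1 F))) +
          ((q - g.natDegree : ℕ) : ℝ) * (Real.log (nfl l F) - Real.log (VK e l (val 1 0 F)))) +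
          ∑ β ∈ T, (Real.log (nfl l F) -
            Real.log (VK e l (val (algebraMap k (AlgebraicClosure k) β) 1 F))) := by
        intro l
        simp only [Function.comp_apply]
        rw [eι.symm.sum_comp fun i => (Real.log (nfl l F) -
          Real.log (VK e l (val (a' i) (b' i) F)))]
        rw [Fintype.sum_sum_type, Fintype.sum_sum_type]
        simp only [a', b', Sum.elim_inl, Sum.elim_inr]
        rw [Finset.sum_const, Finset.card_univ, Fintype.card_fin, nsmul_eq_mul,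
          Finset.sum_coe_sort s fun z => (Real.log (nfl l F) - Real.log (VK e l (val z 1 F))),
          Finset.sum_coe_sort T fun β => (Real.log (nfl l F) -
            Real.log (VK e l (val (algebraMap k (AlgebraicClosure k) β) 1 F)))]
      have hinl : ∀ ρ : k →+* ℂ, ∑ σ : {σ : K →+* ℂ // σ.comp (algebraMap k K) = ρ},
          -Real.log (‖σ.1 (aeval x g)‖ / max 1 ‖σ.1 x‖ ^ q) ≤
          c (Sum.inl ρ) + ∑ j, (Real.log (nfl (p := p) (Sum.inl ρ) F) -
          Real.log (VK e (Sum.inl ρ) (val ((a' ∘ eι.symm) j) ((b' ∘ eι.symm) j) F))) := by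
        intro ρ
        have h1 := link_all hF hroot g hg0 s hgs hcs q hqd ρ (e.E ρ) (e.hE ρ) hgx
          (nfl (p := p) (Sum.inl ρ) F) (hnfl _) (link_mahler hF hroot ρ _ (link_bd_inl ρ F)) T
          (Cb (Sum.inl ρ)) (hCb _) (fun β => by
            rw [← link_VK_inl]
            exact hbd (Sum.inl ρ) β F) fun β _ => hne3 β
        simp only [← link_VK_inl] at h1
        rw [← link_vk_inl (p := p) ρ g.leadingCoeff] at h1
        rw [hX]
        exact h1
      have hinr : ∀ (t : Fin r) (ρ : k →+* ℂ_[p t]),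
          ∑ σ : {σ : K →+* ℂ_[p t] // σ.comp (algebraMap k K) = ρ},
          -Real.log (‖σ.1 (aeval x g)‖ / max 1 ‖σ.1 x‖ ^ q) ≤
          c (Sum.inr ⟨t, ρ⟩) + ∑ j, (Real.log (nfl (p := p) (Sum.inr ⟨t, ρ⟩) F) -
          Real.log (VK e (Sum.inr ⟨t, ρ⟩) (val ((a' ∘ eι.symm) j) ((b' ∘ eι.symm) j) F))) := by
        intro t ρ
        have h1 := link_all hF hroot g hg0 s hgs hcs q hqd ρ (e.E' t ρ) (e.hE' t ρ) hgx
          (nfl (p := p) (Sum.inr ⟨t, ρ⟩) F) (hnfl _) (link_gauss hF hroot (p t) ρ _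
          (link_bd_inr t ρ F)) T (Cb (Sum.inr ⟨t, ρ⟩)) (hCb _) (fun β => by
            rw [← link_VK_inr]
            exact hbd (Sum.inr ⟨t, ρ⟩) β F) fun β _ => hne3 β
        simp only [← link_VK_inr] at h1
        rw [← link_vk_inr (p := p) t ρ g.leadingCoeff] at h1
        rw [hX]
        exact h1
      have hfr : (finrank ℚ K : ℝ) ≠ 0 := by
        have := finrank_pos (R := ℚ) (M := K)
        positivity
      unfold SST.proxK
      rw [mul_div_cancel₀ _ hfr]
      have hc : ∑ l, c l ≤ max C₀ (∑ l, c l) := le_max_right _ _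
      refine le_trans ?_ (add_le_add_left hc _)
      rw [← Finset.sum_add_distrib, Fintype.sum_sum_type, Fintype.sum_sigma]
      refine add_le_add ?_ (Finset.sum_le_sum fun t _ => ?_)
      · rw [← Fintype.sum_fiberwise (fun σ : K →+* ℂ => σ.comp (algebraMap k K))]
        exact Finset.sum_le_sum fun ρ _ => hinl ρ
      · rw [← Fintype.sum_fiberwise (fun σ : K →+* ℂ_[p t] => σ.comp (algebraMap k K))]
        exact Finset.sum_le_sum fun ρ _ => hinr t ρ

end Pool.Agent.AAS
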