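import Pool.Agent.AAS.LowTrans
import Pool.Agent.AASL.LowerIrr

/-!
# The lower bound for divisors with a suitable subdivisor
-/

set_option autoImplicit false

open Polynomial NumberField IntermediateField Module Pool.Agent.AA

namespace Pool.Agent.AAS

/-- The lower bound if the divisor contains a closed point of degree at least `3`. -/
theorem lower_pt (k : Type) [Field k] [NumberField k] {r : ℕ} (p : Fin r → ℕ)
    [∀ t, Fact (p t).Prime] (hp : Function.Injective p) (g : k[X]) (hg : Squarefree g) (q : ℕ)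
    (hq : q = g.natDegree ∨ q = g.natDegree + 1) (n : ℕ) (hn : 2 ≤ n) (g' : k[X]) (hdvd : g' ∣ g)
    (hirr : Irreducible g') (hq3 : 3 ≤ g'.natDegree) (δ η : ℝ) (hδ : 0 ≤ δ)
    (hδ1 : δ < 1) (hδ2 : n = 2 → δ < 1 / 2) (hη : 0 < η) : ∃ c B₀ : ℝ, 0 < c ∧ ∀ B : ℝ, B₀ ≤ B →
    ∃ S : Finset (AlgebraicClosure k), c * B ^ ((n : ℝ) - 1 - δ - η) ≤ (S.card : ℝ) ∧
      ∀ x ∈ S, finrank k (IntermediateField.adjoin k {x}) = n ∧ relHeight x ≤ B ∧
        aeval x g ≠ 0 ∧ (2 + δ) * height x ≤ proximity p g q x := by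
  have hg0 : g ≠ 0 := hg.ne_zero
  have hn2 : (2 : ℝ) ≤ n := by exact_mod_cast hn
  have hq3r : (3 : ℝ) ≤ (g'.natDegree : ℝ) := by exact_mod_cast hq3
  by_cases hqn : g'.natDegree ≤ n
  · exact lower_sub k p hp g hg q hq n g' hdvd g'.natDegree (Or.inl rfl) hq3 hqn δ η hδ
      (by linarith) hη
  · have hqq : g.natDegree + g'.natDegree ≤ q + g'.natDegree := by
      rcases hq with h3 | h3 <;> omega
    by_cases hn3 : n = 2
    · refine lower_transfer k p g hg0 q n g' hdvd g'.natDegree hqq (1 / 2) (by linarith)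
        (fun δ' η' h1 h2 h3 => ?_) δ η hδ (hδ2 hn3) hη
      exact AASL.lower_irr k p hp g' hirr hq3 n hn (by omega) δ' η' h1 (by linarith)
        (fun _ => h2) h3
    · refine lower_transfer k p g hg0 q n g' hdvd g'.natDegree hqq 1 (by linarith)
        (fun δ' η' h1 h2 h3 => ?_) δ η hδ hδ1 hη
      exact AASL.lower_irr k p hp g' hirr hq3 n hn (by omega) δ' η' h1 h2
        (fun h => absurd h hn3) h3

/-- The lower bound for all divisors of degree at least `3` if `n ≥ 4`. -/
theorem lower_four (k : Type) [Field k] [NumberField k] {r : ℕ} (p : Fin r → ℕ)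
    [∀ t, Fact (p t).Prime] (hp : Function.Injective p) (g : k[X]) (hg : Squarefree g) (q : ℕ)
    (hq : q = g.natDegree ∨ q = g.natDegree + 1) (hq3 : 3 ≤ q) (n : ℕ) (hn : 4 ≤ n) (δ η : ℝ)
    (hδ : 0 ≤ δ) (hδ1 : δ < 1) (hη : 0 < η) : ∃ c B₀ : ℝ, 0 < c ∧ ∀ B : ℝ, B₀ ≤ B →
    ∃ S : Finset (AlgebraicClosure k), c * B ^ ((n : ℝ) - 1 - δ - η) ≤ (S.card : ℝ) ∧
      ∀ x ∈ S, finrank k (IntermediateField.adjoin k {x}) = n ∧ relHeight x ≤ B ∧
        aeval x g ≠ 0 ∧ (2 + δ) * height x ≤ proximity p g q x := by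
  -- the point at infinity counts if it lies in the divisor
  obtain ⟨e, he⟩ : ∃ e : ℕ, q = g.natDegree + e ∧ e ≤ 1 := by
    rcases hq with h | h
    · exact ⟨0, by omega⟩
    · exact ⟨1, by omega⟩
  -- a minimal subdivisor of degree at least `3`
  have key : ∀ m : ℕ, ∀ g' : k[X], g' ∣ g → g'.natDegree + e = m → 3 ≤ m →
      ((∃ h : k[X], h ∣ g ∧ 3 ≤ h.natDegree + e ∧ h.natDegree + e ≤ 4) ∨
        ∃ h : k[X], h ∣ g ∧ Irreducible h ∧ 3 ≤ h.natDegree) := by
    intro m
    induction m using Nat.strong_induction_on with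
    | _ m ih =>
      intro g' hdvd hm hm3
      by_cases hm4 : m ≤ 4
      · exact Or.inl ⟨g', hdvd, by omega, by omega⟩
      · have hg'0 : g' ≠ 0 := ne_zero_of_dvd_ne_zero hg.ne_zero hdvd
        have hdeg : 0 < g'.natDegree := by omega
        obtain ⟨h, hirr, hh⟩ := WfDvdMonoid.exists_irreducible_factor
          (fun hu => by rw [natDegree_eq_zero_of_isUnit hu] at hdeg; omega) hg'0
        by_cases h3 : 3 ≤ h.natDegree
        · exact Or.inr ⟨h, hh.trans hdvd, hirr, h3⟩
        · obtain ⟨f, hf⟩ := hh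
          have hf0 : f ≠ 0 := by
            rintro rfl
            exact hg'0 (by rw [hf, mul_zero])
          have h1 : g'.natDegree = h.natDegree + f.natDegree := by
            rw [hf, natDegree_mul hirr.ne_zero hf0]
          have h2 : 0 < h.natDegree := hirr.natDegree_pos
          exact ih (f.natDegree + e) (by omega) f
            ((Dvd.intro_left h hf.symm).trans hdvd) rfl (by omega)
  rcases key q g dvd_rfl he.1.symm hq3 with ⟨h, h1, h2, h3⟩ | ⟨h, h1, h2, h3⟩
  · have h4 : (3 : ℝ) ≤ ((h.natDegree + e : ℕ) : ℝ) := by exact_mod_cast h2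
    refine lower_sub k p hp g hg q hq n h h1 (h.natDegree + e) ?_ h2 (by omega) δ η hδ
      (by linarith) hη
    rcases Nat.le_one_iff_eq_zero_or_eq_one.1 he.2 with h5 | h5
    · exact Or.inl (by omega)
    · exact Or.inr (by omega)
  · exact lower_pt k p hp g hg q hq n (by omega) h h1 h2 h3 δ η hδ hδ1 (by omega) hη

end Pool.Agent.AAS
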