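import Pool.Agent.AA.Defs
import Mathlib

/-!
# The proximity function of a subdivisor
-/

set_option autoImplicit false

open Polynomial NumberField IntermediateField Module Pool.Agent.AA

namespace Pool.Agent.AAS

/-- the sum of the absolute values of the coefficients -/
private noncomputable def cs {k A : Type} [Field k] [NormedField A] (g : k[X]) (ρ : k →+* A) : ℝ :=
  ∑ i ∈ Finset.range (g.natDegree + 1), ‖ρ (g.coeff i)‖

private theorem cs_nonneg {k A : Type} [Field k] [NormedField A] (g : k[X]) (ρ : k →+* A) :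
    0 ≤ cs g ρ := Finset.sum_nonneg fun _ _ => norm_nonneg _

private theorem norm_aeval_le {k K A : Type} [Field k] [Field K] [Algebra k K] [NormedField A]
    (g : k[X]) (σ : K →+* A) (x : K) :
    ‖σ (aeval x g)‖ ≤ cs g (σ.comp (algebraMap k K)) * max 1 ‖σ x‖ ^ g.natDegree := by
  have h1 : σ (aeval x g) = ∑ i ∈ Finset.range (g.natDegree + 1),
      (σ.comp (algebraMap k K)) (g.coeff i) * (σ x) ^ i := by
    rw [aeval_def, hom_eval₂, eval₂_eq_sum_range]
  rw [h1]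
  refine (norm_sum_le _ _).trans ?_
  unfold cs
  rw [Finset.sum_mul]
  refine Finset.sum_le_sum fun i hi => ?_
  rw [norm_mul, norm_pow]
  refine mul_le_mul_of_nonneg_left ?_ (norm_nonneg _)
  have h2 : i ≤ g.natDegree := by
    have := Finset.mem_range.1 hi
    omega
  exact (pow_le_pow_left₀ (norm_nonneg _) (le_max_right _ _) i).trans
    (pow_le_pow_right₀ (le_max_left _ _) h2)

private theorem term_le {k K A : Type} [Field k] [Field K] [Algebra k K] [NormedField A]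
    (g₁ g₂ : k[X]) (q q' : ℕ) (h : g₂.natDegree + q' ≤ q) (σ : K →+* A) (x : K)
    (h1 : aeval x g₁ ≠ 0) (h2 : aeval x g₂ ≠ 0) (C : ℝ)
    (hC : cs g₂ (σ.comp (algebraMap k K)) ≤ C) (hC0 : 0 < C) :
    -Real.log (‖σ (aeval x g₁)‖ / max 1 ‖σ x‖ ^ q') ≤
      -Real.log (‖σ (aeval x (g₁ * g₂))‖ / max 1 ‖σ x‖ ^ q) + Real.log C := by
  have hM : 0 < max 1 ‖σ x‖ := lt_of_lt_of_le one_pos (le_max_left _ _)
  have hM1 : 1 ≤ max 1 ‖σ x‖ := le_max_left _ _
  have e1 : 0 < ‖σ (aeval x g₁)‖ := by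
    rw [norm_pos_iff, Ne, map_eq_zero]
    exact h1
  have e2 : 0 < ‖σ (aeval x g₂)‖ := by
    rw [norm_pos_iff, Ne, map_eq_zero]
    exact h2
  rw [map_mul, map_mul, norm_mul, Real.log_div e1.ne' (pow_pos hM _).ne',
    Real.log_div (mul_pos e1 e2).ne' (pow_pos hM _).ne', Real.log_mul e1.ne' e2.ne', Real.log_pow,
    Real.log_pow]
  have h3 := norm_aeval_le g₂ σ x
  have h4 : Real.log ‖σ (aeval x g₂)‖ ≤ Real.log C + g₂.natDegree * Real.log (max 1 ‖σ x‖) := by
    rw [← Real.log_pow, ← Real.log_mul hC0.ne' (pow_pos hM _).ne']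
    exact Real.log_le_log e2 (h3.trans (mul_le_mul_of_nonneg_right hC (pow_pos hM _).le))
  have h5 : 0 ≤ Real.log (max 1 ‖σ x‖) := Real.log_nonneg hM1
  have h6 : (g₂.natDegree : ℝ) + q' ≤ q := by exact_mod_cast h
  nlinarith

/-- The proximity function of a subdivisor is smaller, up to a constant. -/
theorem prox_mono (k : Type) [Field k] [NumberField k] {r : ℕ} (p : Fin r → ℕ)
    [∀ t, Fact (p t).Prime] (g g' : k[X]) (hdvd : g' ∣ g) (q q' : ℕ)
    (h : g.natDegree + q' ≤ q + g'.natDegree) :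
    ∃ C : ℝ, ∀ x : AlgebraicClosure k, aeval x g ≠ 0 →
      proximity p g' q' x ≤ proximity p g q x + C := by
  classical
  obtain ⟨g₂, rfl⟩ := hdvd
  set C₀ : ℝ := 1 + (∑ ρ : k →+* ℂ, cs g₂ ρ) + ∑ t, ∑ ρ : k →+* ℂ_[p t], cs g₂ ρ with hC₀
  have hs1 : 0 ≤ ∑ ρ : k →+* ℂ, cs g₂ ρ := Finset.sum_nonneg fun ρ _ => cs_nonneg _ _
  have hs2 : 0 ≤ ∑ t, ∑ ρ : k →+* ℂ_[p t], cs g₂ ρ :=
    Finset.sum_nonneg fun t _ => Finset.sum_nonneg fun ρ _ => cs_nonneg _ _
  have hC1 : 1 ≤ C₀ := by linarith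
  have hC0 : 0 < C₀ := by linarith
  refine ⟨(1 + r) * Real.log C₀, fun x hx => ?_⟩
  have hg0 : g' * g₂ ≠ 0 := by
    intro h0
    rw [h0] at hx
    exact hx (map_zero _)
  have hdeg : (g' * g₂).natDegree = g'.natDegree + g₂.natDegree :=
    natDegree_mul (left_ne_zero_of_mul hg0) (right_ne_zero_of_mul hg0)
  have hqq : g₂.natDegree + q' ≤ q := by omega
  unfold proximity SST.proxK
  set K := IntermediateField.adjoin k {x} with hK
  set y : K := AdjoinSimple.gen k x with hy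
  have hxy : ∀ f : k[X], algebraMap K (AlgebraicClosure k) (aeval y f) = aeval x f := by
    intro f
    rw [← aeval_algebraMap_apply, hy, AdjoinSimple.algebraMap_gen]
  have h1 : aeval y g' ≠ 0 := by
    intro h0
    apply hx
    rw [map_mul, ← hxy g', h0, map_zero, zero_mul]
  have h2 : aeval y g₂ ≠ 0 := by
    intro h0
    apply hx
    rw [map_mul, ← hxy g₂, h0, map_zero, mul_zero]
  have hN : (0 : ℝ) < finrank ℚ K := by exact_mod_cast finrank_pos
  rw [← sub_le_iff_le_add', ← sub_div, div_le_iff₀ hN]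
  have hc : ∀ σ : K →+* ℂ, cs g₂ (σ.comp (algebraMap k K)) ≤ C₀ := by
    intro σ
    have := Finset.single_le_sum (f := fun ρ : k →+* ℂ => cs g₂ ρ) (fun ρ _ => cs_nonneg _ _)
      (Finset.mem_univ (σ.comp (algebraMap k K)))
    linarith
  have hcp : ∀ t, ∀ σ : K →+* ℂ_[p t], cs g₂ (σ.comp (algebraMap k K)) ≤ C₀ := by
    intro t σ
    have h3 := Finset.single_le_sum (f := fun ρ : k →+* ℂ_[p t] => cs g₂ ρ)
      (fun ρ _ => cs_nonneg _ _) (Finset.mem_univ (σ.comp (algebraMap k K)))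
    have h4 := Finset.single_le_sum (f := fun t => ∑ ρ : k →+* ℂ_[p t], cs g₂ ρ)
      (fun t _ => Finset.sum_nonneg fun ρ _ => cs_nonneg _ _) (Finset.mem_univ t)
    linarith
  have e1 : ∑ σ : K →+* ℂ, -Real.log (‖σ (aeval y g')‖ / max 1 ‖σ y‖ ^ q') ≤
      (∑ σ : K →+* ℂ, -Real.log (‖σ (aeval y (g' * g₂))‖ / max 1 ‖σ y‖ ^ q)) +
        finrank ℚ K * Real.log C₀ := by
    have : (finrank ℚ K : ℝ) * Real.log C₀ = ∑ _σ : K →+* ℂ, Real.log C₀ := by
      rw [Finset.sum_const, Finset.card_univ, Embeddings.card, nsmul_eq_mul]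
    rw [this, ← Finset.sum_add_distrib]
    exact Finset.sum_le_sum fun σ _ => term_le g' g₂ q q' hqq σ y h1 h2 C₀ (hc σ) hC0
  have e2 : ∑ t, ∑ σ : K →+* ℂ_[p t], -Real.log (‖σ (aeval y g')‖ / max 1 ‖σ y‖ ^ q') ≤
      (∑ t, ∑ σ : K →+* ℂ_[p t], -Real.log (‖σ (aeval y (g' * g₂))‖ / max 1 ‖σ y‖ ^ q)) +
        r * (finrank ℚ K * Real.log C₀) := by
    have : (r : ℝ) * (finrank ℚ K * Real.log C₀) =
        ∑ t : Fin r, ∑ _σ : K →+* ℂ_[p t], Real.log C₀ := by
      have h5 : ∀ t : Fin r, ∑ _σ : K →+* ℂ_[p t], Real.log C₀ = finrank ℚ K * Real.log C₀ := by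
        intro t
        rw [Finset.sum_const, Finset.card_univ, Embeddings.card, nsmul_eq_mul]
      rw [Finset.sum_congr rfl fun t _ => h5 t, Finset.sum_const, Finset.card_univ,
        Fintype.card_fin, nsmul_eq_mul]
    rw [this, ← Finset.sum_add_distrib]
    refine Finset.sum_le_sum fun t _ => ?_
    rw [← Finset.sum_add_distrib]
    exact Finset.sum_le_sum fun σ _ => term_le g' g₂ q q' hqq σ y h1 h2 C₀ (hcp t σ) hC0
  have e3 : (1 + (r : ℝ)) * Real.log C₀ * finrank ℚ K =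
      finrank ℚ K * Real.log C₀ + r * (finrank ℚ K * Real.log C₀) := by ring
  rw [e3]
  linarith

end Pool.Agent.AAS
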