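import Pool.Agent.AA.NearCount
import Pool.Agent.AAL.LowerG
import Pool.Agent.AAS.Mono

/-!
# The lower bound for divisors with a suitable subdivisor: transfer
-/

set_option autoImplicit false

open Polynomial NumberField IntermediateField Module Pool.Agent.AA

namespace Pool.Agent.AAS

/-- Northcott's theorem -/
theorem finite_points (k : Type) [Field k] [NumberField k] (n : ℕ) (B : ℝ) :
    {x : AlgebraicClosure k | finrank k (IntermediateField.adjoin k {x}) = n ∧
      relHeight x ≤ B}.Finite := by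
  classical
  have hp : ∀ t : Fin 0, Fact (Fin.elim0 t : ℕ).Prime := fun t => Fin.elim0 t
  obtain ⟨C, hC⟩ := near_count k (fun t : Fin 0 => (Fin.elim0 t : ℕ))
    (fun t => Fin.elim0 t) (1 : k[X]) squarefree_one 0 (Or.inl natDegree_one.symm) n (by omega) 0 1
    (by simp) one_pos
  refine (hC (max 1 B) (le_max_left _ _)).1.subset ?_
  rintro x ⟨h1, h2⟩
  refine ⟨h1, h2.trans (le_max_right _ _), ?_, ?_⟩
  · rw [map_one]
    exact one_ne_zero
  · rw [zero_mul]
    unfold proximity SST.proxK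
    simp

/-- The lower bound for a subdivisor gives the lower bound for the divisor. -/
theorem lower_transfer (k : Type) [Field k] [NumberField k] {r : ℕ} (p : Fin r → ℕ)
    [∀ t, Fact (p t).Prime] (g : k[X]) (hg0 : g ≠ 0) (q : ℕ) (n : ℕ) (g' : k[X]) (hdvd : g' ∣ g)
    (q' : ℕ) (hqq : g.natDegree + q' ≤ q + g'.natDegree) (m : ℝ) (hm : m ≤ n - 1)
    (hlow : ∀ δ η : ℝ, 0 ≤ δ → δ < m → 0 < η → ∃ c B₀ : ℝ, 0 < c ∧ ∀ B : ℝ, B₀ ≤ B →
      ∃ S : Finset (AlgebraicClosure k), c * B ^ ((n : ℝ) - 1 - δ - η) ≤ (S.card : ℝ) ∧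
        ∀ x ∈ S, finrank k (IntermediateField.adjoin k {x}) = n ∧ relHeight x ≤ B ∧
          aeval x g' ≠ 0 ∧ (2 + δ) * height x ≤ proximity p g' q' x)
    (δ η : ℝ) (hδ : 0 ≤ δ) (hδm : δ < m) (hη : 0 < η) :
    ∃ c B₀ : ℝ, 0 < c ∧ ∀ B : ℝ, B₀ ≤ B →
    ∃ S : Finset (AlgebraicClosure k), c * B ^ ((n : ℝ) - 1 - δ - η) ≤ (S.card : ℝ) ∧
      ∀ x ∈ S, finrank k (IntermediateField.adjoin k {x}) = n ∧ relHeight x ≤ B ∧
        aeval x g ≠ 0 ∧ (2 + δ) * height x ≤ proximity p g q x := by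
  classical
  -- a slightly larger exponent
  set η₁ : ℝ := min η ((m - δ) / 2) with hη₁
  have hη0 : 0 < η₁ := lt_min hη (by linarith)
  have hη2 : η₁ ≤ η := min_le_left _ _
  have hη3 : η₁ ≤ (m - δ) / 2 := min_le_right _ _
  set δ' : ℝ := δ + η₁ / 2 with hδ'
  have hd1 : δ < δ' := by rw [hδ']; linarith
  have hd2 : δ' < m := by rw [hδ']; linarith
  obtain ⟨c, B₀, hc, hS⟩ := hlow δ' (η₁ / 2) (by linarith) hd2 (by linarith)
  obtain ⟨C, hC⟩ := prox_mono k p g g' hdvd q q' hqq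
  -- the exceptions
  set H₀ : ℝ := |C| / (δ' - δ) with hH₀
  have hfin : ({x : AlgebraicClosure k | finrank k (IntermediateField.adjoin k {x}) = n ∧
      relHeight x ≤ Real.exp ((finrank ℚ k * n : ℕ) * H₀)} ∪
      {x : AlgebraicClosure k | aeval x g = 0}).Finite := by
    refine (finite_points k n _).union ?_
    refine Set.Finite.subset (Finset.finite_toSet
      (g.map (algebraMap k (AlgebraicClosure k))).roots.toFinset) fun x hx => ?_
    rw [Finset.mem_coe, Multiset.mem_toFinset, mem_roots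
      (map_ne_zero hg0), IsRoot.def, eval_map_algebraMap]
    exact hx
  set T : Finset (AlgebraicClosure k) := hfin.toFinset with hT
  set E : ℝ := (n : ℝ) - 1 - δ' - η₁ / 2 with hE
  have hE0 : 0 < E := by rw [hE, hδ']; linarith
  have hEE : (n : ℝ) - 1 - δ - η ≤ E := by rw [hE, hδ']; linarith
  have htend := (tendsto_rpow_atTop hE0).eventually_ge_atTop (2 * T.card / c)
  obtain ⟨B₁, hB₁⟩ := Filter.eventually_atTop.1 htend
  refine ⟨c / 2, max (max B₀ B₁) 1, by linarith, fun B hB => ?_⟩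
  have hBB₀ : B₀ ≤ B := ((le_max_left _ _).trans (le_max_left _ _)).trans hB
  have hBB₁ : B₁ ≤ B := ((le_max_right _ _).trans (le_max_left _ _)).trans hB
  have hB1 : 1 ≤ B := (le_max_right _ _).trans hB
  obtain ⟨S, hcard, hSx⟩ := hS B hBB₀
  refine ⟨S \ T, ?_, fun x hx => ?_⟩
  · have h1 : B ^ ((n : ℝ) - 1 - δ - η) ≤ B ^ E := Real.rpow_le_rpow_of_exponent_le hB1 hEE
    have h2 := hB₁ B hBB₁
    rw [div_le_iff₀ hc] at h2
    have h3 : (S.card : ℝ) - T.card ≤ ((S \ T).card : ℝ) := by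
      have h4 := Finset.le_card_sdiff T S
      have h5 : S.card ≤ (S \ T).card + T.card := by omega
      have h6 : (S.card : ℝ) ≤ (S \ T).card + T.card := by exact_mod_cast h5
      linarith
    have h7 : c / 2 * B ^ ((n : ℝ) - 1 - δ - η) ≤ c / 2 * B ^ E :=
      mul_le_mul_of_nonneg_left h1 (by linarith)
    linarith
  · obtain ⟨hxS, hxT⟩ := Finset.mem_sdiff.1 hx
    obtain ⟨h1, h2, h3, h4⟩ := hSx x hxS
    rw [hT, Set.Finite.mem_toFinset, Set.mem_union, not_or] at hxT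
    obtain ⟨h5, h6⟩ := hxT
    have hxg : aeval x g ≠ 0 := h6
    refine ⟨h1, h2, hxg, ?_⟩
    have h7 := hC x hxg
    -- the height is large
    have h8 : H₀ ≤ height x := by
      by_contra hcon
      push Not at hcon
      apply h5
      refine ⟨h1, ?_⟩
      rw [UpperAux.relHeight_eq, Real.exp_le_exp]
      have h9 : finrank ℚ (IntermediateField.adjoin k {x}) = finrank ℚ k * n := by
        rw [← h1, finrank_mul_finrank ℚ k (IntermediateField.adjoin k {x})]
      rw [h9]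
      exact mul_le_mul_of_nonneg_left hcon.le (Nat.cast_nonneg _)
    have h9 : |C| ≤ (δ' - δ) * height x := by
      rw [hH₀, div_le_iff₀ (by linarith)] at h8
      linarith
    have h10 := le_abs_self C
    nlinarith

theorem lower_sub (k : Type) [Field k] [NumberField k] {r : ℕ} (p : Fin r → ℕ)
    [∀ t, Fact (p t).Prime] (hp : Function.Injective p) (g : k[X]) (hg : Squarefree g) (q : ℕ)
    (hq : q = g.natDegree ∨ q = g.natDegree + 1) (n : ℕ) (g' : k[X]) (hdvd : g' ∣ g)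
    (q' : ℕ) (hq' : q' = g'.natDegree ∨ q' = g'.natDegree + 1 ∧ q = g.natDegree + 1)
    (hq3 : 3 ≤ q') (hqn : q' ≤ n) (δ η : ℝ) (hδ : 0 ≤ δ)
    (hδ1 : δ < q' - 2) (hη : 0 < η) : ∃ c B₀ : ℝ, 0 < c ∧ ∀ B : ℝ, B₀ ≤ B →
    ∃ S : Finset (AlgebraicClosure k), c * B ^ ((n : ℝ) - 1 - δ - η) ≤ (S.card : ℝ) ∧
      ∀ x ∈ S, finrank k (IntermediateField.adjoin k {x}) = n ∧ relHeight x ≤ B ∧
        aeval x g ≠ 0 ∧ (2 + δ) * height x ≤ proximity p g q x := by
  have hg0 : g ≠ 0 := hg.ne_zero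
  have hg' : Squarefree g' := hg.squarefree_of_dvd hdvd
  have hdeg : g'.natDegree ≤ g.natDegree := natDegree_le_of_dvd hdvd hg0
  have hqnr : (q' : ℝ) ≤ n := by exact_mod_cast hqn
  refine lower_transfer k p g hg0 q n g' hdvd q' (by
    rcases hq' with h1 | ⟨h1, h2⟩ <;> rcases hq with h3 | h3 <;> omega) (q' - 2) (by linarith)
    (fun δ' η' h1 h2 h3 => AAL.lower_gen k p hp g' hg' q' (hq'.imp_right And.left) hq3 n hqn δ' η'
      h1 h2 h3) δ η hδ hδ1 hη

end Pool.Agent.AAS
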