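import Pool.Agent.AAS.Defs

/-!
# Sorting and the sum of the weights
-/

set_option autoImplicit false

open NumberField Module Pool.Agent.SST

namespace Pool.Agent.AAS

theorem exists_sort {R n : ℕ} (hn : n + 1 ≤ R) (E : Fin R → ℝ) :
    ∃ J : Fin (n + 1) → Fin R, Function.Injective J ∧ Antitone (fun i => E (J i)) ∧
      ∀ j, (∀ i, J i ≠ j) → E j ≤ E (J (Fin.last n)) := by
  set σ := Tuple.sort (fun i => -E i) with hσ
  have hmono : Monotone (fun i => -E (σ i)) := Tuple.monotone_sort (fun i => -E i)
  refine ⟨fun i => σ (Fin.castLE hn i), ?_, ?_, ?_⟩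
  · intro i j hij
    exact Fin.castLE_injective hn (σ.injective hij)
  · intro i j hij
    have h := hmono (show Fin.castLE hn i ≤ Fin.castLE hn j from hij)
    simp only at h ⊢
    linarith
  · intro j hj
    obtain ⟨s, rfl⟩ := σ.surjective j
    have h1 : Fin.castLE hn (Fin.last n) ≤ s := by
      rw [Fin.le_def]
      simp only [Fin.val_castLE, Fin.val_last]
      by_contra hcon
      push Not at hcon
      apply hj ⟨s, by omega⟩
      congr 1
    have h := hmono h1
    simp only at h
    linarith

theorem sum_wt {k : Type} [Field k] [NumberField k] {r : ℕ} {p : Fin r → ℕ}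
    [∀ t, Fact (p t).Prime] : ∑ l : PlK k p, wt l = 1 := by
  have h : ∑ l : PlK k p, wt l = ∑ _x : (k →+* ℂ), (1 / (finrank ℚ k : ℝ)) := by
    rw [Fintype.sum_sum_type]
    have h1 : ∀ x, (wt (Sum.inr x : PlK k p) : ℝ) = 0 := fun _ => rfl
    simp only [h1, Finset.sum_const_zero, add_zero]
    rfl
  rw [h, Finset.sum_const, Finset.card_univ, NumberField.Embeddings.card k ℂ, nsmul_eq_mul]
  have h2 : (finrank ℚ k : ℝ) ≠ 0 := by
    have h3 : 0 < finrank ℚ k := finrank_pos
    positivity
  field_simp

end Pool.Agent.AAS
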