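import Pool.Agent.AA.Upper

/-!
# The upper bound for the number of all violators, from the bound for the points near the divisor
-/

set_option autoImplicit false

open NumberField Module Polynomial

namespace Pool.Agent.AAS

private theorem viol_union {Ω : Type} (V V₁ V₂ : Set Ω) (h : V ⊆ V₁ ∪ V₂) (h₁ : V₁.Finite)
    (h₂ : V₂.Finite) (a b : ℝ) (ha : (V₁.ncard : ℝ) ≤ a) (hb : (V₂.ncard : ℝ) ≤ b) :
    V.Finite ∧ (V.ncard : ℝ) ≤ a + b := by
  refine ⟨(h₁.union h₂).subset h, ?_⟩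
  have h3 := (Set.ncard_le_ncard h (h₁.union h₂)).trans (Set.ncard_union_le V₁ V₂)
  have h4 : (V.ncard : ℝ) ≤ V₁.ncard + V₂.ncard := by exact_mod_cast h3
  linarith

/-- `near_count_gen` implies `viol_gen`. -/
theorem viol_of_near (k : Type) [Field k] [NumberField k] {r : ℕ} (p : Fin r → ℕ)
    [∀ t, Fact (p t).Prime] (hp : Function.Injective p) (g : k[X]) (hg : Squarefree g) (q : ℕ)
    (hq : q = g.natDegree ∨ q = g.natDegree + 1) (n : ℕ) (hn : 2 ≤ n) (ε η : ℝ) (hε : 0 < ε)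
    (hη : 0 < η)
    (hnear : ∀ β : ℝ, 0 ≤ β → β ≤ 4 → β ≤ 2 * ((n : ℝ) - 1) → ∃ C : ℝ, ∀ B : ℝ, 1 ≤ B →
      {x : AlgebraicClosure k | finrank k (IntermediateField.adjoin k {x}) = n ∧
        AA.relHeight x ≤ B ∧ aeval x g ≠ 0 ∧
        (2 + β) * AA.height x ≤ AA.proximity p g q x}.Finite ∧
      ({x : AlgebraicClosure k | finrank k (IntermediateField.adjoin k {x}) = n ∧
        AA.relHeight x ≤ B ∧ aeval x g ≠ 0 ∧
        (2 + β) * AA.height x ≤ AA.proximity p g q x}.ncard : ℝ) ≤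
        C * B ^ ((n : ℝ) - 1 - β / 2 + η)) : ∃ C : ℝ, ∀ B : ℝ, 1 ≤ B →
    {x : AlgebraicClosure k | finrank k (IntermediateField.adjoin k {x}) = n ∧
      AA.relHeight x ≤ B ∧ aeval x g ≠ 0 ∧
      AA.logDiscr x + ε * AA.height x < AA.proximity p g q x - 2 * AA.height x}.Finite ∧
    ({x : AlgebraicClosure k | finrank k (IntermediateField.adjoin k {x}) = n ∧
      AA.relHeight x ≤ B ∧ aeval x g ≠ 0 ∧
      AA.logDiscr x + ε * AA.height x < AA.proximity p g q x - 2 * AA.height x}.ncard : ℝ) ≤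
      C * B ^ (((n : ℝ) - 1) * (n + 2) / (n + 4) + η) := by
  set κ : ℝ := 4 * ((n : ℝ) - 1) / (n + 4) with hκ
  have hnR : (2 : ℝ) ≤ n := by exact_mod_cast hn
  have hn4 : (0 : ℝ) < (n : ℝ) + 4 := by linarith
  have hκ0 : 0 < κ := div_pos (by linarith) hn4
  have hκ4 : κ ≤ 4 := by
    rw [hκ, div_le_iff₀ hn4]
    linarith
  have hκn : κ ≤ 2 * ((n : ℝ) - 1) := by
    rw [hκ, div_le_iff₀ hn4]
    nlinarith
  have hs : 0 < 4 * η / ((n : ℝ) + 2) := div_pos (by linarith) (by linarith)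
  set β : ℝ := κ + 4 * η / ((n : ℝ) + 2) with hβ
  have hβ0 : 0 < β := by rw [hβ]; linarith
  have hβe : β * ((n : ℝ) + 2) / 4 = ((n : ℝ) - 1) * (n + 2) / (n + 4) + η := by
    rw [hβ, hκ]
    have h1 : (n : ℝ) + 2 ≠ 0 := by linarith
    have h2 : (n : ℝ) + 4 ≠ 0 := hn4.ne'
    field_simp
  obtain ⟨C₁, h1⟩ := AA.upper k p hp g hg q hq n hn ε β hε hβ0
  obtain ⟨C₂, h2⟩ := hnear κ hκ0.le hκ4 hκn
  have h6 : (n : ℝ) - 1 - κ / 2 + η = ((n : ℝ) - 1) * (n + 2) / (n + 4) + η := by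
    rw [hκ]
    have h2 : (n : ℝ) + 4 ≠ 0 := hn4.ne'
    field_simp
    ring
  refine ⟨C₁ + C₂, fun B hB => ?_⟩
  obtain ⟨a1, a2⟩ := h1 B hB
  obtain ⟨b1, b2⟩ := h2 B hB
  rw [hβe] at a2
  rw [h6] at b2
  rw [add_mul]
  refine viol_union _ _ _ ?_ a1 b1 _ _ a2 b2
  rintro x ⟨hx1, hx2, hx3, hx4⟩
  rcases le_or_gt (AA.proximity p g q x) ((2 + β) * AA.height x) with h | h
  · exact Or.inl ⟨hx1, hx2, hx3, h, hx4⟩
  · refine Or.inr ⟨hx1, hx2, hx3, ?_⟩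
    have hh := AA.UpperAux.height_nonneg x
    have h7 : (2 + κ) * AA.height x ≤ (2 + β) * AA.height x :=
      mul_le_mul_of_nonneg_right (by rw [hβ]; linarith) hh
    linarith

end Pool.Agent.AAS
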