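import Pool.Agent.AAS.Near
import Pool.Agent.AAS.ViolAux

/-!
# The upper bound for the number of all violators
-/

set_option autoImplicit false

open NumberField Module Polynomial

namespace Pool.Agent.AAS

theorem viol_gen (k : Type) [Field k] [NumberField k] {r : ℕ} (p : Fin r → ℕ)
    [∀ t, Fact (p t).Prime] (hp : Function.Injective p) (g : k[X]) (hg : Squarefree g) (q : ℕ)
    (hq : q = g.natDegree ∨ q = g.natDegree + 1) (n : ℕ) (hn : 2 ≤ n) (ε η : ℝ) (hε : 0 < ε)
    (hη : 0 < η) : ∃ C : ℝ, ∀ B : ℝ, 1 ≤ B →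
    {x : AlgebraicClosure k | finrank k (IntermediateField.adjoin k {x}) = n ∧
      AA.relHeight x ≤ B ∧ aeval x g ≠ 0 ∧
      AA.logDiscr x + ε * AA.height x < AA.proximity p g q x - 2 * AA.height x}.Finite ∧
    ({x : AlgebraicClosure k | finrank k (IntermediateField.adjoin k {x}) = n ∧
      AA.relHeight x ≤ B ∧ aeval x g ≠ 0 ∧
      AA.logDiscr x + ε * AA.height x < AA.proximity p g q x - 2 * AA.height x}.ncard : ℝ) ≤
      C * B ^ (((n : ℝ) - 1) * (n + 2) / (n + 4) + η) :=
  viol_of_near k p hp g hg q hq n hn ε η hε hη fun β hβ hβ4 hβn =>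
    near_count_gen k p hp g hg q hq n hn β η hβ hβ4 hβn hη

end Pool.Agent.AAS
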